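import Pool.Agent.H84.LN.Rnd

/-!
MP_b8729f, project LN, block C (helper84): the iteration.
-/

set_option autoImplicit false
set_option linter.unusedSectionVars false

namespace Pool.Agent.H84.LN

open Finset Classical
open Pool.Agent.H65.GI
open Pool.Agent.H2.LN Pool.Agent.H12.LN

section
variable {V : Type} [Fintype V] {s : ℕ} {N Δ : ℕ} {ι : Type}

theorem itr (hP : Pm N Δ) (G : SimpleGraph V) (hG : Reg G Δ) (hs : 1 ≤ s) (hsΔ : s ≤ Δ)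
    [Fintype ι] (hι : (Fintype.card ι : ℝ) ≤ Real.exp (N ^ 4)) (f : V → ι → V → ℝ) (h : V → ι → V → V → ℝ)
    (Fr : V → ι → Finset (V × Fin s)) (hF : Top.Fam G N Δ s f h Fr) {l1 n1 T : ℕ} {l n : ℕ → ℕ}
    (hq : Sq N Δ l1 n1 T l n) {lamT φ0 w0 lL : ℝ} (hφ0 : 0 ≤ φ0) (hw0 : 0 ≤ w0) (hw1 : w0 ≤ 1)
    (hL : 0 ≤ lL) (hL1 : T * (8 / (N * Δ)) + lL ≤ 1)
    {Y0 : Finset V} {L0 : V → Finset (Fin s)} {col0 : V → Option (Fin s)} (hS : St G l1 n1 Y0 L0 col0)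
    (hT : Ts f h Fr lamT φ0 w0 (eA Δ) (eA Δ) (T * (8 / (N * Δ)) + lL) (dl Δ) (1 + 2 * N ^ 6) Y0 L0 col0)
    (t : ℕ) (ht : t ≤ T) :
    ∃ (φ w : ℝ) (Y : Finset V) (L : V → Finset (Fin s)) (col : V → Option (Fin s)),
      0 ≤ φ ∧ φ ≤ φ0 + t * (8 / (N * Δ)) ∧ 0 ≤ w ∧ w ≤ 1 ∧ St G (l t) (n t) Y L col ∧
      Ts f h Fr lamT φ w (eA Δ + 2 * t * dl Δ) (eA Δ + t * dl Δ) (((T : ℝ) - t) * (8 / (N * Δ)) + lL)
        ((t + 1) * dl Δ) ((1 + 2 * N ^ 6) * (t + 1)) Y L col := by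
  obtain ⟨hN0, hD0⟩ := Ev_pos hP
  obtain ⟨hd0, hE0, -⟩ := Ev_dl hP
  have hN : (2 : ℝ) ^ 40 ≤ N := by exact_mod_cast hP.big
  have hβ0 : (0 : ℝ) ≤ 8 / (N * Δ) := by positivity
  induction t with
  | zero =>
    refine ⟨φ0, w0, Y0, L0, col0, hφ0, ?_, hw0, hw1, ?_, ?_⟩
    · simp
    · rw [hq.l0, hq.n0]; exact hS
    · have e : (((T : ℝ) - (0 : ℕ)) * (8 / (N * Δ)) + lL) = T * (8 / (N * Δ)) + lL := by simp
      rw [e]
      exact Ts_mono hT (by simp) (by simp) (by simp) (by simp)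
  | succ t ih =>
    obtain ⟨φ, w, Y, L, col, h1, h2, h3, h4, hSt, hTs⟩ := ih (by omega)
    have hlo := hq.lo t (by omega)
    have hb : (N : ℝ) * Δ / 8 ≤ ((N ^ 8 * l t : ℕ) : ℝ) := by
      push_cast
      calc (N : ℝ) * Δ / 8 = N ^ 8 * (Δ / (8 * N ^ 7)) := by field_simp
        _ ≤ _ := mul_le_mul_of_nonneg_left hlo (by positivity)
    have hbp : (0 : ℝ) < N * Δ / 8 := by positivity
    have hb0 : (0 : ℝ) < ((N ^ 8 * l t : ℕ) : ℝ) := lt_of_lt_of_le hbp hb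
    have hb1 : 0 < N ^ 8 * l t := by exact_mod_cast hb0
    have : NeZero (N ^ 8 * l t) := ⟨hb1.ne'⟩
    have hl1 : 1 ≤ l t := by
      rcases Nat.eq_zero_or_pos (l t) with h | h
      · rw [h] at hb1
        simp at hb1
      · exact h
    have hβ : 1 / (((N ^ 8 * l t : ℕ)) : ℝ) ≤ 8 / (N * Δ) := by
      calc 1 / (((N ^ 8 * l t : ℕ)) : ℝ) ≤ 1 / (N * Δ / 8) := one_div_le_one_div_of_le hbp hb
        _ = _ := by rw [one_div_div]
    have h2Δ : 2 * Δ ≤ N ^ 8 * l t := by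
      have : (2 : ℝ) * Δ ≤ ((N ^ 8 * l t : ℕ) : ℝ) := by
        refine le_trans ?_ hb
        have : (16 : ℝ) ≤ N := le_trans (by norm_num) hN
        nlinarith
      exact_mod_cast this
    have htT : (t : ℝ) + 1 ≤ T := by exact_mod_cast ht
    have hlam0 : 0 ≤ ((T : ℝ) - (t + 1)) * (8 / (N * Δ)) + lL := by
      have := mul_nonneg (show (0 : ℝ) ≤ (T : ℝ) - (t + 1) by linarith) hβ0
      linarith
    have hlam1 : ((T : ℝ) - (t + 1)) * (8 / (N * Δ)) + lL ≤ 1 := by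
      have h0 : (0 : ℝ) ≤ t := Nat.cast_nonneg t
      have := mul_nonneg (show (0 : ℝ) ≤ (t : ℝ) + 1 by linarith) hβ0
      linarith
    have he2 : 0 ≤ eA Δ + t * dl Δ := by positivity
    have hTs' : Ts f h Fr lamT φ w (eA Δ + 2 * t * dl Δ) (eA Δ + t * dl Δ)
        ((((T : ℝ) - (t + 1)) * (8 / (N * Δ)) + lL) + 8 / (N * Δ))
        ((t + 1) * dl Δ) ((1 + 2 * N ^ 6) * (t + 1)) Y L col := by
      have e : (((T : ℝ) - (t + 1)) * (8 / (N * Δ)) + lL) + 8 / (N * Δ) =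
        ((T : ℝ) - t) * (8 / (N * Δ)) + lL := by ring
      rw [e]
      exact hTs
    obtain ⟨Y', L', col', hSt', hTs''⟩ := rnd (b := N ^ 8 * l t) hP G hG hs hsΔ hι f h Fr hF hl1 h2Δ
      (hq.ls t (by omega)) (hq.ns t (by omega)) Y L col hSt hlam0 hlam1 he2 hβ hTs'
    have hc0 := cc_nonneg (N ^ 8 * l t) (n t) (l t) hb1
    have hc1 := (cc_le (N ^ 8 * l t) (n t) (l t) hb1 hl1).2
    have hq0 := qq_nonneg (N ^ 8 * l t) (n t) (l t) (l (t + 1)) hb1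
    have hll : l (t + 1) ≤ l t := by
      have a1 := kap_le_one (N ^ 8 * l t) (n t) hb1
      have a2 : (0 : ℝ) ≤ l t := Nat.cast_nonneg _
      have a3 := Real.sqrt_nonneg (8 * l t * (N : ℝ) ^ 6)
      have a4 := hq.ls t (by omega)
      have : (l (t + 1) : ℝ) ≤ l t := by nlinarith
      exact_mod_cast this
    have hq1 : qq (N ^ 8 * l t) (n t) (l t) (l (t + 1)) ≤ 1 := by
      refine (qq_le _ (n t) (l t) (l (t + 1)) hb1 hl1).trans ?_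
      rw [div_le_one (by exact_mod_cast hl1)]
      exact_mod_cast hll
    refine ⟨φ + cc (N ^ 8 * l t) (n t) (l t) * w, qq (N ^ 8 * l t) (n t) (l t) (l (t + 1)) * w, Y', L', col',
      ?_, ?_, ?_, ?_, hSt', ?_⟩
    rotate_left 4
    · have e : (((T : ℝ) - ((t + 1 : ℕ) : ℝ)) * (8 / (N * Δ)) + lL) =
          ((T : ℝ) - (t + 1)) * (8 / (N * Δ)) + lL := by push_cast; ring
      rw [e]
      refine Ts_mono hTs'' ?_ ?_ ?_ ?_
      · have a1 : (eA Δ + t * dl Δ) / ((N ^ 8 * l t : ℕ) : ℝ) ≤ dl Δ := by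
          rw [div_eq_mul_one_div]
          refine le_trans ?_ (nm4 hP T hq.Tb).2.2.2.2.2
          refine mul_le_mul ?_ hβ (by positivity) (by positivity)
          have : (t : ℝ) * dl Δ ≤ T * dl Δ := mul_le_mul_of_nonneg_right (by linarith) hd0
          linarith
        push_cast at a1 ⊢
        linarith
      · push_cast
        linarith
      · push_cast
        linarith
      · have a1 : 6 * (Δ : ℝ) / ((N ^ 8 * l t : ℕ) : ℝ) ≤ 1 := by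
          rw [div_le_one hb0]
          refine le_trans ?_ hb
          have : (48 : ℝ) ≤ N := le_trans (by norm_num) hN
          nlinarith
        push_cast at a1 ⊢
        linarith
    · have := mul_nonneg hc0 h3
      linarith
    · have a1 : cc (N ^ 8 * l t) (n t) (l t) * w ≤ 8 / (N * Δ) * 1 :=
        mul_le_mul (hc1.trans hβ) h4 h3 hβ0
      push_cast
      linarith
    · exact mul_nonneg hq0 h3
    · calc qq (N ^ 8 * l t) (n t) (l t) (l (t + 1)) * w ≤ 1 * 1 := mul_le_mul hq1 h4 h3 (by norm_num)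
        _ = 1 := one_mul 1

theorem fin' (hP : Pm N Δ) (G : SimpleGraph V) (hG : Reg G Δ) (hs : 1 ≤ s) (hsΔ : s ≤ Δ)
    [Fintype ι] (hι : (Fintype.card ι : ℝ) ≤ Real.exp (N ^ 4)) (f : V → ι → V → ℝ) (h : V → ι → V → V → ℝ)
    (Fr : V → ι → Finset (V × Fin s)) (hF : Top.Fam G N Δ s f h Fr) {l1 n1 T : ℕ} {l n : ℕ → ℕ}
    (hq : Sq N Δ l1 n1 T l n) {lamT φ0 w0 : ℝ} (hφ0 : 0 ≤ φ0) (hφ1 : φ0 ≤ 2 / Δ) (hw0 : 0 ≤ w0)
    (hw1 : w0 ≤ 1)
    {Y0 : Finset V} {L0 : V → Finset (Fin s)} {col0 : V → Option (Fin s)} (hS : St G l1 n1 Y0 L0 col0)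
    (hT : Ts f h Fr lamT φ0 w0 (eA Δ) (eA Δ) (T * (8 / (N * Δ)) + 16 * N ^ 13 / Δ) (dl Δ)
      (1 + 2 * N ^ 6) Y0 L0 col0) :
    ∃ (φ w : ℝ) (L : V → Finset (Fin s)) (col : V → Option (Fin s)), 0 ≤ φ ∧ φ ≤ N ^ 14 / Δ ∧
      (∀ v, col v ≠ none) ∧ (∀ u v c, G.Adj u v → col u = some c → col v ≠ some c) ∧
      Ts f h Fr lamT φ w ((Δ : ℝ) ^ (-(19 : ℝ) / 5)) (eA Δ + (T + 1) * dl Δ) 0
        ((Δ : ℝ) ^ (-(9 : ℝ) / 2)) (N ^ 16) ∅ L col := by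
  obtain ⟨hN0, hD0⟩ := Ev_pos hP
  obtain ⟨hd0, hE0, -⟩ := Ev_dl hP
  have hN : (2 : ℝ) ^ 40 ≤ N := by exact_mod_cast hP.big
  obtain ⟨m1, m2, m3, m4, m5, m6⟩ := nm4 hP T hq.Tb
  have h2Δ : (0 : ℝ) ≤ 2 / Δ := by positivity
  have hL0 : (0 : ℝ) ≤ 16 * N ^ 13 / Δ := by positivity
  obtain ⟨φ, w, Y, L, col, h1, h2, h3, h4, hSt, hTs⟩ := itr hP G hG hs hsΔ hι f h Fr hF hq hφ0 hw0 hw1
    hL0 (by linarith) hS hT T le_rfl
  rw [sub_self, zero_mul] at hTs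
  -- the last round
  obtain ⟨u, hu, -, hu1, hD, -, -, -, -, -, h7⟩ := Num_u hP
  have hk := Num_pow hN hu 13 (by norm_num)
  have hlo := hq.lo T le_rfl
  have hu0 : 0 < u := by linarith
  have hbig : 32 * (N : ℝ) ^ 13 * u ^ 7 ≤ Δ := by
    rw [hD]
    calc 32 * (N : ℝ) ^ 13 * u ^ 7 ≤ u * u ^ 7 := by
          refine mul_le_mul_of_nonneg_right ?_ (by positivity)
          nlinarith [pow_pos hN0 13]
      _ = u ^ 8 := by ring
      _ ≤ u ^ 10 := pow_le_pow_right₀ hu1 (by norm_num)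
  have hu7 : (1 : ℝ) ≤ u ^ 7 := one_le_pow₀ hu1
  have hN13 : (0 : ℝ) < (N : ℝ) ^ 13 := pow_pos hN0 13
  have hbl : (Δ : ℝ) / (16 * N ^ 13) ≤ ((l T / N ^ 6 : ℕ) : ℝ) := by
    have a1 : (l T : ℝ) / (N ^ 6 : ℕ) < ((l T / N ^ 6 : ℕ) : ℝ) + 1 := by
      have hNp : 0 < N ^ 6 := by
        have : 0 < N := by exact_mod_cast hN0
        positivity
      rw [div_lt_iff₀ (by exact_mod_cast hNp)]
      have := Nat.lt_div_mul_add (a := l T) hNp
      have h' : l T < (l T / N ^ 6 + 1) * N ^ 6 := by linarith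
      exact_mod_cast h'
    have a2 : (Δ : ℝ) / (8 * N ^ 13) ≤ (l T : ℝ) / (N ^ 6 : ℕ) := by
      push_cast
      rw [le_div_iff₀ (by positivity)]
      refine le_trans (le_of_eq ?_) hlo
      field_simp
    have a3 : (1 : ℝ) ≤ Δ / (16 * N ^ 13) := by
      rw [le_div_iff₀ (by positivity)]
      nlinarith
    have a4 : (Δ : ℝ) / (8 * N ^ 13) = Δ / (16 * N ^ 13) + Δ / (16 * N ^ 13) := by
      field_simp
      norm_num
    linarith
  have hbp : (0 : ℝ) < Δ / (16 * N ^ 13) := by positivity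
  have hb0 : (0 : ℝ) < ((l T / N ^ 6 : ℕ) : ℝ) := lt_of_lt_of_le hbp hbl
  have hb1 : 0 < l T / N ^ 6 := by exact_mod_cast hb0
  have : NeZero (l T / N ^ 6) := ⟨hb1.ne'⟩
  have hl1 : 1 ≤ l T := by
    rcases Nat.eq_zero_or_pos (l T) with h | h
    · rw [h] at hb1
      simp at hb1
    · exact h
  have hβ : 1 / (((l T / N ^ 6 : ℕ)) : ℝ) ≤ 16 * N ^ 13 / Δ := by
    calc 1 / (((l T / N ^ 6 : ℕ)) : ℝ) ≤ 1 / (Δ / (16 * N ^ 13)) := one_div_le_one_div_of_le hbp hbl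
      _ = _ := by rw [one_div_div]
  have h2n : 2 * n T ≤ l T / N ^ 6 := by
    have : (2 : ℝ) * n T ≤ ((l T / N ^ 6 : ℕ) : ℝ) := by
      refine le_trans ?_ hbl
      have := hq.la
      rw [h7] at this
      rw [le_div_iff₀ (by positivity)]
      nlinarith
    exact_mod_cast this
  have he2 : 0 ≤ eA Δ + T * dl Δ := by positivity
  obtain ⟨L', col', hc, hp, hTs'⟩ := las (b := l T / N ^ 6) (lam := 0) hP G hG hs hsΔ hι f h Fr hF hl1
    (Nat.div_mul_le_self _ _) h2n Y L col hSt le_rfl zero_le_one he2 hβ hTs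
  have hc0 := cc_nonneg (l T / N ^ 6) (n T) (l T) hb1
  have hc1 := (cc_le (l T / N ^ 6) (n T) (l T) hb1 hl1).2
  refine ⟨φ + cc (l T / N ^ 6) (n T) (l T) * w, qq (l T / N ^ 6) (n T) (l T) 0 * w, L', col', ?_, ?_, hc, hp,
    Ts_mono hTs' ?_ ?_ ?_ ?_⟩
  · have := mul_nonneg hc0 h3
    linarith
  · have a1 : cc (l T / N ^ 6) (n T) (l T) * w ≤ 16 * N ^ 13 / Δ * 1 :=
      mul_le_mul (hc1.trans hβ) h4 h3 hL0
    linarith
  · have a1 : (eA Δ + T * dl Δ) / ((l T / N ^ 6 : ℕ) : ℝ) ≤ (eA Δ + T * dl Δ) * (16 * N ^ 13 / Δ) := by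
      rw [div_eq_mul_one_div]
      exact mul_le_mul_of_nonneg_left hβ he2
    linarith
  · linarith
  · exact m2
  · have a1 : 6 * (Δ : ℝ) / ((l T / N ^ 6 : ℕ) : ℝ) ≤ 96 * N ^ 13 := by
      rw [div_le_iff₀ hb0]
      have : 96 * (N : ℝ) ^ 13 * (Δ / (16 * N ^ 13)) ≤ 96 * N ^ 13 * ((l T / N ^ 6 : ℕ) : ℝ) :=
        mul_le_mul_of_nonneg_left hbl (by positivity)
      refine le_trans (le_of_eq ?_) this
      field_simp
      norm_num
    linarith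

end

end Pool.Agent.H84.LN
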