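import Pool.Agent.H84.LN.Num

/-!
MP_b8729f, project LN, block C (helper84): the sequences of phase B.
-/

set_option autoImplicit false
set_option linter.unusedSectionVars false

namespace Pool.Agent.H84.LN

open Finset Classical
open Pool.Agent.H65.GI
open Pool.Agent.H2.LN Pool.Agent.H12.LN

/-- one step -/
noncomputable def Seq_F (N Δ : ℕ) (p : ℕ × ℕ) : ℕ × ℕ :=
  (⌊kap (N ^ 8 * p.1) p.2 * p.1 - Real.sqrt (8 * p.1 * N ^ 6)⌋₊,
    ⌈(p.2 : ℝ) * (1 - kap (N ^ 8 * p.1) p.2 / (N ^ 8 * p.1 : ℕ)) ^ p.1 + 2 * dv Δ⌉₊)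

theorem Seq_step {N Δ : ℕ} (hP : Pm N Δ) (p : ℕ × ℕ) (hlo : (Δ : ℝ) / (8 * N ^ 7) ≤ p.1) (hl : p.1 ≤ Δ)
    (hn : p.2 ≤ p.1) :
    ((Seq_F N Δ p).1 : ℝ) ≤ kap (N ^ 8 * p.1) p.2 * p.1 - Real.sqrt (8 * p.1 * N ^ 6) ∧
    (p.2 : ℝ) * (1 - kap (N ^ 8 * p.1) p.2 / (N ^ 8 * p.1 : ℕ)) ^ p.1 + 2 * dv Δ ≤ (Seq_F N Δ p).2 ∧
    (p.1 : ℝ) - p.2 * (1 / N ^ 8) - dv Δ - 1 ≤ (Seq_F N Δ p).1 ∧
    ((Seq_F N Δ p).2 : ℝ) ≤ p.2 * (1 - 1 / N ^ 8 + 2 * (1 / N ^ 8) ^ 2) + 2 * dv Δ + 1 ∧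
    (Seq_F N Δ p).1 ≤ p.1 := by
  obtain ⟨u, hu, hN, hu1, hD, -, -, hdv, -, -, -⟩ := Num_u hP
  obtain ⟨l, n⟩ := p
  simp only at hlo hl hn ⊢
  have hM : (0 : ℝ) < N := lt_of_lt_of_le (by norm_num) hN
  have hM1 : (1 : ℝ) ≤ N := le_trans (by norm_num) hN
  have hu0 : 0 < u := by linarith
  have hD0 : (0 : ℝ) < Δ := by rw [hD]; positivity
  have hk := Num_pow hN hu 13 (by norm_num)
  have hk7 : (N : ℝ) ^ 7 ≤ N ^ 13 := pow_le_pow_right₀ hM1 (by norm_num)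
  have hk6 : (N : ℝ) ^ 6 ≤ N ^ 13 := pow_le_pow_right₀ hM1 (by norm_num)
  -- l is large
  have hl64 : 64 * (N : ℝ) ^ 6 ≤ l := by
    refine le_trans ?_ hlo
    rw [le_div_iff₀ (by positivity)]
    have e : 64 * (N : ℝ) ^ 6 * (8 * N ^ 7) = 512 * N ^ 13 := by ring
    rw [e, hD]
    have : u ≤ u ^ 10 := le_self_pow₀ hu1 (by norm_num)
    nlinarith [pow_pos hM 13]
  have hl0 : (0 : ℝ) < l := lt_of_lt_of_le (by positivity) hl64
  have hl1 : 0 < l := by exact_mod_cast hl0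
  have hNn : 0 < N := by exact_mod_cast hM
  have hb1 : 1 ≤ N ^ 8 * l := Nat.one_le_iff_ne_zero.2 (by positivity)
  have hb0 : (0 : ℝ) < ((N ^ 8 * l : ℕ) : ℝ) := by exact_mod_cast hb1
  have hnl : (n : ℝ) ≤ l := by exact_mod_cast hn
  have hlD : (l : ℝ) ≤ Δ := by exact_mod_cast hl
  have hn0 : (0 : ℝ) ≤ n := Nat.cast_nonneg n
  obtain ⟨y, hy⟩ : ∃ y : ℝ, y = 1 / (N : ℝ) ^ 8 := ⟨_, rfl⟩
  have hy0 : 0 < y := by rw [hy]; positivity
  have hy1 : y ≤ 1 / 8 := by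
    rw [hy]
    refine one_div_le_one_div_of_le (by norm_num) ?_
    have : (N : ℝ) ≤ N ^ 8 := le_self_pow₀ hM1 (by norm_num)
    refine le_trans ?_ this
    exact le_trans (by norm_num) hN
  have hnb : (n : ℝ) / ((N ^ 8 * l : ℕ) : ℝ) = n * y / l := by
    rw [hy]
    push_cast
    field_simp
  have hnb1 : (n : ℝ) / ((N ^ 8 * l : ℕ) : ℝ) ≤ y := by
    rw [hnb, div_le_iff₀ hl0]
    nlinarith
  have hk1 := kap_lin (N ^ 8 * l) n hb1
  have hk2 := kap_le_one (N ^ 8 * l) n hb1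
  have hk0 := kap_nonneg (N ^ 8 * l) n hb1
  obtain ⟨k, hkk⟩ : ∃ k : ℝ, k = kap (N ^ 8 * l) n := ⟨_, rfl⟩
  rw [← hkk] at hk0 hk1 hk2
  have hky : 1 - y ≤ k := by linarith
  have hkl : (l : ℝ) - n * y ≤ k * l := by
    have : (1 - n * y / l) * l ≤ k * l := mul_le_mul_of_nonneg_right (by rw [hnb] at hk1; exact hk1) hl0.le
    have e : (1 - n * y / l) * l = l - n * y := by field_simp
    linarith
  -- the square root
  have hsq : Real.sqrt (8 * l * (N : ℝ) ^ 6) ≤ dv Δ := by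
    rw [hdv]
    refine Real.sqrt_le_iff.2 ⟨by positivity, ?_⟩
    have h1 : 8 * (l : ℝ) * N ^ 6 ≤ 8 * u ^ 10 * N ^ 6 := by
      rw [← hD]
      refine mul_le_mul_of_nonneg_right ?_ (by positivity)
      linarith
    refine h1.trans ?_
    have h2 : 8 * (N : ℝ) ^ 6 ≤ u := by nlinarith [pow_pos hM 6]
    have h3 : 8 * (N : ℝ) ^ 6 ≤ u ^ 2 := by nlinarith
    calc 8 * u ^ 10 * (N : ℝ) ^ 6 = (8 * N ^ 6) * u ^ 10 := by ring
      _ ≤ u ^ 2 * u ^ 10 := mul_le_mul_of_nonneg_right h3 (by positivity)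
      _ = (u ^ 6) ^ 2 := by ring
  have hsq2 : Real.sqrt (8 * l * (N : ℝ) ^ 6) ≤ l / 2 := by
    refine Real.sqrt_le_iff.2 ⟨by positivity, ?_⟩
    nlinarith
  have hr0 : 0 ≤ k * l - Real.sqrt (8 * l * (N : ℝ) ^ 6) := by nlinarith
  have hF1 : ((Seq_F N Δ (l, n)).1 : ℝ) ≤ k * l - Real.sqrt (8 * l * (N : ℝ) ^ 6) := by
    unfold Seq_F
    simp only
    rw [← hkk]
    exact Nat.floor_le hr0
  have hF1' : k * l - Real.sqrt (8 * l * (N : ℝ) ^ 6) - 1 ≤ ((Seq_F N Δ (l, n)).1 : ℝ) := by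
    unfold Seq_F
    simp only
    rw [← hkk]
    exact (Nat.sub_one_lt_floor _).le
  have hx0 : 0 ≤ 1 - k / ((N ^ 8 * l : ℕ) : ℝ) := by
    rw [sub_nonneg, div_le_one hb0]
    have : (1 : ℝ) ≤ ((N ^ 8 * l : ℕ) : ℝ) := by exact_mod_cast hb1
    linarith
  have hpow : (1 - k / ((N ^ 8 * l : ℕ) : ℝ)) ^ l ≤ 1 - y + 2 * y ^ 2 := by
    calc (1 - k / ((N ^ 8 * l : ℕ) : ℝ)) ^ l ≤ (Real.exp (-(k / ((N ^ 8 * l : ℕ) : ℝ)))) ^ l :=
          pow_le_pow_left₀ hx0 (by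
            have := Real.add_one_le_exp (-(k / ((N ^ 8 * l : ℕ) : ℝ)))
            linarith) l
      _ = Real.exp (-(k * y)) := by
          rw [← Real.exp_nat_mul]
          congr 1
          rw [hy]
          push_cast
          field_simp
      _ ≤ 1 + -(k * y) + (-(k * y)) ^ 2 := by
          refine exp_quad _ ?_
          rw [abs_neg, abs_of_nonneg (by positivity)]
          nlinarith
      _ ≤ 1 - y + 2 * y ^ 2 := by
          have b1 : (1 - y) * y ≤ k * y := mul_le_mul_of_nonneg_right hky hy0.le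
          have b2 : (-(k * y)) ^ 2 ≤ y ^ 2 := by
            rw [neg_sq]
            refine pow_le_pow_left₀ (by positivity) ?_ 2
            nlinarith
          linarith
  have hd0 : 0 ≤ dv Δ := by rw [hdv]; positivity
  refine ⟨?_, ?_, ?_, ?_, ?_⟩
  · rw [← hkk]; exact hF1
  · unfold Seq_F
    exact Nat.le_ceil _
  · rw [← hy]
    linarith
  · rw [← hy]
    have h1 : ((Seq_F N Δ (l, n)).2 : ℝ) ≤ n * (1 - k / ((N ^ 8 * l : ℕ) : ℝ)) ^ l + 2 * dv Δ + 1 := by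
      unfold Seq_F
      simp only
      rw [← hkk]
      refine (Nat.ceil_lt_add_one ?_).le
      have := mul_nonneg hn0 (pow_nonneg hx0 l)
      linarith
    have h2 := mul_le_mul_of_nonneg_left hpow hn0
    linarith
  · have : ((Seq_F N Δ (l, n)).1 : ℝ) ≤ l := by
      have h1 := Real.sqrt_nonneg (8 * l * (N : ℝ) ^ 6)
      nlinarith
    exact_mod_cast this

theorem seq {N Δ : ℕ} (hP : Pm N Δ) : ∃ T ≤ 5 * N ^ 9, ∀ l1 n1 : ℕ, l1 ≤ Δ → n1 ≤ Δ →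
    (n1 : ℝ) + Δ / (4 * N ^ 7) ≤ l1 → ∃ (l n : ℕ → ℕ), Sq N Δ l1 n1 T l n := by
  obtain ⟨u, hu, hN, hu1, hD, -, -, hdv, -, -, h7⟩ := Num_u hP
  obtain ⟨hlog, -, hD1⟩ := Num_log hP
  have hM : (0 : ℝ) < N := lt_of_lt_of_le (by norm_num) hN
  have hM1 : (1 : ℝ) ≤ N := le_trans (by norm_num) hN
  have hu0 : 0 < u := by linarith
  have hD0 : (0 : ℝ) < Δ := by linarith
  have hlog0 : 0 ≤ Real.log Δ := Real.log_nonneg hD1
  obtain ⟨T, hTd⟩ : ∃ T : ℕ, T = ⌈4 * (N : ℝ) ^ 8 * Real.log Δ⌉₊ := ⟨_, rfl⟩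
  have hT1 : 4 * (N : ℝ) ^ 8 * Real.log Δ ≤ T := by rw [hTd]; exact Nat.le_ceil _
  have hT2 : (T : ℝ) ≤ 4 * (N : ℝ) ^ 8 * Real.log Δ + 1 := by
    rw [hTd]
    exact (Nat.ceil_lt_add_one (by positivity)).le
  have hT3 : (T : ℝ) ≤ 5 * (N : ℝ) ^ 9 := by
    have h1 : 4 * (N : ℝ) ^ 8 * Real.log Δ ≤ 4 * (N : ℝ) ^ 8 * N := mul_le_mul_of_nonneg_left hlog (by positivity)
    have h2 : (1 : ℝ) ≤ (N : ℝ) ^ 9 := one_le_pow₀ hM1
    have e : 4 * (N : ℝ) ^ 8 * N = 4 * (N : ℝ) ^ 9 := by ring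
    linarith
  have hT4 : T ≤ 5 * N ^ 9 := by exact_mod_cast hT3
  refine ⟨T, hT4, fun l1 n1 hl1 hn1 h1 => ?_⟩
  obtain ⟨p, hp0, hps⟩ : ∃ p : ℕ → ℕ × ℕ, p 0 = (l1, n1) ∧ ∀ t, p (t + 1) = Seq_F N Δ (p t) :=
    ⟨fun t => Nat.rec (l1, n1) (fun _ q => Seq_F N Δ q) t, rfl, fun t => rfl⟩
  obtain ⟨y, hy⟩ : ∃ y : ℝ, y = 1 / (N : ℝ) ^ 8 := ⟨_, rfl⟩
  have hy0 : 0 < y := by rw [hy]; positivity
  have hyN : y * N ^ 8 = 1 := by rw [hy]; field_simp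
  have hy1 : 2 ^ 40 * y ≤ 1 := by
    have : (N : ℝ) ≤ N ^ 8 := le_self_pow₀ hM1 (by norm_num)
    have h2 : (2 : ℝ) ^ 40 ≤ N ^ 8 := hN.trans this
    calc 2 ^ 40 * y ≤ N ^ 8 * y := mul_le_mul_of_nonneg_right h2 hy0.le
      _ = 1 := by rw [mul_comm]; exact hyN
  obtain ⟨z, hz⟩ : ∃ z : ℝ, z = (Δ : ℝ) / N ^ 7 := ⟨_, rfl⟩
  have hz0 : 0 < z := by rw [hz]; positivity
  have hz4 : (Δ : ℝ) / (4 * N ^ 7) = z / 4 := by rw [hz]; field_simp
  have hz8 : (Δ : ℝ) / (8 * N ^ 7) = z / 8 := by rw [hz]; field_simp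
  have hyD : 2 ^ 40 * (y * Δ) ≤ z := by
    rw [hz, hy, le_div_iff₀ (by positivity)]
    calc (2 : ℝ) ^ 40 * (1 / (N : ℝ) ^ 8 * (Δ : ℝ)) * (N : ℝ) ^ 7 = 2 ^ 40 * (Δ : ℝ) / (N : ℝ) := by field_simp
      _ ≤ (Δ : ℝ) := by
        rw [div_le_iff₀ hM]
        nlinarith
  -- errors
  have hk := Num_pow hN hu 16 (by norm_num)
  have hd1 : 1 ≤ dv Δ := by rw [hdv]; exact one_le_pow₀ hu1
  have hdz : 2 ^ 30 * ((T : ℝ) * dv Δ) ≤ z := by
    rw [hz, hdv, le_div_iff₀ (by positivity), hD]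
    have h2 : (T : ℝ) * u ^ 6 ≤ 5 * N ^ 9 * u ^ 6 := mul_le_mul_of_nonneg_right hT3 (by positivity)
    have h3 : (2 : ℝ) ^ 30 * (T * u ^ 6) * N ^ 7 ≤ 2 ^ 30 * (5 * N ^ 9 * u ^ 6) * N ^ 7 := by
      refine mul_le_mul_of_nonneg_right ?_ (by positivity)
      linarith
    refine h3.trans ?_
    calc (2 : ℝ) ^ 30 * (5 * N ^ 9 * u ^ 6) * N ^ 7 = (2 ^ 30 * 5 * N ^ 16) * u ^ 6 := by ring
      _ ≤ u * u ^ 6 := by
        refine mul_le_mul_of_nonneg_right ?_ (by positivity)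
        nlinarith [pow_pos hM 16]
      _ = u ^ 7 := by ring
      _ ≤ u ^ 10 := pow_le_pow_right₀ hu1 (by norm_num)
  have hdy : 10 * dv Δ ≤ y * Δ / 2 := by
    rw [hdv, hy, hD]
    have : 20 * u ^ 6 * N ^ 8 ≤ u ^ 10 := by
      calc 20 * u ^ 6 * (N : ℝ) ^ 8 = (20 * N ^ 8) * u ^ 6 := by ring
        _ ≤ u * u ^ 6 := by
          refine mul_le_mul_of_nonneg_right ?_ (by positivity)
          have : (N : ℝ) ^ 8 ≤ N ^ 16 := pow_le_pow_right₀ hM1 (by norm_num)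
          nlinarith [pow_pos hM 8]
        _ = u ^ 7 := by ring
        _ ≤ u ^ 10 := pow_le_pow_right₀ hu1 (by norm_num)
    rw [one_div, inv_mul_eq_div, div_div, le_div_iff₀ (by positivity)]
    linarith
  -- the invariant
  have inv : ∀ t ≤ T, (p t).1 ≤ Δ ∧ ((p t).2 : ℝ) ≤ Δ ∧
      z / 4 - 4 * y * Δ - t * (10 * dv Δ) ≤ (p t).1 - (1 + 4 * y) * (p t).2 ∧
      ((p t).2 : ℝ) ≤ Δ * (1 - y / 2) ^ t + (2 / y) * (3 * dv Δ) := by
    intro t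
    induction t with
    | zero =>
      intro _
      rw [hp0]
      have hn1' : (n1 : ℝ) ≤ Δ := by exact_mod_cast hn1
      refine ⟨hl1, hn1', ?_, ?_⟩
      · simp only [Nat.cast_zero, zero_mul, sub_zero]
        have : y * n1 ≤ y * Δ := mul_le_mul_of_nonneg_left hn1' hy0.le
        rw [hz4] at h1
        linarith
      · simp only [pow_zero, mul_one]
        have : 0 ≤ 2 / y * (3 * dv Δ) := by positivity
        linarith
    | succ t ih =>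
      intro ht
      obtain ⟨i1, i2, i3, i4⟩ := ih (by omega)
      have htT : (t : ℝ) ≤ T := by exact_mod_cast (by omega : t ≤ T)
      have htd : (t : ℝ) * dv Δ ≤ T * dv Δ := mul_le_mul_of_nonneg_right htT (by linarith)
      have hn0 : (0 : ℝ) ≤ (p t).2 := Nat.cast_nonneg _
      have hyn : 0 ≤ y * (p t).2 := mul_nonneg hy0.le hn0
      have hlo : z / 8 ≤ (p t).1 - ((p t).2 : ℝ) := by linarith
      have hnl : (p t).2 ≤ (p t).1 := by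
        have : ((p t).2 : ℝ) ≤ (p t).1 := by linarith
        exact_mod_cast this
      obtain ⟨j1, j2, j3, j4, j5⟩ := Seq_step hP (p t) (by rw [hz8]; linarith) i1 hnl
      rw [← hps, ← hy] at j3 j4
      rw [← hps] at j5
      have hq : 2 * y ^ 2 * (p t).2 ≤ (y / 2) * (p t).2 := by
        refine mul_le_mul_of_nonneg_right ?_ hn0
        nlinarith
      have j6 : ((p (t + 1)).2 : ℝ) ≤ (p t).2 * (1 - y / 2) + 3 * dv Δ := by linarith
      have hyy : 0 ≤ 1 - y / 2 := by linarith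
      refine ⟨j5.trans i1, ?_, ?_, ?_⟩
      · have : ((p t).2 : ℝ) * (1 - y / 2) ≤ Δ * (1 - y / 2) := mul_le_mul_of_nonneg_right i2 hyy
        linarith
      · push_cast
        have k1 : 4 * y * ((p (t + 1)).2 : ℝ) ≤ 4 * y * ((p t).2 * (1 - y / 2) + 3 * dv Δ) :=
          mul_le_mul_of_nonneg_left j6 (by positivity)
        have k2 : 12 * y * dv Δ ≤ dv Δ := by nlinarith
        nlinarith
      · rw [pow_succ]
        have k1 : ((p t).2 : ℝ) * (1 - y / 2) ≤ (Δ * (1 - y / 2) ^ t + (2 / y) * (3 * dv Δ)) * (1 - y / 2) :=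
          mul_le_mul_of_nonneg_right i4 hyy
        have e : (Δ * (1 - y / 2) ^ t + (2 / y) * (3 * dv Δ)) * (1 - y / 2) =
          Δ * ((1 - y / 2) ^ t * (1 - y / 2)) + (2 / y) * (3 * dv Δ) - 3 * dv Δ := by
          field_simp
          ring
        linarith
  have inv2 : ∀ t ≤ T, z / 8 ≤ (p t).1 - ((p t).2 : ℝ) := by
    intro t ht
    obtain ⟨i1, i2, i3, i4⟩ := inv t ht
    have htT : (t : ℝ) ≤ T := by exact_mod_cast ht
    have htd : (t : ℝ) * dv Δ ≤ T * dv Δ := mul_le_mul_of_nonneg_right htT (by linarith)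
    have hn0 : (0 : ℝ) ≤ (p t).2 := Nat.cast_nonneg _
    have hyn : 0 ≤ y * (p t).2 := mul_nonneg hy0.le hn0
    linarith
  have stp : ∀ t ≤ T, _ := fun t ht => Seq_step hP (p t)
    (by
      rw [hz8]
      have := inv2 t ht
      have hn0 : (0 : ℝ) ≤ (p t).2 := Nat.cast_nonneg _
      linarith) (inv t ht).1 (by
      have := inv2 t ht
      have : ((p t).2 : ℝ) ≤ (p t).1 := by linarith
      exact_mod_cast this)
  refine ⟨fun t => (p t).1, fun t => (p t).2, ⟨?_, ?_, ?_, ?_, ?_, ?_, ?_, hT4⟩⟩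
  · show (p 0).1 = l1
    rw [hp0]
  · show (p 0).2 = n1
    rw [hp0]
  · intro t ht
    have := (stp t ht.le).1
    rw [← hps] at this
    exact this
  · intro t ht
    have := (stp t ht.le).2.1
    rw [← hps] at this
    exact this
  · intro t ht
    have := inv2 t ht
    have hn0 : (0 : ℝ) ≤ (p t).2 := Nat.cast_nonneg _
    show (Δ : ℝ) / (8 * N ^ 7) ≤ (p t).1
    rw [hz8]
    linarith
  · intro t ht
    exact ⟨(inv t ht).1, by exact_mod_cast (inv t ht).2.1⟩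
  · obtain ⟨-, -, -, i4⟩ := inv T le_rfl
    show ((p T).2 : ℝ) ≤ (Δ : ℝ) ^ ((7 : ℝ) / 10)
    rw [h7]
    refine i4.trans ?_
    have a1 : (1 - y / 2) ^ T ≤ 1 / Δ := by
      calc (1 - y / 2) ^ T ≤ (Real.exp (-(y / 2))) ^ T := by
            refine pow_le_pow_left₀ (by linarith) ?_ T
            have := Real.add_one_le_exp (-(y / 2))
            linarith
        _ = Real.exp (T * (-(y / 2))) := by rw [← Real.exp_nat_mul]
        _ ≤ Real.exp (-Real.log Δ) := by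
            refine Real.exp_le_exp.2 ?_
            have : 4 * (N : ℝ) ^ 8 * Real.log Δ * (y / 2) ≤ T * (y / 2) :=
              mul_le_mul_of_nonneg_right hT1 (by positivity)
            have e : 4 * (N : ℝ) ^ 8 * Real.log Δ * (y / 2) = 2 * (y * N ^ 8) * Real.log Δ := by ring
            rw [e, hyN] at this
            linarith
        _ = 1 / Δ := by rw [Real.exp_neg, Real.exp_log hD0, one_div]
    have a2 : (Δ : ℝ) * (1 - y / 2) ^ T ≤ 1 := by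
      calc (Δ : ℝ) * (1 - y / 2) ^ T ≤ Δ * (1 / Δ) := mul_le_mul_of_nonneg_left a1 hD0.le
        _ = 1 := by field_simp
    have a3 : 2 / y * (3 * dv Δ) = 6 * N ^ 8 * u ^ 6 := by
      rw [hdv, hy]
      field_simp
      norm_num
    rw [a3]
    have a4 : (1 : ℝ) ≤ u ^ 6 := one_le_pow₀ hu1
    have a5 : (7 : ℝ) * N ^ 8 ≤ u := by
      have : (N : ℝ) ^ 8 ≤ N ^ 16 := pow_le_pow_right₀ hM1 (by norm_num)
      nlinarith [pow_pos hM 8]
    have a6 : (1 : ℝ) ≤ N ^ 8 := one_le_pow₀ hM1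
    calc (Δ : ℝ) * (1 - y / 2) ^ T + 6 * N ^ 8 * u ^ 6 ≤ 1 * u ^ 6 + 6 * N ^ 8 * u ^ 6 := by linarith
      _ ≤ (7 * N ^ 8) * u ^ 6 := by nlinarith
      _ ≤ u * u ^ 6 := mul_le_mul_of_nonneg_right a5 (by positivity)
      _ = u ^ 7 := by ring

end Pool.Agent.H84.LN
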