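import Pool.Agent.H84.LN.Pe
import Pool.Agent.H84.LN.Itr
import Pool.Agent.H84.LN.Seq

/-!
MP_b8729f, project LN, block C (helper84): the colouring theorem `Top.ColP`.
-/

set_option autoImplicit false
set_option linter.unusedSectionVars false

namespace Pool.Agent.H84.LN

open Finset Classical
open Pool.Agent.H65.GI
open Pool.Agent.H2.LN Pool.Agent.H12.LN

section
variable {V : Type} [Fintype V] {s : ℕ} {N Δ : ℕ} {ι : Type}

theorem Col_M (hP : Pm N Δ) (hs1 : (Δ : ℝ) - Δ / N ^ 30 ≤ s) (hs2 : s ≤ Δ) {b : ℕ} (hb : b = N ^ 3 * s) :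
    Δ / (2 * (N : ℝ) ^ 3) ≤ Δ * s * cA Δ s b ∧ Δ * s * cA Δ s b ≤ Δ / (N : ℝ) ^ 3 ∧
      0 ≤ cA Δ s b ∧ cA Δ s b ≤ 1 / b ∧ s * cA Δ s b ≤ 1 := by
  obtain ⟨hN0, hD0⟩ := Ev_pos hP
  have hN : (2 : ℝ) ^ 40 ≤ N := by exact_mod_cast hP.big
  have hN1 : (1 : ℝ) ≤ N := le_trans (by norm_num) hN
  obtain ⟨h1, h2⟩ := Pe_s hP hs1
  obtain ⟨h3, h4⟩ := Pe_b hP hs1 hb
  have hb0 : (0 : ℝ) < b := by linarith
  have hbr : (b : ℝ) = N ^ 3 * s := by rw [hb]; push_cast; ring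
  have hsD : (s : ℝ) ≤ Δ := by exact_mod_cast hs2
  have hs : 1 ≤ s := by exact_mod_cast h2
  obtain ⟨q, hq⟩ : ∃ q : ℝ, q = (1 - 1 / (b : ℝ)) ^ (s - 1 + Δ) := ⟨_, rfl⟩
  have hbb : 1 / (b : ℝ) ≤ 1 := by
    rw [div_le_one hb0]
    have : (1 : ℝ) ≤ Δ := (Num_log hP).2.2
    linarith
  have hbp : 0 < 1 / (b : ℝ) := by positivity
  have hq1 : q ≤ 1 := by
    rw [hq]
    exact pow_le_one₀ (by linarith) (by linarith)
  have hq2 : 1 / 2 ≤ q := by
    have h5 := one_add_mul_le_pow (show (-2 : ℝ) ≤ -(1 / (b : ℝ)) by linarith) (s - 1 + Δ)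
    have e : (1 : ℝ) + -(1 / b) = 1 - 1 / b := by ring
    rw [e, ← hq] at h5
    refine le_trans ?_ h5
    have h6 : ((s - 1 + Δ : ℕ) : ℝ) ≤ 2 * Δ := by
      have : s - 1 + Δ ≤ 2 * Δ := by omega
      exact_mod_cast this
    have h7 : ((s - 1 + Δ : ℕ) : ℝ) * (1 / b) ≤ 1 / 2 := by
      rw [mul_one_div, div_le_iff₀ hb0]
      linarith
    linarith
  have hc : cA Δ s b = 1 / b * q := by rw [hq]; rfl
  have hsb : (s : ℝ) * (1 / b) = 1 / N ^ 3 := by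
    rw [hbr]
    field_simp
  have hM : Δ * s * cA Δ s b = Δ / N ^ 3 * q := by
    rw [hc]
    calc Δ * s * (1 / (b : ℝ) * q) = Δ * (s * (1 / b)) * q := by ring
      _ = _ := by rw [hsb]; ring
  have hDN : 0 ≤ Δ / (N : ℝ) ^ 3 := by positivity
  refine ⟨?_, ?_, ?_, ?_, ?_⟩
  · rw [hM]
    calc Δ / (2 * (N : ℝ) ^ 3) = Δ / N ^ 3 * (1 / 2) := by field_simp
      _ ≤ _ := mul_le_mul_of_nonneg_left hq2 hDN
  · rw [hM]
    calc Δ / (N : ℝ) ^ 3 * q ≤ Δ / N ^ 3 * 1 := mul_le_mul_of_nonneg_left hq1 hDN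
      _ = _ := mul_one _
  · rw [hc]
    exact mul_nonneg hbp.le (by linarith)
  · rw [hc]
    calc 1 / (b : ℝ) * q ≤ 1 / b * 1 := mul_le_mul_of_nonneg_left hq1 hbp.le
      _ = _ := mul_one _
  · rw [hc, ← mul_assoc, hsb]
    have h8 : 1 / (N : ℝ) ^ 3 ≤ 1 := by
      rw [div_le_one (by positivity)]
      exact one_le_pow₀ hN1
    calc 1 / (N : ℝ) ^ 3 * q ≤ 1 * 1 := mul_le_mul h8 hq1 (by linarith) (by norm_num)
      _ = 1 := one_mul 1

theorem phA (hP : Pm N Δ) (G : SimpleGraph V) (hG : Reg G Δ) (hgap : Gap G N Δ)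
    (hs1 : (Δ : ℝ) - Δ / N ^ 30 ≤ s) (hs2 : s ≤ Δ)
    [Fintype ι] (hι : (Fintype.card ι : ℝ) ≤ Real.exp (N ^ 4)) (f : V → ι → V → ℝ) (h : V → ι → V → V → ℝ)
    (Fr : V → ι → Finset (V × Fin s)) (hF : Top.Fam G N Δ s f h Fr) (lam : ℝ) (hl0 : 0 ≤ lam) (hlam1 : lam ≤ 1) :
    ∃ (l1 n1 : ℕ) (φ w : ℝ) (Y : Finset V) (L : V → Finset (Fin s)) (col : V → Option (Fin s)),
      l1 ≤ Δ ∧ n1 ≤ Δ ∧ (n1 : ℝ) + Δ / (4 * N ^ 7) ≤ l1 ∧ 0 ≤ φ ∧ φ ≤ 2 / Δ ∧ 0 ≤ w ∧ w ≤ 1 ∧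
      St G l1 n1 Y L col ∧ Ts f h Fr (lam + 2 / Δ) φ w (eA Δ) (eA Δ) lam (dl Δ) (1 + 2 * N ^ 6) Y L col := by
  obtain ⟨hN0, hD0⟩ := Ev_pos hP
  have hN : (2 : ℝ) ^ 40 ≤ N := by exact_mod_cast hP.big
  have hN1 : (1 : ℝ) ≤ N := le_trans (by norm_num) hN
  obtain ⟨b, hb⟩ : ∃ b, b = N ^ 3 * s := ⟨_, rfl⟩
  obtain ⟨h1, h2⟩ := Pe_s hP hs1
  obtain ⟨h3, h4⟩ := Pe_b hP hs1 hb
  obtain ⟨hM1, hM2, hc0, hc1, hsc⟩ := Col_M hP hs1 hs2 hb
  have hb0 : (0 : ℝ) < b := by linarith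
  have hbn : 0 < b := by exact_mod_cast hb0
  have : NeZero b := ⟨hbn.ne'⟩
  have hsD : (s : ℝ) ≤ Δ := by exact_mod_cast hs2
  obtain ⟨M, hM⟩ : ∃ M, M = Δ * s * cA Δ s b := ⟨_, rfl⟩
  rw [← hM] at hM1 hM2
  -- numbers
  obtain ⟨u, hu, -, hu1, hD, -, -, hdv, -, -, -⟩ := Num_u hP
  have hk := Num_pow hN hu 30 (by norm_num)
  have hu0 : 0 < u := by linarith
  have hdv1 : 1 ≤ dv Δ := (Ev_dl hP).2.2
  have hdvb : 100 * dv Δ * N ^ 30 ≤ Δ := by
    rw [hdv, hD]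
    calc 100 * u ^ 6 * (N : ℝ) ^ 30 = (100 * N ^ 30) * u ^ 6 := by ring
      _ ≤ u * u ^ 6 := by
          refine mul_le_mul_of_nonneg_right ?_ (by positivity)
          nlinarith [pow_pos hN0 30]
      _ = u ^ 7 := by ring
      _ ≤ u ^ 10 := pow_le_pow_right₀ hu1 (by norm_num)
  obtain ⟨z, hz⟩ : ∃ z : ℝ, z = Δ / (N : ℝ) ^ 7 := ⟨_, rfl⟩
  have hz0 : 0 < z := by rw [hz]; positivity
  have hz3 : (Δ : ℝ) / (3 * N ^ 7) = z / 3 := by rw [hz]; field_simp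
  have hz4 : (Δ : ℝ) / (4 * N ^ 7) = z / 4 := by rw [hz]; field_simp
  have hz30 : (Δ : ℝ) / N ^ 30 ≤ z / 100 := by
    rw [hz, div_div]
    refine div_le_div_of_nonneg_left hD0.le (by positivity) ?_
    calc (N : ℝ) ^ 7 * 100 ≤ N ^ 7 * N := mul_le_mul_of_nonneg_left (le_trans (by norm_num) hN) (by positivity)
      _ = N ^ 8 := by ring
      _ ≤ N ^ 30 := pow_le_pow_right₀ hN1 (by norm_num)
  have hdz : 100 * dv Δ ≤ z := by
    rw [hz, le_div_iff₀ (by positivity)]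
    refine le_trans ?_ hdvb
    refine mul_le_mul_of_nonneg_left ?_ (by positivity)
    exact pow_le_pow_right₀ hN1 (by norm_num)
  have hzM : z ≤ M := by
    refine le_trans ?_ hM1
    rw [hz]
    refine div_le_div_of_nonneg_left hD0.le (by positivity) ?_
    calc 2 * (N : ℝ) ^ 3 ≤ N * N ^ 3 := mul_le_mul_of_nonneg_right (le_trans (by norm_num) hN) (by positivity)
      _ = N ^ 4 := by ring
      _ ≤ N ^ 7 := pow_le_pow_right₀ hN1 (by norm_num)
  have hMΔ : M ≤ Δ / 100 := by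
    refine hM2.trans ?_
    refine div_le_div_of_nonneg_left hD0.le (by norm_num) ?_
    have : (N : ℝ) ≤ N ^ 3 := le_self_pow₀ hN1 (by norm_num)
    exact le_trans (le_trans (by norm_num) hN) this
  obtain ⟨l1, hl1⟩ : ∃ l1 : ℕ, l1 = ⌊(s : ℝ) - M + z / 3 - 2 * dv Δ⌋₊ := ⟨_, rfl⟩
  obtain ⟨n1, hn1⟩ : ∃ n1 : ℕ, n1 = ⌈(Δ : ℝ) - M + 2 * dv Δ⌉₊ := ⟨_, rfl⟩
  have hx0 : 0 ≤ (s : ℝ) - M + z / 3 - 2 * dv Δ := by linarith
  have hl1a : (l1 : ℝ) ≤ s - M + z / 3 - 2 * dv Δ := by rw [hl1]; exact Nat.floor_le hx0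
  have hl1b : (s : ℝ) - M + z / 3 - 2 * dv Δ - 1 ≤ l1 := by rw [hl1]; exact (Nat.sub_one_lt_floor _).le
  have hn1a : (Δ : ℝ) - M + 2 * dv Δ ≤ n1 := by rw [hn1]; exact Nat.le_ceil _
  have hn1b : (n1 : ℝ) ≤ Δ - M + 2 * dv Δ + 1 := by
    rw [hn1]
    refine (Nat.ceil_lt_add_one ?_).le
    linarith
  have hls : l1 ≤ s := by
    have : (l1 : ℝ) ≤ s := by linarith
    exact_mod_cast this
  obtain ⟨ω, e1, e2, e3, e4, e5, e6⟩ := evA (b := b) hP G hG hgap hs1 hs2 hb hι f h Fr hF l1 n1 hls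
    (by rw [hz3, ← hM]; linarith) (by rw [← hM]; linarith) lam hl0 hlam1
  have hsub : ∀ v, LA G l1 ω v ⊆ fre G ω v := fun v => pre_sub _ _ _
  refine ⟨l1, n1, cA Δ s b, l1 / s * (1 - s * cA Δ s b), YA G ω, LA G l1 ω, colA G ω, hls.trans hs2, ?_, ?_,
    hc0, ?_, ?_, ?_, ?_, ?_⟩
  · have : (n1 : ℝ) ≤ Δ := by linarith
    exact_mod_cast this
  · rw [hz4]
    linarith
  · refine hc1.trans ?_
    rw [div_le_div_iff₀ hb0 hD0]
    linarith
  · have : 0 ≤ 1 - s * cA Δ s b := by linarith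
    positivity
  · have h5 : 0 ≤ s * cA Δ s b := mul_nonneg h2.le hc0
    have h6 : (l1 : ℝ) / s ≤ 1 := by
      rw [div_le_one h2]
      exact_mod_cast hls
    have h7 : (0 : ℝ) ≤ l1 / s := by positivity
    nlinarith
  · have hcard : ∀ v, (LA G l1 ω v).card = l1 := by
      intro v
      unfold LA
      rw [pre_card]
      exact min_eq_left (e1 v)
    have hdg : ∀ v, ((nb G v).filter (fun u => u ∈ YA G ω)).card ≤ n1 := by
      intro v
      have h5 := e2 v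
      have h6 := card_filter_add_card_filter_not (s := nb G v) (fun z => ∃ g, gt G ω z g)
      have h7 : (nb G v).filter (fun z => ¬ ∃ g, gt G ω z g) = (nb G v).filter (fun u => u ∈ YA G ω) := by
        refine filter_congr fun z _ => ?_
        unfold YA
        rw [mem_filter]
        exact ⟨fun h => ⟨mem_univ z, fun g hg => h ⟨g, hg⟩⟩, fun h ⟨g, hg⟩ => h.2 g hg⟩
      rw [h7, show (nb G v).card = Δ from hG v] at h6
      have h8 : cnt G ω v + (((nb G v).filter (fun u => u ∈ YA G ω)).card : ℝ) = Δ := by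
        unfold cnt
        exact_mod_cast h6
      have h9 : (((nb G v).filter (fun u => u ∈ YA G ω)).card : ℝ) ≤ n1 := by linarith
      exact_mod_cast h9
    refine ⟨⟨fun v hv => (colA_none G ω v).2 hv, fun v hv hc => hv ((colA_none G ω v).1 hc),
      fun v c _ => notMem_empty c, fun v _ c _ => notMem_empty c, ?_, ?_, fun v _ => (hcard v).le,
      fun v _ => (by rw [hcard v, add_zero]), fun v _ _ => hcard v, ?_⟩, fun v _ => hdg v⟩
    · intro v c hc z hz hcz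
      exact gt_adj G ω v z c ((mem_nb G v z).1 hz) ((colA_some G ω v c).1 hc) ((colA_some G ω z c).1 hcz)
    · intro v _ c hc z hz hcz
      exact (mem_filter.1 (hsub v hc)).2 z hz ((colA_some G ω z c).1 hcz)
    · intro v _ c _
      refine le_trans (card_le_card fun z hz => ?_) (hdg v)
      rw [mem_filter] at hz ⊢
      exact ⟨hz.1, hz.2.1⟩
  · refine ⟨e3, e4, fun v i g g' => (e5 v i g g').trans ?_, fun v i => ?_⟩
    · have h5 : 1 / (b : ℝ) ≤ 2 / Δ := by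
        rw [div_le_div_iff₀ hb0 hD0]
        linarith
      have h6 : 0 ≤ ∑ x, ∑ y, h v i x y := sum_nonneg fun x _ => sum_nonneg fun y _ => (hF.bil v i).nn x y
      have h7 : (lam + 1 / (b : ℝ)) ^ 2 ≤ (lam + 2 / Δ) ^ 2 := by
        refine pow_le_pow_left₀ (by positivity) (by linarith) 2
      have := mul_le_mul_of_nonneg_right h7 h6
      linarith
    · have h5 : (((Fr v i).filter (fun x => colA G ω x.1 = some x.2)).card : ℝ) ≤
          (((Fr v i).filter (fun p => act ω p.1 p.2)).card : ℝ) := by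
        have : ((Fr v i).filter (fun x => colA G ω x.1 = some x.2)).card ≤
          ((Fr v i).filter (fun p => act ω p.1 p.2)).card := by
          refine card_le_card fun p hp => ?_
          rw [mem_filter] at hp ⊢
          exact ⟨hp.1, ((colA_some G ω p.1 p.2).1 hp.2).1⟩
        exact_mod_cast this
      have h6 : 6 * (Δ : ℝ) / b ≤ 1 := by
        rw [div_le_one hb0]
        linarith
      have := e6 v i
      linarith

end

theorem colp : Top.ColP := by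
  intro N Δ hP V _ G hG hgap s hs1 hs2 ι _ hι f h Fr hF
  obtain ⟨hN0, hD0⟩ := Ev_pos hP
  have hN : (2 : ℝ) ^ 40 ≤ N := by exact_mod_cast hP.big
  obtain ⟨-, h2⟩ := Pe_s hP hs1
  have hs : 1 ≤ s := by exact_mod_cast h2
  obtain ⟨T, hT, hseq⟩ := seq hP
  obtain ⟨m1, m2, m3, m4, m5, m6⟩ := nm4 hP T hT
  have hL0 : (0 : ℝ) ≤ T * (8 / (N * Δ)) + 16 * N ^ 13 / Δ := by positivity
  have hL1 : (T : ℝ) * (8 / (N * Δ)) + 16 * N ^ 13 / Δ ≤ 1 := by
    have : (0 : ℝ) ≤ 2 / Δ := by positivity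
    linarith
  obtain ⟨l1, n1, φ, w, Y, L, col, a1, a2, a3, a4, a5, a6, a7, hSt, hTs⟩ := phA hP G hG hgap hs1 hs2 hι f h Fr
    hF _ hL0 hL1
  obtain ⟨l, n, hq⟩ := hseq l1 n1 a1 a2 a3
  obtain ⟨φ', w', L', col', b1, b2, b3, b4, hTs'⟩ := fin' hP G hG hs hs2 hι f h Fr hF hq a4 a5 a6 a7 hSt hTs
  -- the total colouring
  have hget : ∀ v, ∃ c, col' v = some c := fun v => Option.ne_none_iff_exists'.1 (b3 v)
  choose c hc using hget
  have hcc : ∀ v g, c v = g ↔ col' v = some g := by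
    intro v g
    rw [hc v, Option.some.injEq]
  refine ⟨c, φ', ⟨fun u v huv he => ?_, b1, b2, fun v i g => ?_, fun v i g g' => ?_, fun v i => ?_⟩⟩
  · exact b4 u v (c u) huv (hc u) (by rw [he]; exact hc v)
  · have h3 := hTs'.t1 v i g
    have e : Ft (f v i) col' g = ∑ x, if c x = g then f v i x else 0 := by
      unfold Ft
      refine sum_congr rfl fun x _ => ?_
      by_cases h4 : c x = g
      · rw [if_pos h4, if_pos ((hcc x g).1 h4)]
      · rw [if_neg h4, if_neg fun h5 => h4 ((hcc x g).2 h5)]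
    rw [e] at h3
    exact h3
  · have h3 := hTs'.t2 v i g g'
    have e : Ph 0 (h v i) col' g g' = ∑ x, ∑ y, if c x = g ∧ c y = g' then h v i x y else 0 := by
      unfold Ph
      refine sum_congr rfl fun x _ => sum_congr rfl fun y _ => ?_
      rw [add_zero, add_zero]
      by_cases h4 : c x = g
      · have k4 := (hcc x g).1 h4
        by_cases h5 : c y = g'
        · have k5 := (hcc y g').1 h5
          rw [if_pos k4, if_pos k5, if_pos (show c x = g ∧ c y = g' from ⟨h4, h5⟩)]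
          ring
        · have k5 : ¬ col' y = some g' := fun h6 => h5 ((hcc y g').2 h6)
          rw [if_neg k5, if_neg (show ¬ (c x = g ∧ c y = g') from fun h6 => h5 h6.2)]
          ring
      · have k4 : ¬ col' x = some g := fun h6 => h4 ((hcc x g).2 h6)
        rw [if_neg k4, if_neg (show ¬ (c x = g ∧ c y = g') from fun h6 => h4 h6.1)]
        ring
    rw [e] at h3
    have h6 : 0 ≤ ∑ x, ∑ y, h v i x y := sum_nonneg fun x _ => sum_nonneg fun y _ => (hF.bil v i).nn x y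
    have h7 : ((T : ℝ) * (8 / (N * Δ)) + 16 * N ^ 13 / Δ + 2 / Δ) ^ 2 ≤ ((N : ℝ) ^ 14 / Δ) ^ 2 := by
      refine pow_le_pow_left₀ (by positivity) (by linarith) 2
    have := mul_le_mul_of_nonneg_right h7 h6
    linarith
  · have h3 := hTs'.t3 v i
    have e : (Fr v i).filter (fun x => col' x.1 = some x.2) = (Fr v i).filter (fun x => c x.1 = x.2) :=
      filter_congr fun x _ => (hcc x.1 x.2).symm
    rw [e] at h3
    exact_mod_cast h3

end Pool.Agent.H84.LN
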