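import Pool.Agent.H84.LN.Gen

/-!
MP_b8729f, project LN, block C (helper84): basic facts (balls, local lemma with a union bound, monotonicity,
dependence on the coins).
-/

set_option autoImplicit false
set_option linter.unusedSectionVars false

namespace Pool.Agent.H84.LN

open Finset Classical
open Pool.Agent.H65.GI
open Pool.Agent.H2.LN Pool.Agent.H12.LN

/-- Sum of the squares of the influences. -/
theorem infl {V : Type} [Fintype V] (G : SimpleGraph V) (Δ : ℕ) (hG : Reg G Δ) (r : ℕ) (f : V → ℝ) :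
    ∑ u, (∑ x ∈ bl G u r, f x) ^ 2 ≤ ((Δ : ℝ) + 1) ^ (2 * r) * ∑ x, f x ^ 2 := by
  have hD : (0 : ℝ) ≤ ((Δ : ℝ) + 1) ^ r := by positivity
  have h1 : ∀ u, (∑ x ∈ bl G u r, f x) ^ 2 ≤ ((Δ : ℝ) + 1) ^ r * ∑ x ∈ bl G u r, f x ^ 2 := by
    intro u
    have h := sq_sum_le_card_mul_sum_sq (s := bl G u r) (f := f)
    refine h.trans (mul_le_mul_of_nonneg_right ?_ (sum_nonneg fun _ _ => sq_nonneg _))
    have := bl_card G Δ hG u r
    exact_mod_cast this
  have h2 : ∑ u, ∑ x ∈ bl G u r, f x ^ 2 = ∑ x, ((bl G x r).card : ℝ) * f x ^ 2 := by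
    have e : ∀ u, ∑ x ∈ bl G u r, f x ^ 2 = ∑ x, if x ∈ bl G u r then f x ^ 2 else 0 := by
      intro u
      rw [← sum_filter]
      refine sum_congr ?_ fun _ _ => rfl
      ext x
      simp
    simp_rw [e]
    rw [sum_comm]
    refine sum_congr rfl fun x _ => ?_
    rw [← sum_filter, sum_const, nsmul_eq_mul]
    congr 2
    congr 1
    ext u
    simp only [mem_filter, mem_univ, true_and]
    exact ⟨fun h => bl_symm G h, fun h => bl_symm G h⟩
  have h3 : ∑ x, ((bl G x r).card : ℝ) * f x ^ 2 ≤ ((Δ : ℝ) + 1) ^ r * ∑ x, f x ^ 2 := by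
    rw [mul_sum]
    refine sum_le_sum fun x _ => mul_le_mul_of_nonneg_right ?_ (sq_nonneg _)
    have := bl_card G Δ hG x r
    exact_mod_cast this
  calc ∑ u, (∑ x ∈ bl G u r, f x) ^ 2 ≤ ∑ u, ((Δ : ℝ) + 1) ^ r * ∑ x ∈ bl G u r, f x ^ 2 :=
        sum_le_sum fun u _ => h1 u
    _ = ((Δ : ℝ) + 1) ^ r * ∑ x, ((bl G x r).card : ℝ) * f x ^ 2 := by rw [← mul_sum, h2]
    _ ≤ ((Δ : ℝ) + 1) ^ r * (((Δ : ℝ) + 1) ^ r * ∑ x, f x ^ 2) := mul_le_mul_of_nonneg_left h3 hD
    _ = _ := by rw [two_mul, pow_add]; ring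

/-- The local lemma with a union bound at every vertex. -/
theorem uni {V : Type} [Fintype V] (G : SimpleGraph V) (Δ : ℕ) (hG : Reg G Δ) (r : ℕ) {A κ J : Type}
    [Fintype A] [Fintype κ] [Nonempty κ] [Fintype J] [F : Fintype (V × A → κ)] (B : V → J → (V × A → κ) → Prop)
    (hloc : ∀ v j, Loc (B v j) ((bl G v r) ×ˢ (univ : Finset A))) (q : ℝ) (hq0 : 0 ≤ q)
    (hq : ∀ v j, pr (B v j) ≤ q) (h4 : 4 * (Fintype.card J * q) * ((Δ : ℝ) + 1) ^ (2 * r) ≤ 1) :
    ∃ ω : V × A → κ, ∀ v j, ¬ B v j ω := by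
  obtain ⟨ω, hω⟩ := glll G Δ hG r (fun v ω => ∃ j ∈ (univ : Finset J), B v j ω)
    (fun v ω ω' h => by
      have : ∀ j, B v j ω = B v j ω' := fun j => hloc v j ω ω' h
      simp only [this]) (Fintype.card J * q) (by positivity)
    (fun v => by
      have := pr_ex (univ : Finset J) (B v) q (fun j _ => hq v j)
      rwa [card_univ] at this) h4
  exact ⟨ω, fun v j hb => hω v ⟨j, mem_univ j, hb⟩⟩

/-- the weight of the `x` with `P x` -/
noncomputable def Sm {V : Type} [Fintype V] (f : V → ℝ) (P : V → Prop) : ℝ := ∑ x, if P x then f x else 0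

theorem Sm_congr {V : Type} [Fintype V] (f : V → ℝ) (P P' : V → Prop) (S : Finset V)
    (hf : ∀ x, x ∉ S → f x = 0) (h : ∀ x ∈ S, (P x ↔ P' x)) : Sm f P = Sm f P' := by
  unfold Sm
  refine sum_congr rfl fun x _ => ?_
  by_cases hx : x ∈ S
  · by_cases h1 : P x
    · rw [if_pos h1, if_pos ((h x hx).1 h1)]
    · rw [if_neg h1, if_neg fun h2 => h1 ((h x hx).2 h2)]
  · rw [hf x hx]
    split_ifs <;> rfl

theorem Sm_nonneg {V : Type} [Fintype V] (f : V → ℝ) (hf : ∀ x, 0 ≤ f x) (P : V → Prop) : 0 ≤ Sm f P :=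
  sum_nonneg fun x _ => by
    split_ifs
    · exact hf x
    · exact le_rfl

theorem Sm_le {V : Type} [Fintype V] (f : V → ℝ) (hf : ∀ x, 0 ≤ f x) (P : V → Prop) :
    Sm f P ≤ ∑ x, f x :=
  sum_le_sum fun x _ => by
    split_ifs
    · exact le_rfl
    · exact hf x

theorem Ft_Sm {V : Type} [Fintype V] {s : ℕ} (f : V → ℝ) (col : V → Option (Fin s)) (g : Fin s) :
    Ft f col g = Sm f (fun x => col x = some g) := by
  unfold Ft Sm
  refine sum_congr rfl fun x _ => ?_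
  by_cases h : col x = some g
  · rw [if_pos h, if_pos h]
  · rw [if_neg h, if_neg h]

theorem Wt_Sm {V : Type} [Fintype V] {s : ℕ} (f : V → ℝ) (Y : Finset V) (L : V → Finset (Fin s)) (g : Fin s) :
    Wt f Y L g = Sm f (fun x => x ∈ Y ∧ g ∈ L x) := by
  unfold Wt Sm
  refine sum_congr rfl fun x _ => ?_
  by_cases h : x ∈ Y ∧ g ∈ L x
  · rw [if_pos h, if_pos h]
  · rw [if_neg h, if_neg h]

theorem Ph_mono {V : Type} [Fintype V] {s : ℕ} (h : V → V → ℝ) (hh : ∀ x y, 0 ≤ h x y)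
    (col : V → Option (Fin s)) (g g' : Fin s)
    (lam lam' : ℝ) (h0 : 0 ≤ lam) (h1 : lam ≤ lam') : Ph lam h col g g' ≤ Ph lam' h col g g' := by
  refine sum_le_sum fun x _ => sum_le_sum fun y _ => mul_le_mul_of_nonneg_left ?_ (hh x y)
  refine mul_le_mul (by linarith) (by linarith) ?_ ?_
  · split_ifs <;> linarith
  · split_ifs <;> linarith

theorem Ph_nonneg {V : Type} [Fintype V] {s : ℕ} (h : V → V → ℝ) (hh : ∀ x y, 0 ≤ h x y)
    (col : V → Option (Fin s)) (g g' : Fin s) (lam : ℝ) (h0 : 0 ≤ lam) : 0 ≤ Ph lam h col g g' := by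
  refine sum_nonneg fun x _ => sum_nonneg fun y _ => mul_nonneg (hh x y) (mul_nonneg ?_ ?_)
  · split_ifs <;> linarith
  · split_ifs <;> linarith

theorem Ts_mono {V ι : Type} [Fintype V] {s : ℕ} {f : V → ι → V → ℝ} {h : V → ι → V → V → ℝ}
    {Fr : V → ι → Finset (V × Fin s)}
    {lamT φ w e1 e2 lam e' K E1 E2 E' K' : ℝ} {Y : Finset V} {L : V → Finset (Fin s)}
    {col : V → Option (Fin s)} (hT : Ts f h Fr lamT φ w e1 e2 lam e' K Y L col) (h1 : e1 ≤ E1)
    (h2 : e2 ≤ E2) (h3 : e' ≤ E') (h4 : K ≤ K') : Ts f h Fr lamT φ w E1 E2 lam E' K' Y L col :=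
  ⟨fun v i g => (hT.t1 v i g).trans h1, fun v i g => (hT.w1 v i g).trans h2,
    fun v i g g' => (hT.t2 v i g g').trans (by linarith), fun v i => (hT.t3 v i).trans h4⟩

/-! ## Coins -/

section
variable {V : Type} [Fintype V] {s n b : ℕ}

theorem mem_nb (G : SimpleGraph V) (v u : V) : u ∈ nb G v ↔ G.Adj v u := by
  simp [nb]

theorem bl_nb {G : SimpleGraph V} {x u : V} (h : u ∈ nb G x) : u ∈ bl G x 1 :=
  bl_adj G (bl_self G x 0) ((mem_nb G x u).1 h)

theorem bl_zero (G : SimpleGraph V) (x y : V) : y ∈ bl G x 0 ↔ y = x := by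
  show y ∈ ({x} : Finset V) ↔ _
  exact mem_singleton

theorem bl_one (G : SimpleGraph V) (x y : V) : y ∈ bl G x 1 ↔ y = x ∨ y ∈ nb G x := by
  constructor
  · intro h
    rcases (mem_filter.1 h).2 with h1 | ⟨z, hz, h1⟩
    · exact Or.inl ((bl_zero G x y).1 h1)
    · rw [(bl_zero G x z).1 hz] at h1
      exact Or.inr ((mem_nb G x y).2 h1)
  · rintro (h | h)
    · rw [h]; exact bl_self G x 1
    · exact bl_nb h

theorem Agr_sub {S S' : Finset V} {ω ω' : Ix V s n → Cn s b} (h : Agr S ω ω') (hS : S' ⊆ S) :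
    Agr S' ω ω' := fun u hu a => h u (hS hu) a

theorem Agr_act {S : Finset V} {ω ω' : Ix V s n → Cn s b} (h : Agr S ω ω') {u : V} (hu : u ∈ S)
    (c : Fin s) : act ω u c ↔ act ω' u c := by
  unfold act
  rw [h u hu]

theorem Agr_bl {G : SimpleGraph V} {x y : V} {k l m : ℕ} {ω ω' : Ix V s n → Cn s b}
    (h : Agr (bl G x m) ω ω') (hy : y ∈ bl G x k) (hm : k + l ≤ m) : Agr (bl G y l) ω ω' :=
  Agr_sub h ((bl_bl G hy).trans (bl_mono G x hm))

theorem Agr_loc {α : Type} {S : Finset V} {F : (Ix V s n → Cn s b) → α}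
    (h : ∀ ω ω', Agr S ω ω' → F ω = F ω') : Loc F (S ×ˢ (univ : Finset (Option (Fin s × Fin (n + 1))))) := by
  intro ω ω' h1
  exact h ω ω' fun u hu a => h1 (u, a) (mem_product.2 ⟨hu, mem_univ _⟩)

theorem nw_agr (G : SimpleGraph V) (Y : Finset V) (L : V → Finset (Fin s)) (x : V)
    (ω ω' : Ix V s n → Cn s b) (h : Agr (bl G x 1) ω ω') :
    nw (Cg G s) Y L ω x = nw (Cg G s) Y L ω' x ∧ Sv (Cg G s) Y L ω x = Sv (Cg G s) Y L ω' x ∧
      ∀ l', nl (Cg G s) Y L l' ω x = nl (Cg G s) Y L l' ω' x := by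
  have hx : ω (x, none) = ω' (x, none) := h x (bl_self G x 1) none
  have hp : pm ω x = pm ω' x := by unfold pm; rw [hx]
  have hsv : ∀ c, sv (Cg G s) Y L ω c x ↔ sv (Cg G s) Y L ω' c x := by
    intro c
    unfold sv
    refine and_congr ?_ ?_
    · refine forall_congr' fun z => forall_congr' fun hz => ?_
      have := Agr_act h (bl_nb hz) c
      tauto
    · refine forall_congr' fun i => forall_congr' fun _ => ?_
      unfold dum
      rw [h x (bl_self G x 1)]
  have hS : Sv (Cg G s) Y L ω x = Sv (Cg G s) Y L ω' x := by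
    unfold Sv
    exact filter_congr fun c _ => hsv c
  refine ⟨?_, hS, fun l' => ?_⟩
  · unfold nw
    rw [hp, hS]
    congr 1
    exact filter_congr fun c _ => Agr_act h (bl_self G x 1) c
  · unfold nl
    rw [hp, hS]

theorem gt_agr (G : SimpleGraph V) (x : V) (ω ω' : Ix V s n → Cn s b) (h : Agr (bl G x 1) ω ω') :
    (∀ g, gt G ω x g ↔ gt G ω' x g) ∧ colA G ω x = colA G ω' x ∧ (x ∈ YA G ω ↔ x ∈ YA G ω') := by
  have h1 : ∀ g, gt G ω x g ↔ gt G ω' x g := by
    intro g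
    unfold gt
    refine and_congr (Agr_act h (bl_self G x 1) g) (and_congr ?_ ?_)
    · exact forall_congr' fun g' => forall_congr' fun _ => not_congr (Agr_act h (bl_self G x 1) g')
    · exact forall_congr' fun u => forall_congr' fun hu => not_congr (Agr_act h (bl_nb hu) g)
  refine ⟨h1, ?_, ?_⟩
  · have h2 : gt G ω x = gt G ω' x := funext fun g => propext (h1 g)
    unfold colA
    rw [h2]
  · unfold YA
    simp only [mem_filter, mem_univ, true_and, h1]

theorem LA_agr (G : SimpleGraph V) (x : V) (ω ω' : Ix V s n → Cn s b) (h : Agr (bl G x 2) ω ω') (l : ℕ) :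
    fre G ω x = fre G ω' x ∧ LA G l ω x = LA G l ω' x ∧ cnt G ω x = cnt G ω' x ∧
      usd G ω x = usd G ω' x := by
  have h1 : ∀ z ∈ nb G x, ∀ g, gt G ω z g ↔ gt G ω' z g := by
    intro z hz g
    exact (gt_agr G z ω ω' (Agr_bl h (bl_nb hz) (by norm_num))).1 g
  have h2 : fre G ω x = fre G ω' x := by
    unfold fre
    exact filter_congr fun g _ => forall_congr' fun z => forall_congr' fun hz => not_congr (h1 z hz g)
  have hx : ω (x, none) = ω' (x, none) := h x (bl_self G x 2) none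
  refine ⟨h2, ?_, ?_, ?_⟩
  · unfold LA pm
    rw [h2, hx]
  · unfold cnt
    congr 2
    exact filter_congr fun z hz => exists_congr fun g => h1 z hz g
  · unfold usd
    congr 2
    refine filter_congr fun g _ => exists_congr fun z => ?_
    constructor
    · rintro ⟨hz, h3⟩; exact ⟨hz, (h1 z hz g).1 h3⟩
    · rintro ⟨hz, h3⟩; exact ⟨hz, (h1 z hz g).2 h3⟩

end

end Pool.Agent.H84.LN
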