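import Pool.Agent.H2.LN.Top
import Pool.Agent.H65.GI.Lll
import Pool.Agent.H65.GI.Lw
import Pool.Agent.H65.GI.Lst
import Pool.Agent.H65.GI.Det
import Pool.Agent.H65.GI.Nbd
import Pool.Agent.H12.LN.Tools

/-!
MP_b8729f, project LN, block C (helper84): definitions for the colouring theorem `Top.ColP`.
Everywhere `open Finset Classical`, no `DecidableEq` arguments.
-/

set_option autoImplicit false
set_option linter.unusedSectionVars false

namespace Pool.Agent.H84.LN

open Finset Classical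
open Pool.Agent.H65.GI
open Pool.Agent.H2.LN

noncomputable section

/-- the neighbours -/
def nb {V : Type} [Fintype V] (G : SimpleGraph V) (v : V) : Finset V := univ.filter (fun u => G.Adj v u)

/-- the conflict sets: the neighbours, for all colours -/
def Cg {V : Type} [Fintype V] (G : SimpleGraph V) (s : ℕ) : Fin s → V → Finset V := fun _ v => nb G v

/-- A state: exact lists for the uncoloured vertices; at most `n` uncoloured neighbours. -/
structure St {V : Type} [Fintype V] (G : SimpleGraph V) {s : ℕ} (l n : ℕ) (Y : Finset V)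
    (L : V → Finset (Fin s)) (f : V → Option (Fin s)) : Prop where
  ok : Ok (Cg G s) (fun _ => ∅) ∅ 0 l n Y L f
  dg : ∀ v ∈ Y, ((nb G v).filter (fun u => u ∈ Y)).card ≤ n

section
variable {V : Type} [Fintype V] {s : ℕ}

/-- weight of the vertices of colour `g` -/
def Ft (f : V → ℝ) (col : V → Option (Fin s)) (g : Fin s) : ℝ := ∑ x, if col x = some g then f x else 0

/-- weight of the uncoloured vertices with `g` in the list -/
def Wt (f : V → ℝ) (Y : Finset V) (L : V → Finset (Fin s)) (g : Fin s) : ℝ :=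
  ∑ x, if x ∈ Y ∧ g ∈ L x then f x else 0

/-- potential of a bilinear test; `lam`: the budget of the later rounds -/
def Ph (lam : ℝ) (h : V → V → ℝ) (col : V → Option (Fin s)) (g g' : Fin s) : ℝ :=
  ∑ x, ∑ y, h x y * (((if col x = some g then (1 : ℝ) else 0) + lam) *
    ((if col y = some g' then (1 : ℝ) else 0) + lam))

/-- the bounds for the tests -/
structure Ts {ι : Type} (f : V → ι → V → ℝ) (h : V → ι → V → V → ℝ) (Fr : V → ι → Finset (V × Fin s))
    (lamT φ w e1 e2 lam e' K : ℝ) (Y : Finset V) (L : V → Finset (Fin s)) (col : V → Option (Fin s)) :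
    Prop where
  t1 : ∀ v i g, |Ft (f v i) col g - φ * ∑ x, f v i x| ≤ e1
  w1 : ∀ v i g, |Wt (f v i) Y L g - w * ∑ x, f v i x| ≤ e2
  t2 : ∀ v i g g', Ph lam (h v i) col g g' ≤ lamT ^ 2 * (∑ x, ∑ y, h v i x y) + e'
  t3 : ∀ v i, (((Fr v i).filter (fun x => col x.1 = some x.2)).card : ℝ) ≤ K

end

/-! ## Coins -/

section
variable {V : Type} [Fintype V] {s n b : ℕ}

/-- `ω` and `ω'` agree on the coins of the vertices in `S` -/
def Agr (S : Finset V) (ω ω' : Ix V s n → Cn s b) : Prop := ∀ u ∈ S, ∀ a, ω (u, a) = ω' (u, a)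

/-- more than `K` neighbours of `v` activate `g` -/
def bad (G : SimpleGraph V) (K : ℕ) (ω : Ix V s n → Cn s b) (v : V) (g : Fin s) : Prop :=
  K < ((nb G v).filter (fun z => act ω z g)).card

/-- the number of neighbours of `v` that stay uncoloured -/
def unc (G : SimpleGraph V) (Y : Finset V) (L : V → Finset (Fin s)) (ω : Ix V s n → Cn s b) (v : V) : ℝ :=
  (((nb G v).filter (fun z => z ∈ Y ∧ nw (Cg G s) Y L ω z = none)).card : ℝ)

/-- truncated: activations of bad colours do not count -/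
def unc' (G : SimpleGraph V) (K : ℕ) (Y : Finset V) (L : V → Finset (Fin s)) (ω : Ix V s n → Cn s b)
    (v : V) : ℝ :=
  (((nb G v).filter (fun z => z ∈ Y ∧
    ¬ ∃ c ∈ L z, act ω z c ∧ sv (Cg G s) Y L ω c z ∧ ¬ bad G K ω v c)).card : ℝ)

/-- the colour of a coin -/
def bkc (i : Ix V s n) : Option (Fin s) := i.2.map Prod.fst

/-! ## Phase A (no dummies: `n = 0`) -/

/-- `z` gets the colour `g` in phase A -/
def gt (G : SimpleGraph V) (ω : Ix V s n → Cn s b) (z : V) (g : Fin s) : Prop :=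
  act ω z g ∧ (∀ g', g' ≠ g → ¬ act ω z g') ∧ ∀ u ∈ nb G z, ¬ act ω u g

/-- the same with truncated activations (seen from `v`) of `z` itself -/
def gt' (G : SimpleGraph V) (K : ℕ) (v : V) (ω : Ix V s n → Cn s b) (z : V) (g : Fin s) : Prop :=
  (act ω z g ∧ ¬ bad G K ω v g) ∧ (∀ g', g' ≠ g → ¬ (act ω z g' ∧ ¬ bad G K ω v g')) ∧
    ∀ u ∈ nb G z, ¬ act ω u g

/-- the partial colouring of phase A -/
def colA (G : SimpleGraph V) (ω : Ix V s n → Cn s b) (z : V) : Option (Fin s) :=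
  if h : ∃ g, gt G ω z g then some h.choose else none

/-- the uncoloured vertices after phase A -/
def YA (G : SimpleGraph V) (ω : Ix V s n → Cn s b) : Finset V :=
  univ.filter (fun z => ∀ g, ¬ gt G ω z g)

/-- the colours used by no neighbour -/
def fre (G : SimpleGraph V) (ω : Ix V s n → Cn s b) (v : V) : Finset (Fin s) :=
  univ.filter (fun g => ∀ z ∈ nb G v, ¬ gt G ω z g)

/-- the lists after phase A -/
def LA (G : SimpleGraph V) (l : ℕ) (ω : Ix V s n → Cn s b) (v : V) : Finset (Fin s) :=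
  pre (pm ω v) l (fre G ω v)

/-- number of coloured neighbours, number of their colours -/
def cnt (G : SimpleGraph V) (ω : Ix V s n → Cn s b) (v : V) : ℝ :=
  (((nb G v).filter (fun z => ∃ g, gt G ω z g)).card : ℝ)

def usd (G : SimpleGraph V) (ω : Ix V s n → Cn s b) (v : V) : ℝ :=
  ((univ.filter (fun g : Fin s => ∃ z ∈ nb G v, gt G ω z g)).card : ℝ)

def cnt' (G : SimpleGraph V) (K : ℕ) (ω : Ix V s n → Cn s b) (v : V) : ℝ :=
  (((nb G v).filter (fun z => ∃ g, gt' G K v ω z g)).card : ℝ)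

def usd' (G : SimpleGraph V) (K : ℕ) (ω : Ix V s n → Cn s b) (v : V) : ℝ :=
  ((univ.filter (fun g : Fin s => ∃ z ∈ nb G v, gt' G K v ω z g)).card : ℝ)

end

/-- the probability that a vertex gets a given colour in phase A -/
def cA (Δ s b : ℕ) : ℝ := 1 / (b : ℝ) * (1 - 1 / (b : ℝ)) ^ (s - 1 + Δ)

/-- error per round -/
def dl (Δ : ℕ) : ℝ := (Δ : ℝ) ^ (-(49 : ℝ) / 10)

/-- error of phase A -/
def eA (Δ : ℕ) : ℝ := (Δ : ℝ) ^ (-(39 : ℝ) / 10)

/-- deviation of counts -/
def dv (Δ : ℕ) : ℝ := (Δ : ℝ) ^ ((3 : ℝ) / 5)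

/-- the sequences of phase B -/
structure Sq (N Δ l1 n1 T : ℕ) (l n : ℕ → ℕ) : Prop where
  l0 : l 0 = l1
  n0 : n 0 = n1
  ls : ∀ t < T, (l (t + 1) : ℝ) ≤ kap (N ^ 8 * l t) (n t) * l t - Real.sqrt (8 * l t * N ^ 6)
  ns : ∀ t < T, (n t : ℝ) * (1 - kap (N ^ 8 * l t) (n t) / (N ^ 8 * l t : ℕ)) ^ l t +
    2 * dv Δ ≤ n (t + 1)
  lo : ∀ t ≤ T, (Δ : ℝ) / (8 * N ^ 7) ≤ l t
  hi : ∀ t ≤ T, l t ≤ Δ ∧ n t ≤ Δ
  la : (n T : ℝ) ≤ (Δ : ℝ) ^ ((7 : ℝ) / 10)
  Tb : T ≤ 5 * N ^ 9

end

end Pool.Agent.H84.LN
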