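import Pool.Agent.H84.LN.CDefs

/-!
MP_b8729f, project LN, block C (helper84): numerics.
-/

set_option autoImplicit false
set_option linter.unusedSectionVars false

namespace Pool.Agent.H84.LN

open Finset Classical
open Pool.Agent.H65.GI
open Pool.Agent.H2.LN Pool.Agent.H12.LN

/-- everything in terms of `u = Δ ^ (1 / 10)` -/
theorem Num_u {N Δ : ℕ} (hP : Pm N Δ) : ∃ u : ℝ, (N : ℝ) ^ 4000 ≤ u ∧ (2 : ℝ) ^ 40 ≤ N ∧ 1 ≤ u ∧
    (Δ : ℝ) = u ^ 10 ∧ dl Δ = 1 / u ^ 49 ∧ eA Δ = 1 / u ^ 39 ∧ dv Δ = u ^ 6 ∧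
    (Δ : ℝ) ^ (-(19 : ℝ) / 5) = 1 / u ^ 38 ∧ (Δ : ℝ) ^ (-(9 : ℝ) / 2) = 1 / u ^ 45 ∧
    (Δ : ℝ) ^ ((7 : ℝ) / 10) = u ^ 7 := by
  have hN : (2 : ℝ) ^ 40 ≤ N := by exact_mod_cast hP.big
  have hN1 : (1 : ℝ) ≤ N := le_trans (by norm_num) hN
  have hD : (N : ℝ) ^ 40000 ≤ Δ := by exact_mod_cast hP.pow
  have hD1 : (1 : ℝ) ≤ Δ := (one_le_pow₀ hN1).trans hD
  have hD0 : (0 : ℝ) ≤ Δ := by linarith
  have hDp : (0 : ℝ) < Δ := by linarith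
  obtain ⟨u, hu⟩ : ∃ u : ℝ, u = (Δ : ℝ) ^ ((1 : ℝ) / 10) := ⟨_, rfl⟩
  have hpow : ∀ k : ℕ, (Δ : ℝ) ^ ((k : ℝ) / 10) = u ^ k := by
    intro k
    rw [hu, ← Real.rpow_natCast, ← Real.rpow_mul hD0]
    congr 1
    ring
  have hneg : ∀ k : ℕ, (Δ : ℝ) ^ (-((k : ℝ) / 10)) = 1 / u ^ k := by
    intro k
    rw [Real.rpow_neg hD0, hpow, one_div]
  have h10 : (Δ : ℝ) = u ^ 10 := by
    have := hpow 10
    rw [← this]
    norm_num
  have hu0 : 0 ≤ u := by rw [hu]; exact Real.rpow_nonneg hD0 _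
  have hNu : (N : ℝ) ^ 4000 ≤ u := by
    refine le_of_pow_le_pow_left₀ (n := 10) (by norm_num) hu0 ?_
    rw [← pow_mul, ← h10]
    exact hD
  refine ⟨u, hNu, hN, (one_le_pow₀ hN1).trans hNu, h10, ?_, ?_, ?_, ?_, ?_, ?_⟩
  · rw [← hneg 49]
    unfold dl
    congr 1
    norm_num
  · rw [← hneg 39]
    unfold eA
    congr 1
    norm_num
  · rw [← hpow 6]
    unfold dv
    congr 1
    norm_num
  · rw [← hneg 38]
    congr 1
    norm_num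
  · rw [← hneg 45]
    congr 1
    norm_num
  · rw [← hpow 7]
    congr 1

theorem Num_pow {M u : ℝ} (hN : (2 : ℝ) ^ 40 ≤ M) (hu : M ^ 4000 ≤ u) (k : ℕ) (hk : k ≤ 3999) :
    2 ^ 40 * M ^ k ≤ u := by
  have h1 : (1 : ℝ) ≤ M := le_trans (by norm_num) hN
  calc 2 ^ 40 * M ^ k ≤ M * M ^ k := mul_le_mul_of_nonneg_right hN (by positivity)
    _ = M ^ (k + 1) := by ring
    _ ≤ M ^ 4000 := pow_le_pow_right₀ h1 (by omega)
    _ ≤ u := hu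

theorem nm1 {N Δ : ℕ} (hP : Pm N Δ) :
    (N : ℝ) ^ 6 ≤ dl Δ ^ 2 / (2 * (((Δ : ℝ) + 1) ^ 2 * (16 * N ^ 3 / Δ ^ 12))) ∧
    (N : ℝ) ^ 6 ≤ dl Δ ^ 2 / (2 * (64 * ((Δ : ℝ) + 1) ^ 2 * (4096 * N ^ 3 / Δ ^ 12))) ∧
    (N : ℝ) ^ 6 ≤ (eA Δ / 2) ^ 2 / (2 * (((Δ : ℝ) + 1) ^ 4 * (16 * N ^ 3 / Δ ^ 12))) ∧
    (N : ℝ) ^ 6 ≤ (dv Δ / 2) ^ 2 / (32 * Δ * ((N ^ 5 : ℕ) : ℝ) ^ 2) := by
  obtain ⟨u, hu, hN, hu1, hD, h1, h2, h3, -, -, -⟩ := Num_u hP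
  rw [h1, h2, h3, hD]
  push_cast
  generalize (N : ℝ) = M at hu hN ⊢
  have hM : (0 : ℝ) < M := lt_of_lt_of_le (by norm_num) hN
  have hM1 : (1 : ℝ) ≤ M := le_trans (by norm_num) hN
  have hu0 : 0 < u := by linarith
  have hk := Num_pow hN hu 16 (by norm_num)
  have h9 : M ^ 9 ≤ M ^ 16 := pow_le_pow_right₀ hM1 (by norm_num)
  have hu10 : u ^ 10 + 1 ≤ 2 * u ^ 10 := by
    have : 1 ≤ u ^ 10 := one_le_pow₀ hu1
    linarith
  have hu10' : 0 ≤ u ^ 10 + 1 := by positivity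
  have hq2 : (u ^ 10 + 1) ^ 2 ≤ 4 * u ^ 20 := by
    calc (u ^ 10 + 1) ^ 2 ≤ (2 * u ^ 10) ^ 2 := pow_le_pow_left₀ hu10' hu10 2
      _ = 4 * u ^ 20 := by ring
  have hq4 : (u ^ 10 + 1) ^ 4 ≤ 16 * u ^ 40 := by
    calc (u ^ 10 + 1) ^ 4 ≤ (2 * u ^ 10) ^ 4 := pow_le_pow_left₀ hu10' hu10 4
      _ = 16 * u ^ 40 := by ring
  have huu : u ≤ u ^ 2 := by nlinarith
  have hb : 2 ^ 40 * M ^ 9 ≤ u ^ 2 := by nlinarith
  refine ⟨?_, ?_, ?_, ?_⟩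
  · rw [le_div_iff₀ (by positivity)]
    calc M ^ 6 * (2 * ((u ^ 10 + 1) ^ 2 * (16 * M ^ 3 / (u ^ 10) ^ 12)))
        = (u ^ 10 + 1) ^ 2 * (32 * M ^ 9 / u ^ 120) := by ring
      _ ≤ 4 * u ^ 20 * (32 * M ^ 9 / u ^ 120) := mul_le_mul_of_nonneg_right hq2 (by positivity)
      _ = (128 * M ^ 9) * (1 / u ^ 100) := by field_simp; ring
      _ ≤ u ^ 2 * (1 / u ^ 100) := mul_le_mul_of_nonneg_right (by nlinarith [pow_pos hM 9]) (by positivity)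
      _ = (1 / u ^ 49) ^ 2 := by field_simp
  · rw [le_div_iff₀ (by positivity)]
    calc M ^ 6 * (2 * (64 * (u ^ 10 + 1) ^ 2 * (4096 * M ^ 3 / (u ^ 10) ^ 12)))
        = (u ^ 10 + 1) ^ 2 * (524288 * M ^ 9 / u ^ 120) := by ring
      _ ≤ 4 * u ^ 20 * (524288 * M ^ 9 / u ^ 120) := mul_le_mul_of_nonneg_right hq2 (by positivity)
      _ = (2097152 * M ^ 9) * (1 / u ^ 100) := by field_simp; ring
      _ ≤ u ^ 2 * (1 / u ^ 100) := mul_le_mul_of_nonneg_right (by nlinarith [pow_pos hM 9]) (by positivity)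
      _ = (1 / u ^ 49) ^ 2 := by field_simp
  · rw [le_div_iff₀ (by positivity)]
    calc M ^ 6 * (2 * ((u ^ 10 + 1) ^ 4 * (16 * M ^ 3 / (u ^ 10) ^ 12)))
        = (u ^ 10 + 1) ^ 4 * (32 * M ^ 9 / u ^ 120) := by ring
      _ ≤ 16 * u ^ 40 * (32 * M ^ 9 / u ^ 120) := mul_le_mul_of_nonneg_right hq4 (by positivity)
      _ = (2048 * M ^ 9) * (1 / (4 * u ^ 80)) := by field_simp; ring
      _ ≤ u ^ 2 * (1 / (4 * u ^ 80)) := mul_le_mul_of_nonneg_right (by nlinarith [pow_pos hM 9]) (by positivity)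
      _ = (1 / u ^ 39 / 2) ^ 2 := by field_simp; ring
  · rw [le_div_iff₀ (by positivity)]
    calc M ^ 6 * (32 * u ^ 10 * (M ^ 5) ^ 2) = (32 * M ^ 16) * u ^ 10 := by ring
      _ ≤ (u ^ 2 / 4) * u ^ 10 := mul_le_mul_of_nonneg_right (by nlinarith [pow_pos hM 16]) (by positivity)
      _ = (u ^ 6 / 2) ^ 2 := by ring

/-- `log Δ ≤ N`, `Δ ≤ exp N` -/
theorem Num_log {N Δ : ℕ} (hP : Pm N Δ) : Real.log Δ ≤ N ∧ (Δ : ℝ) ≤ Real.exp N ∧ (1 : ℝ) ≤ Δ := by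
  have hN : (2 : ℝ) ^ 40 ≤ N := by exact_mod_cast hP.big
  have hN1 : (1 : ℝ) ≤ N := le_trans (by norm_num) hN
  have hD : (N : ℝ) ^ 40000 ≤ Δ := by exact_mod_cast hP.pow
  have hD1 : (1 : ℝ) ≤ Δ := (one_le_pow₀ hN1).trans hD
  have hl : Real.log Δ ≤ N := by
    by_cases h : Real.log Δ ≤ 1
    · linarith
    · push_neg at h
      refine le_trans ?_ hP.log
      exact le_self_pow₀ h.le (by norm_num)
  refine ⟨hl, ?_, hD1⟩
  rw [← Real.exp_log (show (0 : ℝ) < Δ by linarith)]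
  exact Real.exp_le_exp.2 hl

theorem Num_half (k : ℕ) : (1 / 2 : ℝ) ^ k ≤ Real.exp (-(0.69 * k)) := by
  have h : (1 / 2 : ℝ) = Real.exp (-Real.log 2) := by
    rw [Real.exp_neg, Real.exp_log (by norm_num), one_div]
  rw [h, ← Real.exp_nat_mul]
  refine Real.exp_le_exp.2 ?_
  have := Real.log_two_gt_d9
  have hk : (0 : ℝ) ≤ k := Nat.cast_nonneg k
  nlinarith

theorem nm2 {N Δ : ℕ} (hP : Pm N Δ) : (Δ : ℝ) * (Δ * (1 / 2 : ℝ) ^ (N ^ 5)) ≤ 1 / 4 ∧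
    (Δ : ℝ) * (1 / 2 : ℝ) ^ (N ^ 5) ≤ eA Δ / 4 ∧
    (Δ : ℝ) * (1 / 2 : ℝ) ^ (N ^ 5) ≤ Real.exp (-((N : ℝ) ^ 5 / 2)) ∧
    Real.exp (-(N : ℝ) ^ 6) ≤ eA Δ / 4 := by
  obtain ⟨u, hu, hN, hu1, hD, h1, h2, h3, -, -, -⟩ := Num_u hP
  obtain ⟨hl, he, hD1⟩ := Num_log hP
  have hh := Num_half (N ^ 5)
  push_cast at hh
  obtain ⟨M, hM⟩ : ∃ M : ℝ, M = N := ⟨_, rfl⟩
  rw [← hM] at hh hl he hN ⊢
  have hM1 : (1 : ℝ) ≤ M := le_trans (by norm_num) hN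
  have hM0 : (0 : ℝ) < M := by linarith
  have h4 : (2 : ℝ) ^ 40 * M ≤ M ^ 5 := by
    calc (2 : ℝ) ^ 40 * M ≤ M * M := mul_le_mul_of_nonneg_right hN hM0.le
      _ = M ^ 2 := by ring
      _ ≤ M ^ 5 := pow_le_pow_right₀ hM1 (by norm_num)
  have h46 : M ^ 5 ≤ M ^ 6 := pow_le_pow_right₀ hM1 (by norm_num)
  have hE : eA Δ / 4 ≥ Real.exp (-(4 * M + 2)) := by
    rw [h2, ge_iff_le, Real.exp_neg, div_div, one_div]
    refine inv_anti₀ (by positivity) ?_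
    rw [Real.exp_add]
    have e4 : (4 : ℝ) ≤ Real.exp 2 := by
      have e1 := Real.add_one_le_exp (1 : ℝ)
      have : Real.exp 2 = Real.exp 1 * Real.exp 1 := by rw [← Real.exp_add]; norm_num
      rw [this]
      nlinarith
    have e5 : u ^ 39 ≤ Real.exp (4 * M) := by
      calc u ^ 39 ≤ u ^ 40 := pow_le_pow_right₀ hu1 (by norm_num)
        _ = (u ^ 10) ^ 4 := by ring
        _ = (Δ : ℝ) ^ 4 := by rw [hD]
        _ ≤ (Real.exp M) ^ 4 := pow_le_pow_left₀ (by linarith) he 4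
        _ = Real.exp (4 * M) := by rw [← Real.exp_nat_mul]; norm_num
    exact mul_le_mul e5 e4 (by norm_num) (Real.exp_pos _).le
  refine ⟨?_, ?_, ?_, ?_⟩
  · calc (Δ : ℝ) * (Δ * (1 / 2 : ℝ) ^ (N ^ 5)) ≤ Real.exp M * (Real.exp M * Real.exp (-(0.69 * M ^ 5))) := by
          refine mul_le_mul he ?_ (by positivity) (Real.exp_pos _).le
          exact mul_le_mul he hh (by positivity) (Real.exp_pos _).le
      _ = Real.exp (M + (M + -(0.69 * M ^ 5))) := by rw [Real.exp_add, Real.exp_add]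
      _ ≤ Real.exp (-2) := Real.exp_le_exp.2 (by nlinarith)
      _ ≤ 1 / 4 := by
          rw [Real.exp_neg, ← one_div]
          refine one_div_le_one_div_of_le (by norm_num) ?_
          have e1 := Real.add_one_le_exp (1 : ℝ)
          have : Real.exp 2 = Real.exp 1 * Real.exp 1 := by rw [← Real.exp_add]; norm_num
          rw [this]
          nlinarith
  · calc (Δ : ℝ) * (1 / 2 : ℝ) ^ (N ^ 5) ≤ Real.exp M * Real.exp (-(0.69 * M ^ 5)) :=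
          mul_le_mul he hh (by positivity) (Real.exp_pos _).le
      _ = Real.exp (M + -(0.69 * M ^ 5)) := by rw [Real.exp_add]
      _ ≤ Real.exp (-(4 * M + 2)) := Real.exp_le_exp.2 (by nlinarith)
      _ ≤ _ := hE
  · calc (Δ : ℝ) * (1 / 2 : ℝ) ^ (N ^ 5) ≤ Real.exp M * Real.exp (-(0.69 * M ^ 5)) :=
          mul_le_mul he hh (by positivity) (Real.exp_pos _).le
      _ = Real.exp (M + -(0.69 * M ^ 5)) := by rw [Real.exp_add]
      _ ≤ _ := Real.exp_le_exp.2 (by nlinarith)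
  · exact le_trans (Real.exp_le_exp.2 (by nlinarith)) hE

theorem nm3 {N Δ : ℕ} (hP : Pm N Δ) (M : ℝ) (hM : M ≤ 10 * Real.exp (N ^ 4) * Δ ^ 2) :
    4 * (M * (4 * Real.exp (-((N : ℝ) ^ 5 / 2)))) * ((Δ : ℝ) + 1) ^ (2 * (60 * N ^ 3 + 3)) ≤ 1 := by
  obtain ⟨hl, he, hD1⟩ := Num_log hP
  have hN : (2 : ℝ) ^ 40 ≤ N := by exact_mod_cast hP.big
  have hN1 : (1 : ℝ) ≤ N := le_trans (by norm_num) hN
  have h1 : ((Δ : ℝ) + 1) ^ (2 * (60 * N ^ 3 + 3)) ≤ Real.exp ((120 * (N : ℝ) ^ 3 + 6) * (N + 1)) := by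
    have h2 : (Δ : ℝ) + 1 ≤ Real.exp (N + 1) := by
      rw [Real.exp_add]
      have := Real.add_one_le_exp (1 : ℝ)
      nlinarith
    calc ((Δ : ℝ) + 1) ^ (2 * (60 * N ^ 3 + 3)) ≤ (Real.exp (N + 1)) ^ (2 * (60 * N ^ 3 + 3)) :=
          pow_le_pow_left₀ (by positivity) h2 _
      _ = Real.exp (((2 * (60 * N ^ 3 + 3) : ℕ) : ℝ) * (N + 1)) := by rw [Real.exp_nat_mul]
      _ = _ := by push_cast; ring_nf
  have h3 : (Δ : ℝ) ^ 2 ≤ Real.exp (2 * N) := by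
    calc (Δ : ℝ) ^ 2 ≤ (Real.exp N) ^ 2 := pow_le_pow_left₀ (by positivity) he 2
      _ = _ := by rw [← Real.exp_nat_mul]; norm_num
  have h160 : (160 : ℝ) ≤ Real.exp 160 := by
    have := Real.add_one_le_exp (160 : ℝ)
    linarith
  have hM2 : M ≤ 10 * Real.exp (N ^ 4) * Real.exp (2 * N) :=
    hM.trans (mul_le_mul_of_nonneg_left h3 (by positivity))
  have h5 : (4 * (M * (4 * Real.exp (-((N : ℝ) ^ 5 / 2))))) ≤
      160 * Real.exp (N ^ 4) * Real.exp (2 * N) * Real.exp (-((N : ℝ) ^ 5 / 2)) := by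
    have := mul_le_mul_of_nonneg_right hM2 (Real.exp_pos (-((N : ℝ) ^ 5 / 2))).le
    linarith
  calc 4 * (M * (4 * Real.exp (-((N : ℝ) ^ 5 / 2)))) * ((Δ : ℝ) + 1) ^ (2 * (60 * N ^ 3 + 3))
      ≤ (160 * Real.exp (N ^ 4) * Real.exp (2 * N) * Real.exp (-((N : ℝ) ^ 5 / 2))) *
        Real.exp ((120 * (N : ℝ) ^ 3 + 6) * (N + 1)) :=
        mul_le_mul h5 h1 (by positivity) (by positivity)
    _ ≤ (Real.exp 160 * Real.exp (N ^ 4) * Real.exp (2 * N) * Real.exp (-((N : ℝ) ^ 5 / 2))) *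
        Real.exp ((120 * (N : ℝ) ^ 3 + 6) * (N + 1)) := by
        refine mul_le_mul_of_nonneg_right ?_ (Real.exp_pos _).le
        refine mul_le_mul_of_nonneg_right ?_ (Real.exp_pos _).le
        refine mul_le_mul_of_nonneg_right ?_ (Real.exp_pos _).le
        exact mul_le_mul_of_nonneg_right h160 (Real.exp_pos _).le
    _ = Real.exp (160 + N ^ 4 + 2 * N + -((N : ℝ) ^ 5 / 2) + (120 * (N : ℝ) ^ 3 + 6) * (N + 1)) := by
        rw [Real.exp_add, Real.exp_add, Real.exp_add, Real.exp_add]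
    _ ≤ Real.exp 0 := by
        refine Real.exp_le_exp.2 ?_
        generalize (N : ℝ) = x at hN hN1
        have a1 : x ^ 3 ≤ x ^ 4 := pow_le_pow_right₀ hN1 (by norm_num)
        have a2 : x ≤ x ^ 4 := le_self_pow₀ hN1 (by norm_num)
        have a3 : (1 : ℝ) ≤ x ^ 4 := one_le_pow₀ hN1
        have a4 : 2 ^ 40 * x ^ 4 ≤ x ^ 5 := by
          calc 2 ^ 40 * x ^ 4 ≤ x * x ^ 4 := mul_le_mul_of_nonneg_right hN (by positivity)
            _ = x ^ 5 := by ring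
        nlinarith
    _ = 1 := Real.exp_zero

theorem nm4 {N Δ : ℕ} (hP : Pm N Δ) (T : ℕ) (hT : T ≤ 5 * N ^ 9) :
    eA Δ + 2 * T * dl Δ + (eA Δ + T * dl Δ) * (16 * N ^ 13 / Δ) + dl Δ ≤ (Δ : ℝ) ^ (-(19 : ℝ) / 5) ∧
    (T + 1) * dl Δ + dl Δ ≤ (Δ : ℝ) ^ (-(9 : ℝ) / 2) ∧
    (1 + 2 * N ^ 6) * (T + 1) + (96 * N ^ 13 + 2 * N ^ 6) ≤ (N : ℝ) ^ 16 ∧
    (2 : ℝ) / Δ + (T * (8 / (N * Δ)) + 16 * N ^ 13 / Δ) ≤ N ^ 14 / Δ ∧ (N : ℝ) ^ 14 / Δ ≤ 1 ∧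
    (eA Δ + T * dl Δ) * (8 / (N * Δ)) ≤ dl Δ := by
  obtain ⟨u, hu, hN, hu1, hD, h1, h2, -, h4, h5, -⟩ := Num_u hP
  have hT' : (T : ℝ) ≤ 5 * (N : ℝ) ^ 9 := by exact_mod_cast hT
  have hT0 : (0 : ℝ) ≤ T := Nat.cast_nonneg T
  rw [h4, h5, h1, h2, hD]
  generalize (N : ℝ) = M at hu hN hT' ⊢
  generalize (T : ℝ) = t at hT' hT0 ⊢
  have hM : (0 : ℝ) < M := lt_of_lt_of_le (by norm_num) hN
  have hM1 : (1 : ℝ) ≤ M := le_trans (by norm_num) hN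
  have hu0 : 0 < u := by linarith
  have hk := Num_pow hN hu 24 (by norm_num)
  have m1 : ∀ k ≤ 24, M ^ k ≤ M ^ 24 := fun k hk => pow_le_pow_right₀ hM1 hk
  have huk : ∀ k, 1 ≤ k → u ≤ u ^ k := fun k hk => le_self_pow₀ hu1 (by omega)
  have p9 := m1 9 (by norm_num)
  have p13 := m1 13 (by norm_num)
  have p0 := m1 0 (by norm_num)
  rw [pow_zero] at p0
  have hu10 := huk 10 (by norm_num)
  have htM : t * M ^ 13 ≤ 5 * M ^ 24 := by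
    calc t * M ^ 13 ≤ 5 * M ^ 9 * M ^ 13 := mul_le_mul_of_nonneg_right hT' (by positivity)
      _ = 5 * M ^ 22 := by ring
      _ ≤ _ := by nlinarith [m1 22 (by norm_num)]
  refine ⟨?_, ?_, ?_, ?_, ?_, ?_⟩
  · have e : 1 / u ^ 39 + 2 * t * (1 / u ^ 49) + (1 / u ^ 39 + t * (1 / u ^ 49)) * (16 * M ^ 13 / u ^ 10) +
        1 / u ^ 49 = (u ^ 20 + 2 * t * u ^ 10 + 16 * M ^ 13 * u ^ 10 + 16 * (t * M ^ 13) + u ^ 10) *
        (1 / u ^ 59) := by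
      field_simp
      ring
    have e2 : 1 / u ^ 38 = u ^ 21 * (1 / u ^ 59) := by field_simp
    rw [e, e2]
    refine mul_le_mul_of_nonneg_right ?_ (by positivity)
    have k1 : (2 * t + 16 * M ^ 13 + 1) * u ^ 10 ≤ (u / 2) * u ^ 10 := by
      refine mul_le_mul_of_nonneg_right ?_ (by positivity)
      nlinarith
    have k2 : (u / 2) * u ^ 10 ≤ u ^ 20 := by
      calc (u / 2) * u ^ 10 ≤ u * u ^ 10 := mul_le_mul_of_nonneg_right (by linarith) (by positivity)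
        _ = u ^ 11 := by ring
        _ ≤ u ^ 20 := pow_le_pow_right₀ hu1 (by norm_num)
    have k3 : 16 * (t * M ^ 13) ≤ u ^ 20 := by
      have := huk 20 (by norm_num)
      nlinarith
    have k4 : 3 * u ^ 20 ≤ u ^ 21 := by
      calc 3 * u ^ 20 ≤ u * u ^ 20 := mul_le_mul_of_nonneg_right (by nlinarith) (by positivity)
        _ = u ^ 21 := by ring
    nlinarith
  · have e : (t + 1) * (1 / u ^ 49) + 1 / u ^ 49 = (t + 2) * (1 / u ^ 49) := by ring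
    have e2 : 1 / u ^ 45 = u ^ 4 * (1 / u ^ 49) := by field_simp
    rw [e, e2]
    refine mul_le_mul_of_nonneg_right ?_ (by positivity)
    have := huk 4 (by norm_num)
    nlinarith
  · have a1 : (1 + 2 * M ^ 6) * (t + 1) ≤ (3 * M ^ 6) * (6 * M ^ 9) := by
      refine mul_le_mul ?_ ?_ (by positivity) (by positivity)
      · have : (1 : ℝ) ≤ M ^ 6 := one_le_pow₀ hM1
        linarith
      · have : (1 : ℝ) ≤ M ^ 9 := one_le_pow₀ hM1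
        linarith
    have a2 : (3 * M ^ 6) * (6 * M ^ 9) = 18 * M ^ 15 := by ring
    have a3 : M ^ 13 ≤ M ^ 15 := pow_le_pow_right₀ hM1 (by norm_num)
    have a4 : M ^ 6 ≤ M ^ 15 := pow_le_pow_right₀ hM1 (by norm_num)
    have a5 : 2 ^ 40 * M ^ 15 ≤ M ^ 16 := by
      calc 2 ^ 40 * M ^ 15 ≤ M * M ^ 15 := mul_le_mul_of_nonneg_right hN (by positivity)
        _ = M ^ 16 := by ring
    nlinarith
  · have e : 2 / u ^ 10 + (t * (8 / (M * u ^ 10)) + 16 * M ^ 13 / u ^ 10) =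
        (2 * M + 8 * t + 16 * M ^ 14) * (1 / (M * u ^ 10)) := by field_simp; ring
    have e2 : M ^ 14 / u ^ 10 = M ^ 15 * (1 / (M * u ^ 10)) := by field_simp
    rw [e, e2]
    refine mul_le_mul_of_nonneg_right ?_ (by positivity)
    have a1 : M ≤ M ^ 14 := le_self_pow₀ hM1 (by norm_num)
    have a2 : M ^ 9 ≤ M ^ 14 := pow_le_pow_right₀ hM1 (by norm_num)
    have a3 : 2 ^ 40 * M ^ 14 ≤ M ^ 15 := by
      calc 2 ^ 40 * M ^ 14 ≤ M * M ^ 14 := mul_le_mul_of_nonneg_right hN (by positivity)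
        _ = M ^ 15 := by ring
    nlinarith
  · rw [div_le_one (by positivity)]
    have := m1 14 (by norm_num)
    nlinarith
  · have e : (1 / u ^ 39 + t * (1 / u ^ 49)) * (8 / (M * u ^ 10)) =
        (8 * u ^ 10 + 8 * t) * (1 / (M * u ^ 59)) := by field_simp
    have e2 : 1 / u ^ 49 = (M * u ^ 10) * (1 / (M * u ^ 59)) := by field_simp
    rw [e, e2]
    refine mul_le_mul_of_nonneg_right ?_ (by positivity)
    have a1 : 8 * t ≤ u ^ 10 := by nlinarith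
    have a2 : 9 * u ^ 10 ≤ M * u ^ 10 := mul_le_mul_of_nonneg_right (le_trans (by norm_num) hN) (by positivity)
    nlinarith

end Pool.Agent.H84.LN
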