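import Pool.Agent.H84.LN.Mom
import Pool.Agent.H84.LN.Num

/-!
MP_b8729f, project LN, block C (helper84): the events of one round.
-/

set_option autoImplicit false
set_option linter.unusedSectionVars false

namespace Pool.Agent.H84.LN

open Finset Classical
open Pool.Agent.H65.GI
open Pool.Agent.H2.LN Pool.Agent.H12.LN

section
variable {V : Type} [Fintype V] {s n b : ℕ} {N Δ : ℕ} {ι : Type}

theorem Ev_pos (hP : Pm N Δ) : (0 : ℝ) < N ∧ (0 : ℝ) < Δ := by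
  have hN : (2 : ℝ) ^ 40 ≤ N := by exact_mod_cast hP.big
  obtain ⟨-, -, hD⟩ := Num_log hP
  exact ⟨lt_of_lt_of_le (by norm_num) hN, by linarith⟩

theorem Ev_dl (hP : Pm N Δ) : 0 ≤ dl Δ ∧ 0 ≤ eA Δ ∧ 1 ≤ dv Δ := by
  obtain ⟨-, hD⟩ := Ev_pos hP
  obtain ⟨-, -, hD1⟩ := Num_log hP
  refine ⟨Real.rpow_nonneg hD.le _, Real.rpow_nonneg hD.le _, ?_⟩
  exact Real.one_le_rpow hD1 (by norm_num)

theorem Ev_irr (G : SimpleGraph V) (c : Fin s) (v : V) : v ∉ Cg G s c v := fun h =>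
  G.loopless.irrefl v ((mem_nb G v v).1 h)

theorem ev1 [NeZero b] (hP : Pm N Δ) (G : SimpleGraph V) (hG : Reg G Δ) (f : V → ℝ) (v : V)
    (hf : LinF G N Δ v f) {l : ℕ} (Y : Finset V) (L : V → Finset (Fin s)) (col : V → Option (Fin s))
    (hS : St G l n Y L col) (g : Fin s) :
    pr (fun ω : Ix V s n → Cn s b => dl Δ ≤ |Sm f (fun x => x ∈ Y ∧ nw (Cg G s) Y L ω x = some g) -
      cc b n l * Wt f Y L g|) ≤ 2 * Real.exp (-(N : ℝ) ^ 6) := by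
  obtain ⟨hN0, hD0⟩ := Ev_pos hP
  have h := lmc (n := n) (b := b) G Δ hG 1 f hf.nn (16 * N ^ 3 / Δ ^ 12) hf.l2 (by positivity)
    (fun x ω => x ∈ Y ∧ nw (Cg G s) Y L ω x = some g) (fun x ω ω' h => by
      show (x ∈ Y ∧ nw (Cg G s) Y L ω x = some g) ↔ (x ∈ Y ∧ nw (Cg G s) Y L ω' x = some g)
      rw [(nw_agr G Y L x ω ω' h).1]) (dl Δ) (Ev_dl hP).1
  have hm : ∑ x, f x * pr (fun ω : Ix V s n → Cn s b => x ∈ Y ∧ nw (Cg G s) Y L ω x = some g) =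
      cc b n l * Wt f Y L g := by
    unfold Wt
    rw [mul_sum]
    refine sum_congr rfl fun x _ => ?_
    by_cases hx : x ∈ Y ∧ g ∈ L x
    · rw [if_pos hx]
      have h1 := nw_pr (b := b) (Cg G s) (Ev_irr G) Y L x l (hS.ok.eq x hx.1 (notMem_empty x))
        (hS.ok.deg x hx.1) g hx.2
      have h2 : (fun ω : Ix V s n → Cn s b => x ∈ Y ∧ nw (Cg G s) Y L ω x = some g) =
          fun ω => nw (Cg G s) Y L ω x = some g := by
        funext ω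
        exact propext ⟨fun h => h.2, fun h => ⟨hx.1, h⟩⟩
      rw [h2, h1, mul_comm]
    · rw [if_neg hx, mul_zero]
      have h2 : (fun ω : Ix V s n → Cn s b => x ∈ Y ∧ nw (Cg G s) Y L ω x = some g) =
          fun ω => False := by
        funext ω
        refine propext ⟨fun h => hx ⟨h.1, (nw_some _ Y L ω x g h.2).1⟩, fun h => h.elim⟩
      rw [h2]
      unfold pr
      simp
  rw [hm] at h
  refine h.trans (mul_le_mul_of_nonneg_left (Real.exp_le_exp.2 (neg_le_neg ?_)) (by norm_num))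
  exact (nm1 hP).1

theorem ev2 [NeZero b] (hP : Pm N Δ) (G : SimpleGraph V) (hG : Reg G Δ) (f : V → ℝ) (v : V)
    (hf : LinF G N Δ v f) {l : ℕ} (l' : ℕ) (Y : Finset V) (L : V → Finset (Fin s))
    (col : V → Option (Fin s)) (hS : St G l n Y L col) (g : Fin s) :
    pr (fun ω : Ix V s n → Cn s b => dl Δ ≤ |Sm f (fun x => x ∈ Y ∧ nw (Cg G s) Y L ω x = none ∧
      g ∈ nl (Cg G s) Y L l' ω x) - qq b n l l' * Wt f Y L g|) ≤
      2 * Real.exp (-(N : ℝ) ^ 6) := by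
  obtain ⟨hN0, hD0⟩ := Ev_pos hP
  have h := lmc (n := n) (b := b) G Δ hG 1 f hf.nn (16 * N ^ 3 / Δ ^ 12) hf.l2 (by positivity)
    (fun x ω => x ∈ Y ∧ nw (Cg G s) Y L ω x = none ∧ g ∈ nl (Cg G s) Y L l' ω x) (fun x ω ω' h => by
      show (x ∈ Y ∧ nw (Cg G s) Y L ω x = none ∧ g ∈ nl (Cg G s) Y L l' ω x) ↔
        (x ∈ Y ∧ nw (Cg G s) Y L ω' x = none ∧ g ∈ nl (Cg G s) Y L l' ω' x)
      rw [(nw_agr G Y L x ω ω' h).1, (nw_agr G Y L x ω ω' h).2.2 l']) (dl Δ) (Ev_dl hP).1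
  have hm : ∑ x, f x * pr (fun ω : Ix V s n → Cn s b => x ∈ Y ∧ nw (Cg G s) Y L ω x = none ∧
      g ∈ nl (Cg G s) Y L l' ω x) = qq b n l l' * Wt f Y L g := by
    unfold Wt
    rw [mul_sum]
    refine sum_congr rfl fun x _ => ?_
    by_cases hx : x ∈ Y ∧ g ∈ L x
    · rw [if_pos hx]
      have h1 := nl_pr (b := b) (Cg G s) (Ev_irr G) Y L x l l' (hS.ok.eq x hx.1 (notMem_empty x))
        (hS.ok.deg x hx.1) g hx.2
      have h2 : (fun ω : Ix V s n → Cn s b => x ∈ Y ∧ nw (Cg G s) Y L ω x = none ∧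
          g ∈ nl (Cg G s) Y L l' ω x) =
          fun ω => nw (Cg G s) Y L ω x = none ∧ g ∈ nl (Cg G s) Y L l' ω x := by
        funext ω
        exact propext ⟨fun h => h.2, fun h => ⟨hx.1, h⟩⟩
      rw [h2, h1, mul_comm]
    · rw [if_neg hx, mul_zero]
      have h2 : (fun ω : Ix V s n → Cn s b => x ∈ Y ∧ nw (Cg G s) Y L ω x = none ∧
          g ∈ nl (Cg G s) Y L l' ω x) = fun ω => False := by
        funext ω
        refine propext ⟨fun h => hx ⟨h.1, ?_⟩, fun h => h.elim⟩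
        exact (mem_filter.1 (pre_sub _ _ _ h.2.2)).1
      rw [h2]
      unfold pr
      simp
  rw [hm] at h
  refine h.trans (mul_le_mul_of_nonneg_left (Real.exp_le_exp.2 (neg_le_neg ?_)) (by norm_num))
  exact (nm1 hP).1

theorem ev3 [NeZero b] (hP : Pm N Δ) (G : SimpleGraph V) (hG : Reg G Δ) (h : V → V → ℝ) (v : V)
    (hh : BilF G N Δ v h) (col : V → Option (Fin s)) (Z : V → (Ix V s n → Cn s b) → Option (Fin s))
    (hZ1 : ∀ x ω ω', Agr (bl G x 1) ω ω' → Z x ω = Z x ω')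
    (hZ2 : ∀ x ω, Z x ω = col x ∨ (col x = none ∧ ∀ c, Z x ω = some c → act ω x c))
    (lam : ℝ) (hl0 : 0 ≤ lam) (hl1 : lam ≤ 1) (g g' : Fin s) :
    pr (fun ω => Ph (lam + 1 / b) h col g g' + dl Δ ≤ Ph lam h (fun x => Z x ω) g g') ≤
      Real.exp (-(N : ℝ) ^ 6) := by
  obtain ⟨hN0, hD0⟩ := Ev_pos hP
  have h1 := bmc G Δ hG h hh.nn (4096 * N ^ 3 / Δ ^ 12) hh.rw hh.cm (by positivity) Z hZ1 lam hl0 hl1 g g'
    (dl Δ) (Ev_dl hP).1
  have h2 := bme h hh.nn hh.dg col Z hZ2 lam hl0 g g'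
  refine le_trans (pr_mono fun ω hω => ?_) (h1.trans (Real.exp_le_exp.2 (neg_le_neg (nm1 hP).2.1)))
  linarith

/-- the kinds of events -/
inductive Kd (ι : Type) (s : ℕ) : Type
  | x
  | e1 (i : ι) (g : Fin s)
  | e2 (i : ι) (g : Fin s)
  | e3 (i : ι) (g g' : Fin s)
  | e4 (i : ι)

def KdE (ι : Type) (s : ℕ) : Kd ι s ≃ Option (((ι × Fin s) ⊕ (ι × Fin s)) ⊕ ((ι × (Fin s × Fin s)) ⊕ ι)) where
  toFun
    | .x => none
    | .e1 i g => some (Sum.inl (Sum.inl (i, g)))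
    | .e2 i g => some (Sum.inl (Sum.inr (i, g)))
    | .e3 i g g' => some (Sum.inr (Sum.inl (i, (g, g'))))
    | .e4 i => some (Sum.inr (Sum.inr i))
  invFun
    | none => .x
    | some (Sum.inl (Sum.inl (i, g))) => .e1 i g
    | some (Sum.inl (Sum.inr (i, g))) => .e2 i g
    | some (Sum.inr (Sum.inl (i, (g, g')))) => .e3 i g g'
    | some (Sum.inr (Sum.inr i)) => .e4 i
  left_inv a := by cases a <;> rfl
  right_inv a := by
    rcases a with _ | (⟨_, _⟩ | ⟨_, _⟩) | ⟨_, ⟨_, _⟩⟩ | _ <;> rfl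

noncomputable instance (ι : Type) [Fintype ι] (s : ℕ) : Fintype (Kd ι s) := Fintype.ofEquiv _ (KdE ι s).symm

theorem Kd_card (ι : Type) [Fintype ι] (s : ℕ) :
    Fintype.card (Kd ι s) = Fintype.card ι * (s * s + 2 * s + 1) + 1 := by
  rw [Fintype.card_congr (KdE ι s), Fintype.card_option, Fintype.card_sum, Fintype.card_sum,
    Fintype.card_sum, Fintype.card_prod, Fintype.card_prod, Fintype.card_prod, Fintype.card_fin]
  ring

theorem Kd_le (hP : Pm N Δ) (hsΔ : s ≤ Δ) [Fintype ι] (hι : (Fintype.card ι : ℝ) ≤ Real.exp (N ^ 4)) :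
    (Fintype.card (Kd ι s) : ℝ) ≤ 10 * Real.exp (N ^ 4) * Δ ^ 2 := by
  obtain ⟨-, -, hD1⟩ := Num_log hP
  rw [Kd_card]
  push_cast
  have hs : (s : ℝ) ≤ Δ := by exact_mod_cast hsΔ
  have hs0 : (0 : ℝ) ≤ s := Nat.cast_nonneg s
  have hE : (1 : ℝ) ≤ Real.exp (N ^ 4) := Real.one_le_exp (by positivity)
  have h1 : (s : ℝ) * s + 2 * s + 1 ≤ 4 * (Δ : ℝ) ^ 2 := by nlinarith
  have h2 := mul_le_mul hι h1 (by positivity) (Real.exp_pos _).le
  have h3 : (1 : ℝ) ≤ Real.exp (N ^ 4) * (Δ : ℝ) ^ 2 := by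
    have : (1 : ℝ) ≤ (Δ : ℝ) ^ 2 := one_le_pow₀ hD1
    nlinarith
  nlinarith

theorem Ev_exp (hP : Pm N Δ) : Real.exp (-(N : ℝ) ^ 6) ≤ Real.exp (-((N : ℝ) ^ 5 / 2)) := by
  have hN : (2 : ℝ) ^ 40 ≤ N := by exact_mod_cast hP.big
  have hN1 : (1 : ℝ) ≤ N := le_trans (by norm_num) hN
  refine Real.exp_le_exp.2 ?_
  have h46 : (N : ℝ) ^ 5 ≤ (N : ℝ) ^ 6 := pow_le_pow_right₀ hN1 (by norm_num)
  have : (0 : ℝ) ≤ (N : ℝ) ^ 5 := by positivity
  linarith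

theorem Ev_Ph {m : ℕ} (G : SimpleGraph V) (v : V) (h : V → V → ℝ) (hx : ∀ x y, x ∉ bl G v m → h x y = 0)
    (hy : ∀ x y, y ∉ bl G v m → h x y = 0) (lam : ℝ) (col col' : V → Option (Fin s))
    (hc : ∀ x ∈ bl G v m, col x = col' x) (g g' : Fin s) : Ph lam h col g g' = Ph lam h col' g g' := by
  unfold Ph
  refine sum_congr rfl fun x _ => sum_congr rfl fun y _ => ?_
  by_cases h1 : x ∈ bl G v m
  · by_cases h2 : y ∈ bl G v m
    · rw [hc x h1, hc y h2]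
    · rw [hy x y h2, zero_mul, zero_mul]
  · rw [hx x y h1, zero_mul, zero_mul]

theorem evs [NeZero b] (hP : Pm N Δ) (G : SimpleGraph V) (hG : Reg G Δ) (hs : 1 ≤ s) (hsΔ : s ≤ Δ)
    [Fintype ι] (hι : (Fintype.card ι : ℝ) ≤ Real.exp (N ^ 4)) (f : V → ι → V → ℝ) (h : V → ι → V → V → ℝ)
    (Fr : V → ι → Finset (V × Fin s)) (hF : Top.Fam G N Δ s f h Fr) {l : ℕ} (l' : ℕ) (Y : Finset V)
    (L : V → Finset (Fin s)) (col : V → Option (Fin s)) (hS : St G l n Y L col)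
    (lam : ℝ) (hl0 : 0 ≤ lam) (hl1 : lam ≤ 1) (X : V → (Ix V s n → Cn s b) → Prop)
    (hX : ∀ v ω ω', Agr (bl G v 3) ω ω' → (X v ω ↔ X v ω'))
    (hXp : ∀ v, pr (X v) ≤ 4 * Real.exp (-((N : ℝ) ^ 5 / 2))) :
    ∃ ω : Ix V s n → Cn s b, (∀ v, ¬ X v ω) ∧
      (∀ v i g, |Sm (f v i) (fun x => x ∈ Y ∧ nw (Cg G s) Y L ω x = some g) -
        cc b n l * Wt (f v i) Y L g| ≤ dl Δ) ∧
      (∀ v i g, |Sm (f v i) (fun x => x ∈ Y ∧ nw (Cg G s) Y L ω x = none ∧ g ∈ nl (Cg G s) Y L l' ω x) - qq b n l l' * Wt (f v i) Y L g| ≤ dl Δ) ∧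
      (∀ v i g g', Ph lam (h v i) (nf (Cg G s) Y L col ω) g g' ≤
        Ph (lam + 1 / b) (h v i) col g g' + dl Δ) ∧
      ∀ v i, (((Fr v i).filter (fun p => act ω p.1 p.2)).card : ℝ) ≤ 6 * Δ / b + 2 * N ^ 6 := by
  have hne : Nonempty (Cn s b) := ⟨(0, 1)⟩
  obtain ⟨B, hB⟩ : ∃ B : V → Kd ι s → (Ix V s n → Cn s b) → Prop, B = fun v k ω =>
    match k with
    | .x => X v ω
    | .e1 i g => dl Δ ≤ |Sm (f v i) (fun x => x ∈ Y ∧ nw (Cg G s) Y L ω x = some g) -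
        cc b n l * Wt (f v i) Y L g|
    | .e2 i g => dl Δ ≤ |Sm (f v i) (fun x => x ∈ Y ∧ nw (Cg G s) Y L ω x = none ∧ g ∈ nl (Cg G s) Y L l' ω x) - qq b n l l' * Wt (f v i) Y L g|
    | .e3 i g g' => Ph (lam + 1 / b) (h v i) col g g' + dl Δ ≤
        Ph lam (h v i) (nf (Cg G s) Y L col ω) g g'
    | .e4 i => 3 * (((2 * Δ : ℕ) : ℝ) / b) + 2 * (N : ℝ) ^ 6 ≤
        (((Fr v i).filter (fun p => act ω p.1 p.2)).card : ℝ) := ⟨_, rfl⟩
  have hsub : ∀ (v x : V) (ω ω' : Ix V s n → Cn s b), Agr (bl G v (60 * N ^ 3 + 3)) ω ω' →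
      x ∈ bl G v (60 * N ^ 3) → Agr (bl G x 1) ω ω' := fun v x ω ω' h hx => Agr_bl h hx (by omega)
  have hZ : ∀ (x : V) (ω ω' : Ix V s n → Cn s b), Agr (bl G x 1) ω ω' →
      nf (Cg G s) Y L col ω x = nf (Cg G s) Y L col ω' x := by
    intro x ω ω' h
    unfold nf
    rw [(nw_agr G Y L x ω ω' h).1]
  have hloc : ∀ v k ω ω', Agr (bl G v (60 * N ^ 3 + 3)) ω ω' → (B v k ω ↔ B v k ω') := by
    intro v k ω ω' hag
    rw [hB]
    cases k with
    | x => exact hX v ω ω' (Agr_sub hag (bl_mono G v (by omega)))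
    | e1 i g =>
      show (dl Δ ≤ |Sm (f v i) (fun x => x ∈ Y ∧ nw (Cg G s) Y L ω x = some g) - _|) ↔
        (dl Δ ≤ |Sm (f v i) (fun x => x ∈ Y ∧ nw (Cg G s) Y L ω' x = some g) - _|)
      rw [Sm_congr (f v i) (fun x => x ∈ Y ∧ nw (Cg G s) Y L ω x = some g)
        (fun x => x ∈ Y ∧ nw (Cg G s) Y L ω' x = some g) _ (hF.lin v i).sp
        (fun x hx => by rw [(nw_agr G Y L x ω ω' (hsub v x ω ω' hag hx)).1])]
    | e2 i g =>
      show (dl Δ ≤ |Sm (f v i) (fun x => x ∈ Y ∧ nw (Cg G s) Y L ω x = none ∧ g ∈ nl (Cg G s) Y L l' ω x) - _|) ↔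
        (dl Δ ≤ |Sm (f v i) (fun x => x ∈ Y ∧ nw (Cg G s) Y L ω' x = none ∧ g ∈ nl (Cg G s) Y L l' ω' x) - _|)
      rw [Sm_congr (f v i) (fun x => x ∈ Y ∧ nw (Cg G s) Y L ω x = none ∧ g ∈ nl (Cg G s) Y L l' ω x)
        (fun x => x ∈ Y ∧ nw (Cg G s) Y L ω' x = none ∧ g ∈ nl (Cg G s) Y L l' ω' x) _ (hF.lin v i).sp
        (fun x hx => by
          have := nw_agr G Y L x ω ω' (hsub v x ω ω' hag hx)
          rw [this.1, this.2.2 l'])]
    | e3 i g g' =>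
      show (Ph (lam + 1 / b) (h v i) col g g' + dl Δ ≤ Ph lam (h v i) (nf (Cg G s) Y L col ω) g g') ↔
        (Ph (lam + 1 / b) (h v i) col g g' + dl Δ ≤ Ph lam (h v i) (nf (Cg G s) Y L col ω') g g')
      rw [Ev_Ph G v (h v i) (hF.bil v i).spx (hF.bil v i).spy lam (nf (Cg G s) Y L col ω)
        (nf (Cg G s) Y L col ω') (fun x hx => hZ x ω ω' (hsub v x ω ω' hag hx)) g g']
    | e4 i =>
      show (3 * (((2 * Δ : ℕ) : ℝ) / b) + 2 * (N : ℝ) ^ 6 ≤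
        (((Fr v i).filter (fun p => act ω p.1 p.2)).card : ℝ)) ↔
        (3 * (((2 * Δ : ℕ) : ℝ) / b) + 2 * (N : ℝ) ^ 6 ≤
        (((Fr v i).filter (fun p => act ω' p.1 p.2)).card : ℝ))
      have : (Fr v i).filter (fun p => act ω p.1 p.2) = (Fr v i).filter (fun p => act ω' p.1 p.2) :=
        filter_congr fun p hp => Agr_act hag (bl_mono G v (by omega) (hF.fr2 v i p hp)) p.2
      rw [this]
  have hpr : ∀ v k, pr (B v k) ≤ 4 * Real.exp (-((N : ℝ) ^ 5 / 2)) := by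
    intro v k
    have hex := Ev_exp hP
    have hp := Real.exp_pos (-((N : ℝ) ^ 5 / 2))
    rw [hB]
    cases k with
    | x => exact hXp v
    | e1 i g => exact (ev1 hP G hG (f v i) v (hF.lin v i) Y L col hS g).trans (by linarith)
    | e2 i g => exact (ev2 hP G hG (f v i) v (hF.lin v i) l' Y L col hS g).trans (by linarith)
    | e3 i g g' =>
      refine (ev3 hP G hG (h v i) v (hF.bil v i) col (fun x ω => nf (Cg G s) Y L col ω x) hZ ?_ lam hl0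
        hl1 g g').trans (by linarith)
      intro x ω
      by_cases hx : x ∈ Y
      · right
        refine ⟨hS.ok.un x hx, fun c hc => ?_⟩
        simp only [nf, if_pos hx] at hc
        exact (nw_some _ Y L ω x c hc).2.2
      · left
        simp only [nf, if_neg hx]
    | e4 i =>
      exact (frg (n := n) (b := b) (Fr v i) (2 * Δ) (hF.fr1 v i) ((N : ℝ) ^ 6) (by positivity)).trans
        (by linarith)
  obtain ⟨ω, hω⟩ := uni G Δ hG (60 * N ^ 3 + 3) B (fun v k => Agr_loc fun ω ω' hag =>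
    propext (hloc v k ω ω' hag)) (4 * Real.exp (-((N : ℝ) ^ 5 / 2))) (by positivity) hpr
    (nm3 hP _ (Kd_le hP hsΔ hι))
  rw [hB] at hω
  refine ⟨ω, fun v => hω v .x, fun v i g => (not_le.1 (hω v (.e1 i g))).le,
    fun v i g => (not_le.1 (hω v (.e2 i g))).le, fun v i g g' => (not_le.1 (hω v (.e3 i g g'))).le,
    fun v i => ?_⟩
  have := (not_le.1 (hω v (.e4 i))).le
  refine this.trans (le_of_eq ?_)
  push_cast
  ring

end

end Pool.Agent.H84.LN
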