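import Pool.Agent.H84.LN.CDefs
import Pool.Agent.H65.GI.Chf
import Pool.Agent.H65.GI.Tri
import Pool.Agent.H65.GI.Prf

/-!
MP_b8729f, project LN, block C (helper84): the probability tools for an arbitrary `Fintype` instance on the
product space (the index type `Ix V s n` has another `DecidableEq` instance than a generic type).
-/

set_option autoImplicit false
set_option linter.unusedSectionVars false

namespace Pool.Agent.H84.LN

open Finset Classical
open Pool.Agent.H65.GI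
open Pool.Agent.H2.LN Pool.Agent.H12.LN

section
variable {I κ : Type} [Fintype I] [Fintype κ] [Nonempty κ] [F : Fintype (I → κ)]

theorem gmcdb {J : Type} [Fintype J] (bk : I → J) (f : (I → κ) → ℝ) (c : J → ℝ) (hf : BDb bk f c) (B t : ℝ)
    (hB : ∑ j, (c j) ^ 2 ≤ B) (hB0 : 0 < B) (ht : 0 ≤ t) :
    pr (fun ω => ex f + t ≤ f ω) ≤ Real.exp (-(t ^ 2 / (2 * B))) := by
  have h := Subsingleton.elim F (Pi.instFintype : Fintype (I → κ))
  subst h
  exact mcdb bk f c hf B t hB hB0 ht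

theorem gmcdb' {J : Type} [Fintype J] (bk : I → J) (f : (I → κ) → ℝ) (c : J → ℝ) (hf : BDb bk f c) (B t : ℝ)
    (hB : ∑ j, (c j) ^ 2 ≤ B) (hB0 : 0 < B) (ht : 0 ≤ t) :
    pr (fun ω => f ω ≤ ex f - t) ≤ Real.exp (-(t ^ 2 / (2 * B))) := by
  have h := Subsingleton.elim F (Pi.instFintype : Fintype (I → κ))
  subst h
  exact mcdb' bk f c hf B t hB hB0 ht

theorem gmcdb2 {J : Type} [Fintype J] (bk : I → J) (f : (I → κ) → ℝ) (c : J → ℝ) (hf : BDb bk f c) (B t : ℝ)
    (hB : ∑ j, (c j) ^ 2 ≤ B) (hB0 : 0 < B) (ht : 0 ≤ t) :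
    pr (fun ω => t ≤ |f ω - ex f|) ≤ 2 * Real.exp (-(t ^ 2 / (2 * B))) := by
  have h := Subsingleton.elim F (Pi.instFintype : Fintype (I → κ))
  subst h
  exact mcdb2 bk f c hf B t hB hB0 ht

theorem gex_mul (f g : (I → κ) → ℝ) (S T : Finset I) (hf : Loc f S) (hg : Loc g T) (hd : Disjoint S T) :
    ex (fun ω => f ω * g ω) = ex f * ex g := by
  have h := Subsingleton.elim F (Pi.instFintype : Fintype (I → κ))
  subst h
  exact ex_mul f g S T hf hg hd

theorem gpr_and (A B : (I → κ) → Prop) (S T : Finset I) (hA : Loc A S) (hB : Loc B T) (hd : Disjoint S T) :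
    pr (fun ω => A ω ∧ B ω) = pr A * pr B := by
  have h := Subsingleton.elim F (Pi.instFintype : Fintype (I → κ))
  subst h
  exact pr_and A B S T hA hB hd

theorem gpr_forall {ι : Type} (J : Finset ι) (A : ι → (I → κ) → Prop) (S : ι → Finset I)
    (hS : ∀ i ∈ J, Loc (A i) (S i)) (hd : ∀ i ∈ J, ∀ j ∈ J, i ≠ j → Disjoint (S i) (S j)) :
    pr (fun ω => ∀ i ∈ J, A i ω) = ∏ i ∈ J, pr (A i) := by
  have h := Subsingleton.elim F (Pi.instFintype : Fintype (I → κ))
  subst h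
  exact pr_forall J A S hS hd

theorem gfew_le {ι : Type} (J : Finset ι) (A : ι → (I → κ) → Prop) (S : ι → Finset I)
    (hS : ∀ i ∈ J, Loc (A i) (S i)) (hd : ∀ i ∈ J, ∀ j ∈ J, i ≠ j → Disjoint (S i) (S j)) (p : ℝ)
    (hp0 : 0 ≤ p) (hp : ∀ i ∈ J, pr (A i) ≤ p) (n K : ℕ) (hn : J.card ≤ n) :
    pr (fun ω => K ≤ (J.filter (fun i => A i ω)).card) ≤ (n * p) ^ K := by
  have h := Subsingleton.elim F (Pi.instFintype : Fintype (I → κ))
  subst h
  exact few_le J A S hS hd p hp0 hp n K hn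

theorem gpr_coord (i : I) (Q : κ → Prop) : pr (fun ω : I → κ => Q (ω i)) = pr Q := by
  have h := Subsingleton.elim F (Pi.instFintype : Fintype (I → κ))
  subst h
  exact pr_coord i Q

end

theorem gpr_sym {I κ : Type} [Fintype I] [Fintype κ] [F : Fintype (I → κ)] (π : Equiv.Perm I)
    (τ : I → Equiv.Perm κ) (A : (I → κ) → Prop) :
    pr (fun ω : I → κ => A (fun i => τ i (ω (π i)))) = pr A := by
  have h := Subsingleton.elim F (Pi.instFintype : Fintype (I → κ))
  subst h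
  exact pr_sym π τ A

theorem glll {V A κ : Type} [Fintype V] [Fintype A] [Fintype κ] [Nonempty κ] [F : Fintype (V × A → κ)]
    (G : SimpleGraph V) (Δ : ℕ) (hG : Reg G Δ) (r : ℕ) (E : V → (V × A → κ) → Prop)
    (hloc : ∀ v, Loc (E v) ((bl G v r) ×ˢ (univ : Finset A))) (q : ℝ) (hq0 : 0 ≤ q)
    (hq : ∀ v, pr (E v) ≤ q) (h4 : 4 * q * ((Δ : ℝ) + 1) ^ (2 * r) ≤ 1) :
    ∃ ω : V × A → κ, ∀ v, ¬ E v ω := by
  have h := Subsingleton.elim F (Pi.instFintype : Fintype (V × A → κ))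
  subst h
  exact lll_bl G Δ hG r E hloc q hq0 hq h4

end Pool.Agent.H84.LN
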