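import Pool.Agent.H84.LN.Bas

/-!
MP_b8729f, project LN, block C (helper84): concentration of linear and bilinear sums of local events.
-/

set_option autoImplicit false
set_option linter.unusedSectionVars false

namespace Pool.Agent.H84.LN

open Finset Classical
open Pool.Agent.H65.GI
open Pool.Agent.H2.LN Pool.Agent.H12.LN

section
variable {V : Type} [Fintype V] {s n b : ℕ}

theorem Mom_sum (S : Finset V) (f : V → ℝ) : ∑ x ∈ S, f x = ∑ x, if x ∈ S then f x else 0 := by
  rw [← sum_filter]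
  refine sum_congr ?_ fun _ _ => rfl
  ext x
  simp

theorem Mom_agr (G : SimpleGraph V) (r : ℕ) (u x : V) (ω ω' : Ix V s n → Cn s b)
    (h : ∀ i : Ix V s n, i.1 ≠ u → ω i = ω' i) (hx : x ∉ bl G u r) : Agr (bl G x r) ω ω' := by
  intro y hy a
  refine h (y, a) ?_
  rintro (rfl : y = u)
  exact hx (bl_symm G hy)

theorem lmc [NeZero b] (G : SimpleGraph V) (Δ : ℕ) (hG : Reg G Δ) (r : ℕ) (f : V → ℝ) (hf : ∀ x, 0 ≤ f x)
    (Q : ℝ) (hQ : ∑ x, f x ^ 2 ≤ Q) (hQ0 : 0 < Q) (P : V → (Ix V s n → Cn s b) → Prop)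
    (hP : ∀ x ω ω', Agr (bl G x r) ω ω' → (P x ω ↔ P x ω')) (t : ℝ) (ht : 0 ≤ t) :
    pr (fun ω => t ≤ |Sm f (fun x => P x ω) - ∑ x, f x * pr (P x)|) ≤
      2 * Real.exp (-(t ^ 2 / (2 * (((Δ : ℝ) + 1) ^ (2 * r) * Q)))) := by
  have hne : Nonempty (Cn s b) := ⟨(0, 1)⟩
  have hex : ex (fun ω : Ix V s n → Cn s b => ∑ x, if P x ω then f x else 0) = ∑ x, f x * pr (P x) := by
    rw [ex_sum univ (fun x ω => if P x ω then f x else 0)]
    refine sum_congr rfl fun x _ => ?_
    rw [ex_ind, ← ex_smul]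
    congr 1
    funext ω
    split_ifs <;> ring
  have h := gmcdb2 (Prod.fst : Ix V s n → V) (fun ω : Ix V s n → Cn s b => ∑ x, if P x ω then f x else 0)
    (fun u => ∑ x ∈ bl G u r, f x) (fun u ω ω' h => by
      show |(∑ x, if P x ω then f x else 0) - ∑ x, if P x ω' then f x else 0| ≤ ∑ x ∈ bl G u r, f x
      rw [← sum_sub_distrib, Mom_sum (bl G u r) f]
      refine le_trans (abs_sum_le_sum_abs _ _) ?_
      refine sum_le_sum fun x _ => ?_
      by_cases hx : x ∈ bl G u r
      · rw [if_pos hx]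
        have := hf x
        split_ifs <;> simp [abs_of_nonneg this, this]
      · rw [if_neg hx]
        have h1 := hP x ω ω' (Mom_agr G r u x ω ω' h hx)
        by_cases h2 : P x ω
        · rw [if_pos h2, if_pos (h1.1 h2), sub_self, abs_zero]
        · rw [if_neg h2, if_neg (fun h3 => h2 (h1.2 h3)), sub_self, abs_zero])
    (((Δ : ℝ) + 1) ^ (2 * r) * Q) t
    ((infl G Δ hG r f).trans (mul_le_mul_of_nonneg_left hQ (by positivity))) (by positivity) ht
  rw [hex] at h
  exact h

theorem Mom_dif (a a' c c' lam : ℝ) (ha : a = 0 ∨ a = 1) (ha' : a' = 0 ∨ a' = 1) (hc : c = 0 ∨ c = 1)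
    (hc' : c' = 0 ∨ c' = 1) (hl0 : 0 ≤ lam) (hl1 : lam ≤ 1) :
    |(a + lam) * (c + lam) - (a' + lam) * (c' + lam)| ≤ 4 := by
  rw [abs_le]
  rcases ha with rfl | rfl <;> rcases ha' with rfl | rfl <;> rcases hc with rfl | rfl <;>
    rcases hc' with rfl | rfl <;> constructor <;> nlinarith

theorem bmc [NeZero b] (G : SimpleGraph V) (Δ : ℕ) (hG : Reg G Δ) (h : V → V → ℝ) (hh : ∀ x y, 0 ≤ h x y)
    (Q : ℝ) (hR : ∑ x, (∑ y, h x y) ^ 2 ≤ Q) (hC : ∑ y, (∑ x, h x y) ^ 2 ≤ Q) (hQ0 : 0 < Q)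
    (Z : V → (Ix V s n → Cn s b) → Option (Fin s)) (hZ : ∀ x ω ω', Agr (bl G x 1) ω ω' → Z x ω = Z x ω')
    (lam : ℝ) (hl0 : 0 ≤ lam) (hl1 : lam ≤ 1) (g g' : Fin s) (t : ℝ) (ht : 0 ≤ t) :
    pr (fun ω => ex (fun ω' => Ph lam h (fun x => Z x ω') g g') + t ≤ Ph lam h (fun x => Z x ω) g g') ≤
      Real.exp (-(t ^ 2 / (2 * (64 * ((Δ : ℝ) + 1) ^ 2 * Q)))) := by
  have hne : Nonempty (Cn s b) := ⟨(0, 1)⟩
  have h01 : ∀ p : Prop, (if p then (1 : ℝ) else 0) = 0 ∨ (if p then (1 : ℝ) else 0) = 1 := by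
    intro p
    split_ifs
    · exact Or.inr rfl
    · exact Or.inl rfl
  refine gmcdb (Prod.fst : Ix V s n → V) (fun ω : Ix V s n → Cn s b => Ph lam h (fun x => Z x ω) g g')
    (fun u => 4 * (∑ x ∈ bl G u 1, ∑ y, h x y) + 4 * (∑ y ∈ bl G u 1, ∑ x, h x y))
    (fun u ω ω' hag => ?_) (64 * ((Δ : ℝ) + 1) ^ 2 * Q) t ?_ (by positivity) ht
  · show |Ph lam h (fun x => Z x ω) g g' - Ph lam h (fun x => Z x ω') g g'| ≤ _
    unfold Ph
    rw [← sum_sub_distrib]
    have key : ∀ x y, |h x y * (((if Z x ω = some g then (1 : ℝ) else 0) + lam) *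
          ((if Z y ω = some g' then (1 : ℝ) else 0) + lam)) -
        h x y * (((if Z x ω' = some g then (1 : ℝ) else 0) + lam) *
          ((if Z y ω' = some g' then (1 : ℝ) else 0) + lam))| ≤
        4 * (if x ∈ bl G u 1 then h x y else 0) + 4 * (if y ∈ bl G u 1 then h x y else 0) := by
      intro x y
      rw [← mul_sub, abs_mul, abs_of_nonneg (hh x y)]
      have hxy := hh x y
      by_cases hx : x ∈ bl G u 1
      · rw [if_pos hx]
        have := Mom_dif _ _ _ _ lam (h01 (Z x ω = some g)) (h01 (Z x ω' = some g)) (h01 (Z y ω = some g'))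
          (h01 (Z y ω' = some g')) hl0 hl1
        have h1 := mul_le_mul_of_nonneg_left this hxy
        split_ifs at h1 ⊢ <;> linarith
      · by_cases hy : y ∈ bl G u 1
        · rw [if_pos hy]
          have := Mom_dif _ _ _ _ lam (h01 (Z x ω = some g)) (h01 (Z x ω' = some g))
            (h01 (Z y ω = some g')) (h01 (Z y ω' = some g')) hl0 hl1
          have h1 := mul_le_mul_of_nonneg_left this hxy
          split_ifs at h1 ⊢ <;> linarith
        · rw [if_neg hx, if_neg hy, hZ x ω ω' (Mom_agr G 1 u x ω ω' hag hx),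
            hZ y ω ω' (Mom_agr G 1 u y ω ω' hag hy), sub_self, abs_zero]
          simp
    calc |∑ x, ((∑ y, h x y * (((if Z x ω = some g then (1 : ℝ) else 0) + lam) *
          ((if Z y ω = some g' then (1 : ℝ) else 0) + lam))) -
        ∑ y, h x y * (((if Z x ω' = some g then (1 : ℝ) else 0) + lam) *
          ((if Z y ω' = some g' then (1 : ℝ) else 0) + lam)))|
        ≤ ∑ x, ∑ y, (4 * (if x ∈ bl G u 1 then h x y else 0) + 4 * (if y ∈ bl G u 1 then h x y else 0)) := by
          refine (abs_sum_le_sum_abs _ _).trans (sum_le_sum fun x _ => ?_)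
          rw [← sum_sub_distrib]
          exact (abs_sum_le_sum_abs _ _).trans (sum_le_sum fun y _ => key x y)
      _ = _ := by
          simp_rw [sum_add_distrib, ← mul_sum]
          congr 2
          · rw [Mom_sum (bl G u 1) (fun x => ∑ y, h x y)]
            refine sum_congr rfl fun x _ => ?_
            split_ifs
            · rfl
            · simp
          · rw [Mom_sum (bl G u 1) (fun y => ∑ x, h x y), sum_comm]
            refine sum_congr rfl fun x _ => ?_
            split_ifs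
            · rfl
            · simp
  · have h1 := infl G Δ hG 1 (fun x => ∑ y, h x y)
    have h2 := infl G Δ hG 1 (fun y => ∑ x, h x y)
    have h3 : ∀ u, (4 * (∑ x ∈ bl G u 1, ∑ y, h x y) + 4 * (∑ y ∈ bl G u 1, ∑ x, h x y)) ^ 2 ≤
        32 * (∑ x ∈ bl G u 1, ∑ y, h x y) ^ 2 + 32 * (∑ y ∈ bl G u 1, ∑ x, h x y) ^ 2 := by
      intro u
      nlinarith [sq_nonneg ((∑ x ∈ bl G u 1, ∑ y, h x y) - (∑ y ∈ bl G u 1, ∑ x, h x y))]
    refine (sum_le_sum fun u _ => h3 u).trans ?_
    rw [sum_add_distrib, ← mul_sum, ← mul_sum]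
    rw [mul_one] at h1 h2
    have hD : (0 : ℝ) ≤ ((Δ : ℝ) + 1) ^ 2 := by positivity
    have h4 := mul_le_mul_of_nonneg_left hR hD
    have h5 := mul_le_mul_of_nonneg_left hC hD
    nlinarith

theorem Mom_loc_act (x : V) (g : Fin s) : Loc (fun ω : Ix V s n → Cn s b => if act ω x g then (1 : ℝ) else 0)
    ({(x, some (g, 0))} : Finset (Ix V s n)) := by
  intro ω ω' h
  have h1 := h (x, some (g, 0)) (mem_singleton_self _)
  have h2 : act ω x g = act ω' x g := by
    unfold act
    rw [h1]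
  simp only [h2]

theorem bme [NeZero b] (h : V → V → ℝ) (hh : ∀ x y, 0 ≤ h x y) (hd : ∀ x, h x x = 0)
    (col : V → Option (Fin s)) (Z : V → (Ix V s n → Cn s b) → Option (Fin s))
    (hZ : ∀ x ω, Z x ω = col x ∨ (col x = none ∧ ∀ c, Z x ω = some c → act ω x c))
    (lam : ℝ) (hl0 : 0 ≤ lam) (g g' : Fin s) :
    ex (fun ω => Ph lam h (fun x => Z x ω) g g') ≤ Ph (lam + 1 / b) h col g g' := by
  have hne : Nonempty (Cn s b) := ⟨(0, 1)⟩
  have hb : (0 : ℝ) ≤ 1 / b := by positivity
  have hup : ∀ x g ω, (if Z x ω = some g then (1 : ℝ) else 0) ≤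
      (if col x = some g then (1 : ℝ) else 0) + (if act ω x g then (1 : ℝ) else 0) := by
    intro x g ω
    rcases hZ x ω with h1 | ⟨h1, h2⟩
    · rw [h1]
      have : (0 : ℝ) ≤ (if act ω x g then (1 : ℝ) else 0) := by split_ifs <;> norm_num
      linarith
    · by_cases h3 : Z x ω = some g
      · rw [if_pos h3, if_pos (h2 g h3), h1]
        simp
      · rw [if_neg h3]
        split_ifs <;> norm_num
  have hE : ∀ x g, ex (fun ω : Ix V s n → Cn s b => (if col x = some g then (1 : ℝ) else 0) + lam +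
      (if act ω x g then (1 : ℝ) else 0)) = (if col x = some g then (1 : ℝ) else 0) + (lam + 1 / b) := by
    intro x g
    rw [ex_add (fun _ => (if col x = some g then (1 : ℝ) else 0) + lam)
      (fun ω : Ix V s n → Cn s b => if act ω x g then (1 : ℝ) else 0), ex_const, ← ex_ind, act_pr]
    ring
  unfold Ph
  rw [ex_sum univ (fun x (ω : Ix V s n → Cn s b) => ∑ y, h x y * (((if Z x ω = some g then (1 : ℝ) else 0) + lam) *
    ((if Z y ω = some g' then (1 : ℝ) else 0) + lam)))]
  refine sum_le_sum fun x _ => ?_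
  rw [ex_sum univ (fun y (ω : Ix V s n → Cn s b) => h x y * (((if Z x ω = some g then (1 : ℝ) else 0) + lam) *
    ((if Z y ω = some g' then (1 : ℝ) else 0) + lam)))]
  refine sum_le_sum fun y _ => ?_
  rw [ex_smul]
  by_cases hxy : x = y
  · subst hxy
    rw [hd, zero_mul, zero_mul]
  refine mul_le_mul_of_nonneg_left ?_ (hh x y)
  have hdis : Disjoint ({(x, some (g, 0))} : Finset (Ix V s n)) {(y, some (g', 0))} := by
    rw [disjoint_singleton]
    intro h1
    exact hxy (Prod.ext_iff.1 h1).1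
  calc ex (fun ω : Ix V s n → Cn s b => ((if Z x ω = some g then (1 : ℝ) else 0) + lam) *
        ((if Z y ω = some g' then (1 : ℝ) else 0) + lam))
      ≤ ex (fun ω : Ix V s n → Cn s b => ((if col x = some g then (1 : ℝ) else 0) + lam +
        (if act ω x g then (1 : ℝ) else 0)) * ((if col y = some g' then (1 : ℝ) else 0) + lam +
        (if act ω y g' then (1 : ℝ) else 0))) := by
        refine ex_mono fun ω => ?_
        have h1 := hup x g ω
        have h2 := hup y g' ω
        have h3 : (0 : ℝ) ≤ (if Z y ω = some g' then (1 : ℝ) else 0) := by split_ifs <;> norm_num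
        have h4 : (0 : ℝ) ≤ (if Z x ω = some g then (1 : ℝ) else 0) := by split_ifs <;> norm_num
        refine mul_le_mul (by linarith) (by linarith) (by linarith) (by linarith)
    _ = ex (fun ω : Ix V s n → Cn s b => (if col x = some g then (1 : ℝ) else 0) + lam +
        (if act ω x g then (1 : ℝ) else 0)) * ex (fun ω : Ix V s n → Cn s b =>
        (if col y = some g' then (1 : ℝ) else 0) + lam + (if act ω y g' then (1 : ℝ) else 0)) := by
        refine gex_mul _ _ ({(x, some (g, 0))} : Finset (Ix V s n)) {(y, some (g', 0))} ?_ ?_ hdis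
        · intro ω ω' h1
          have := Mom_loc_act (b := b) x g ω ω' h1
          simp only at this ⊢
          rw [this]
        · intro ω ω' h1
          have := Mom_loc_act (b := b) y g' ω ω' h1
          simp only at this ⊢
          rw [this]
    _ = _ := by rw [hE x g, hE y g']

end

end Pool.Agent.H84.LN
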