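import Pool.Agent.H84.LN.Bas

/-!
MP_b8729f, project LN, block C (helper84): concentration of the number of uncoloured neighbours (blocks =
colours, truncated activations).
-/

set_option autoImplicit false
set_option linter.unusedSectionVars false

namespace Pool.Agent.H84.LN

open Finset Classical
open Pool.Agent.H65.GI
open Pool.Agent.H2.LN Pool.Agent.H12.LN

section
variable {V : Type} [Fintype V] {s n b : ℕ}

/-! ### agreement outside of a block -/

/-- `ω`, `ω'` agree outside of the block `j` -/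
def Agb (j : Option (Fin s)) (ω ω' : Ix V s n → Cn s b) : Prop :=
  ∀ i : Ix V s n, bkc i ≠ j → ω i = ω' i

theorem Agb_symm {j : Option (Fin s)} {ω ω' : Ix V s n → Cn s b} (h : Agb j ω ω') : Agb j ω' ω :=
  fun i hi => (h i hi).symm

theorem Agb_act {j : Option (Fin s)} {ω ω' : Ix V s n → Cn s b} (h : Agb j ω ω') (z : V) (c : Fin s)
    (hc : some c ≠ j) : act ω z c ↔ act ω' z c := by
  have h1 := h (z, some (c, 0)) hc
  unfold act
  rw [h1]

theorem Agb_sv {j : Option (Fin s)} {ω ω' : Ix V s n → Cn s b} (h : Agb j ω ω')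
    (C : Fin s → V → Finset V) (Y : Finset V) (L : V → Finset (Fin s)) (z : V) (c : Fin s)
    (hc : some c ≠ j) : sv C Y L ω c z ↔ sv C Y L ω' c z := by
  unfold sv
  refine and_congr ?_ ?_
  · refine forall_congr' fun u => forall_congr' fun _ => ?_
    have := Agb_act h u c hc
    tauto
  · refine forall_congr' fun i => forall_congr' fun _ => ?_
    unfold dum
    rw [h (z, some (c, i.succ)) hc]

theorem Agb_bad {j : Option (Fin s)} {ω ω' : Ix V s n → Cn s b} (h : Agb j ω ω') (G : SimpleGraph V)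
    (K : ℕ) (v : V) (c : Fin s) (hc : some c ≠ j) : bad G K ω v c ↔ bad G K ω' v c := by
  unfold bad
  have : (nb G v).filter (fun z => act ω z c) = (nb G v).filter (fun z => act ω' z c) :=
    filter_congr fun z _ => Agb_act h z c hc
  rw [this]

/-- the neighbours with a relevant activation of `g` -/
theorem bad_le (G : SimpleGraph V) (K : ℕ) (ω : Ix V s n → Cn s b) (v : V) (g : Fin s) :
    ((nb G v).filter (fun z => act ω z g ∧ ¬ bad G K ω v g)).card ≤ K := by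
  by_cases h : bad G K ω v g
  · have : (nb G v).filter (fun z => act ω z g ∧ ¬ bad G K ω v g) = ∅ := by
      refine filter_eq_empty_iff.2 fun z _ h1 => h1.2 h
    rw [this, card_empty]
    exact Nat.zero_le _
  · have h1 : ((nb G v).filter (fun z => act ω z g)).card ≤ K := not_lt.1 h
    refine (card_le_card fun z hz => ?_).trans h1
    rw [mem_filter] at hz ⊢
    exact ⟨hz.1, hz.2.1⟩

theorem Unc_one (G : SimpleGraph V) (K : ℕ) (Y : Finset V) (L : V → Finset (Fin s)) (v : V)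
    (j : Option (Fin s)) (ω ω' : Ix V s n → Cn s b) (h : Agb j ω ω') :
    unc' G K Y L ω v ≤ unc' G K Y L ω' v + (if j = none then 0 else (K : ℝ)) := by
  have key : ∀ z ∈ nb G v, (z ∈ Y ∧ ¬ ∃ c ∈ L z, act ω z c ∧ sv (Cg G s) Y L ω c z ∧ ¬ bad G K ω v c) →
      (z ∈ Y ∧ ¬ ∃ c ∈ L z, act ω' z c ∧ sv (Cg G s) Y L ω' c z ∧ ¬ bad G K ω' v c) ∨
      ∃ g, j = some g ∧ act ω' z g ∧ ¬ bad G K ω' v g := by
    rintro z hz ⟨hY, h1⟩
    by_cases h2 : ∃ c ∈ L z, act ω' z c ∧ sv (Cg G s) Y L ω' c z ∧ ¬ bad G K ω' v c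
    · obtain ⟨c, hc, h3, h4, h5⟩ := h2
      by_cases hj : some c = j
      · exact Or.inr ⟨c, hj.symm, h3, h5⟩
      · refine absurd ⟨c, hc, (Agb_act h z c hj).2 h3, (Agb_sv h _ Y L z c hj).2 h4, fun h6 => h5 ?_⟩ h1
        exact (Agb_bad h G K v c hj).1 h6
    · exact Or.inl ⟨hY, h2⟩
  unfold unc'
  cases j with
  | none =>
    rw [if_pos rfl, add_zero]
    have : ((nb G v).filter (fun z => z ∈ Y ∧ ¬ ∃ c ∈ L z, act ω z c ∧ sv (Cg G s) Y L ω c z ∧
        ¬ bad G K ω v c)).card ≤ ((nb G v).filter (fun z => z ∈ Y ∧ ¬ ∃ c ∈ L z, act ω' z c ∧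
        sv (Cg G s) Y L ω' c z ∧ ¬ bad G K ω' v c)).card := by
      refine card_le_card fun z hz => ?_
      rw [mem_filter] at hz ⊢
      refine ⟨hz.1, ?_⟩
      rcases key z hz.1 hz.2 with h1 | ⟨g, h1, -⟩
      · exact h1
      · exact absurd h1 (by simp)
    exact_mod_cast this
  | some g =>
    rw [if_neg (by simp)]
    have : ((nb G v).filter (fun z => z ∈ Y ∧ ¬ ∃ c ∈ L z, act ω z c ∧ sv (Cg G s) Y L ω c z ∧
        ¬ bad G K ω v c)).card ≤ ((nb G v).filter (fun z => z ∈ Y ∧ ¬ ∃ c ∈ L z, act ω' z c ∧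
        sv (Cg G s) Y L ω' c z ∧ ¬ bad G K ω' v c)).card + K := by
      refine le_trans (card_le_card (t := (nb G v).filter (fun z => z ∈ Y ∧ ¬ ∃ c ∈ L z, act ω' z c ∧
        sv (Cg G s) Y L ω' c z ∧ ¬ bad G K ω' v c) ∪
        (nb G v).filter (fun z => act ω' z g ∧ ¬ bad G K ω' v g)) fun z hz => ?_) ?_
      · rw [mem_filter] at hz
        rw [mem_union, mem_filter, mem_filter]
        rcases key z hz.1 hz.2 with h1 | ⟨g', h1, h2⟩
        · exact Or.inl ⟨hz.1, h1⟩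
        · rw [Option.some.injEq] at h1
          rw [h1]
          exact Or.inr ⟨hz.1, h2⟩
      · exact (card_union_le _ _).trans (Nat.add_le_add_left (bad_le G K ω' v g) _)
    exact_mod_cast this

theorem uncd (G : SimpleGraph V) (K : ℕ) (Y : Finset V) (L : V → Finset (Fin s)) (v : V) :
    BDb (bkc (V := V) (s := s) (n := n)) (fun ω : Ix V s n → Cn s b => unc' G K Y L ω v)
      (fun o => if o = none then 0 else 2 * (K : ℝ)) := by
  intro j ω ω' h
  have h1 := Unc_one G K Y L v j ω ω' h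
  have h2 := Unc_one G K Y L v j ω' ω (Agb_symm h)
  have hK : (0 : ℝ) ≤ K := Nat.cast_nonneg K
  show |unc' G K Y L ω v - unc' G K Y L ω' v| ≤ if j = none then 0 else 2 * (K : ℝ)
  rw [abs_le]
  split_ifs at h1 h2 ⊢ <;> constructor <;> linarith

theorem Unc_reg (G : SimpleGraph V) (Δ : ℕ) (hG : Reg G Δ) (v : V) : (nb G v).card = Δ := hG v

theorem Unc_loc (z : V) (c : Fin s) : Loc (fun ω : Ix V s n → Cn s b => act ω z c)
    ({(z, some (c, 0))} : Finset (Ix V s n)) := by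
  intro ω ω' h
  show act ω z c = act ω' z c
  unfold act
  rw [h _ (mem_singleton_self _)]

theorem bpr1 [NeZero b] (G : SimpleGraph V) (Δ : ℕ) (hG : Reg G Δ) (K : ℕ) (hb : 2 * Δ ≤ b) (v : V)
    (g : Fin s) : pr (fun ω : Ix V s n → Cn s b => bad G K ω v g) ≤ (1 / 2 : ℝ) ^ K := by
  have hne : Nonempty (Cn s b) := ⟨(0, 1)⟩
  have hb0 : (0 : ℝ) < b := by exact_mod_cast Nat.pos_of_ne_zero (NeZero.ne b)
  have h := gfew_le (nb G v) (fun z (ω : Ix V s n → Cn s b) => act ω z g)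
    (fun z => {(z, some (g, 0))}) (fun z _ => Unc_loc z g) (fun x _ y _ hxy => by
      rw [disjoint_singleton]
      intro h1
      exact hxy (Prod.ext_iff.1 h1).1) (1 / (b : ℝ)) (by positivity) (fun z _ => (act_pr z g).le) Δ (K + 1)
    (Unc_reg G Δ hG v).le
  have hle : (Δ : ℝ) * (1 / b) ≤ 1 / 2 := by
    rw [mul_one_div, div_le_iff₀ hb0]
    have : (2 : ℝ) * Δ ≤ b := by exact_mod_cast hb
    linarith
  refine le_trans (pr_mono fun ω hω => ?_) (h.trans ?_)
  · exact Nat.succ_le_of_lt hω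
  · refine (pow_le_pow_left₀ (by positivity) hle _).trans ?_
    exact pow_le_pow_of_le_one (by norm_num) (by norm_num) (Nat.le_succ K)

theorem bpr [NeZero b] (G : SimpleGraph V) (Δ : ℕ) (hG : Reg G Δ) (K : ℕ) (hb : 2 * Δ ≤ b) (v : V) :
    pr (fun ω : Ix V s n → Cn s b => ∃ g : Fin s, bad G K ω v g) ≤ s * (1 / 2 : ℝ) ^ K := by
  have h := pr_ex (univ : Finset (Fin s)) (fun g (ω : Ix V s n → Cn s b) => bad G K ω v g) ((1 / 2 : ℝ) ^ K)
    (fun g _ => bpr1 G Δ hG K hb v g)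
  rw [card_univ, Fintype.card_fin] at h
  refine le_trans (pr_mono fun ω hω => ?_) h
  obtain ⟨g, hg⟩ := hω
  exact ⟨g, mem_univ g, hg⟩

theorem Unc_none (G : SimpleGraph V) (Y : Finset V) (L : V → Finset (Fin s)) (ω : Ix V s n → Cn s b)
    (z : V) : nw (Cg G s) Y L ω z = none ↔ ¬ ∃ c ∈ L z, act ω z c ∧ sv (Cg G s) Y L ω c z := by
  unfold nw
  rw [first_none_iff, filter_eq_empty_iff]
  constructor
  · rintro h ⟨c, hc, h1, h2⟩
    exact h (mem_filter.2 ⟨hc, h2⟩) h1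
  · intro h c hc h1
    exact h ⟨c, (mem_filter.1 hc).1, h1, (mem_filter.1 hc).2⟩

theorem unc_le (G : SimpleGraph V) (K : ℕ) (Y : Finset V) (L : V → Finset (Fin s))
    (ω : Ix V s n → Cn s b) (v : V) : unc G Y L ω v ≤ unc' G K Y L ω v := by
  unfold unc unc'
  have : ((nb G v).filter (fun z => z ∈ Y ∧ nw (Cg G s) Y L ω z = none)).card ≤
      ((nb G v).filter (fun z => z ∈ Y ∧ ¬ ∃ c ∈ L z, act ω z c ∧ sv (Cg G s) Y L ω c z ∧
        ¬ bad G K ω v c)).card := by
    refine card_le_card fun z hz => ?_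
    rw [mem_filter] at hz ⊢
    refine ⟨hz.1, hz.2.1, fun ⟨c, hc, h1, h2, _⟩ => ?_⟩
    exact (Unc_none G Y L ω z).1 hz.2.2 ⟨c, hc, h1, h2⟩
  exact_mod_cast this

theorem unc_ge (G : SimpleGraph V) (Δ : ℕ) (hG : Reg G Δ) (K : ℕ) (Y : Finset V) (L : V → Finset (Fin s))
    (ω : Ix V s n → Cn s b) (v : V) :
    unc' G K Y L ω v ≤ unc G Y L ω v + Δ * (if ∃ g : Fin s, bad G K ω v g then (1 : ℝ) else 0) := by
  by_cases h : ∃ g : Fin s, bad G K ω v g
  · rw [if_pos h, mul_one]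
    have h1 : unc' G K Y L ω v ≤ Δ := by
      unfold unc'
      have : ((nb G v).filter (fun z => z ∈ Y ∧ ¬ ∃ c ∈ L z, act ω z c ∧ sv (Cg G s) Y L ω c z ∧
        ¬ bad G K ω v c)).card ≤ Δ := (card_filter_le _ _).trans (Unc_reg G Δ hG v).le
      exact_mod_cast this
    have h2 : 0 ≤ unc G Y L ω v := by unfold unc; exact Nat.cast_nonneg _
    linarith
  · rw [if_neg h, mul_zero, add_zero]
    unfold unc unc'
    have : ((nb G v).filter (fun z => z ∈ Y ∧ ¬ ∃ c ∈ L z, act ω z c ∧ sv (Cg G s) Y L ω c z ∧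
        ¬ bad G K ω v c)).card ≤ ((nb G v).filter (fun z => z ∈ Y ∧ nw (Cg G s) Y L ω z = none)).card := by
      refine card_le_card fun z hz => ?_
      rw [mem_filter] at hz ⊢
      refine ⟨hz.1, hz.2.1, (Unc_none G Y L ω z).2 fun ⟨c, hc, h1, h2⟩ => hz.2.2 ⟨c, hc, h1, h2, fun h3 => ?_⟩⟩
      exact h ⟨c, h3⟩
    exact_mod_cast this

theorem uncm [NeZero b] (G : SimpleGraph V) (Δ : ℕ) (hG : Reg G Δ) (K : ℕ) (hb : 2 * Δ ≤ b) (Y : Finset V)
    (L : V → Finset (Fin s)) (l : ℕ) (hl : ∀ z ∈ Y, (L z).card = l)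
    (hn : ∀ z ∈ Y, ∀ c ∈ L z, nn (Cg G s) Y L c z ≤ n) (v : V)
    (hv : ((nb G v).filter (fun z => z ∈ Y)).card ≤ n) :
    ex (fun ω : Ix V s n → Cn s b => unc' G K Y L ω v) ≤
      n * (1 - kap b n / b) ^ l + Δ * (s * (1 / 2 : ℝ) ^ K) := by
  have hne : Nonempty (Cn s b) := ⟨(0, 1)⟩
  have hb1 : 1 ≤ b := Nat.pos_of_ne_zero (NeZero.ne b)
  have hb0 : (0 : ℝ) < b := by exact_mod_cast hb1
  have hirr : ∀ (c : Fin s) (v : V), v ∉ Cg G s c v := by
    intro c v h
    exact G.loopless.irrefl v ((mem_nb G v v).1 h)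
  have h1 : ex (fun ω : Ix V s n → Cn s b => unc' G K Y L ω v) ≤
      ex (fun ω : Ix V s n → Cn s b => unc G Y L ω v) +
      Δ * pr (fun ω : Ix V s n → Cn s b => ∃ g : Fin s, bad G K ω v g) := by
    rw [ex_ind, ← ex_smul, ← ex_add]
    refine ex_mono fun ω => ?_
    have h5 := unc_ge G Δ hG K Y L ω v
    by_cases h6 : ∃ g : Fin s, bad G K ω v g
    · rw [if_pos h6] at h5 ⊢
      exact h5
    · rw [if_neg h6] at h5 ⊢
      exact h5
  have h2 : ex (fun ω : Ix V s n → Cn s b => unc G Y L ω v) =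
      ∑ z ∈ (nb G v).filter (fun z => z ∈ Y), pr (fun ω : Ix V s n → Cn s b =>
        nw (Cg G s) Y L ω z = none) := by
    have e : ∀ ω : Ix V s n → Cn s b, unc G Y L ω v = ∑ z ∈ (nb G v).filter (fun z => z ∈ Y),
        if nw (Cg G s) Y L ω z = none then (1 : ℝ) else 0 := by
      intro ω
      unfold unc
      rw [← filter_filter, card_filter]
      push_cast
      rfl
    simp_rw [e]
    rw [ex_sum]
    refine sum_congr rfl fun z _ => ?_
    rw [ex_ind]
    refine congrArg ex (funext fun ω => ?_)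
    split_ifs <;> rfl
  have hx1 : (0 : ℝ) ≤ 1 - kap b n / b := by
    have h3 := kap_le_one b n hb1
    rw [sub_nonneg, div_le_one hb0]
    have : (1 : ℝ) ≤ b := by exact_mod_cast hb1
    linarith
  have h3 : ∑ z ∈ (nb G v).filter (fun z => z ∈ Y), pr (fun ω : Ix V s n → Cn s b =>
        nw (Cg G s) Y L ω z = none) ≤ n * (1 - kap b n / b) ^ l := by
    have : ∀ z ∈ (nb G v).filter (fun z => z ∈ Y), pr (fun ω : Ix V s n → Cn s b =>
        nw (Cg G s) Y L ω z = none) = (1 - kap b n / b) ^ l := by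
      intro z hz
      have hz := (mem_filter.1 hz).2
      rw [none_pr (Cg G s) hirr Y L z (hn z hz), hl z hz]
    rw [sum_congr rfl this, sum_const, nsmul_eq_mul]
    refine mul_le_mul_of_nonneg_right ?_ (pow_nonneg hx1 l)
    exact_mod_cast hv
  have h4 := mul_le_mul_of_nonneg_left (bpr (n := n) (s := s) G Δ hG K hb v) (Nat.cast_nonneg (α := ℝ) Δ)
  linarith

theorem uncp [NeZero b] (G : SimpleGraph V) (Δ : ℕ) (hG : Reg G Δ) (hs : 1 ≤ s) (K : ℕ) (hK : 1 ≤ K)
    (hb : 2 * Δ ≤ b) (Y : Finset V)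
    (L : V → Finset (Fin s)) (l : ℕ) (hl : ∀ z ∈ Y, (L z).card = l)
    (hn : ∀ z ∈ Y, ∀ c ∈ L z, nn (Cg G s) Y L c z ≤ n) (v : V)
    (hv : ((nb G v).filter (fun z => z ∈ Y)).card ≤ n) (t : ℝ) (ht : 0 ≤ t) :
    pr (fun ω : Ix V s n → Cn s b => n * (1 - kap b n / b) ^ l + Δ * (s * (1 / 2 : ℝ) ^ K) + t ≤
      unc G Y L ω v) ≤ Real.exp (-(t ^ 2 / (8 * s * K ^ 2))) := by
  have hne : Nonempty (Cn s b) := ⟨(0, 1)⟩
  have hs0 : (0 : ℝ) < s := by exact_mod_cast hs
  have hK0 : (0 : ℝ) < K := by exact_mod_cast hK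
  have h := gmcdb (bkc (V := V) (s := s) (n := n)) (fun ω : Ix V s n → Cn s b => unc' G K Y L ω v)
    (fun o => if o = none then 0 else 2 * (K : ℝ)) (uncd G K Y L v) (4 * s * K ^ 2) t (by
      rw [Fintype.sum_option, if_pos rfl]
      simp only [reduceCtorEq, if_false, sum_const, card_univ, Fintype.card_fin, nsmul_eq_mul]
      nlinarith) (by positivity) ht
  have hm := uncm (b := b) G Δ hG K hb Y L l hl hn v hv
  refine le_trans (pr_mono fun ω hω => ?_) (h.trans (le_of_eq ?_))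
  · have := unc_le G K Y L ω v
    linarith
  · congr 3
    ring

end

end Pool.Agent.H84.LN
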