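import Pool.Agent.H84.LN.Ev
import Pool.Agent.H84.LN.Unc

/-!
MP_b8729f, project LN, block C (helper84): phase A, probabilities and deterministic facts.
-/

set_option autoImplicit false
set_option linter.unusedSectionVars false

namespace Pool.Agent.H84.LN

open Finset Classical
open Pool.Agent.H65.GI
open Pool.Agent.H2.LN Pool.Agent.H12.LN

section
variable {V : Type} [Fintype V] {s n b : ℕ} {N Δ : ℕ}

/-- the index of the activation coin -/
def ci (n : ℕ) (p : V × Fin s) : Ix V s n := (p.1, some (p.2, 0))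

theorem ci_inj {p q : V × Fin s} (h : ci n p = ci n q) : p = q := by
  unfold ci at h
  simp only [Prod.mk.injEq, Option.some.injEq, and_true] at h
  exact Prod.ext h.1 h.2

theorem coins [NeZero b] (P J : Finset (V × Fin s)) (h : ∀ p ∈ P, p ∉ J) :
    pr (fun ω : Ix V s n → Cn s b => (∀ p ∈ P, act ω p.1 p.2) ∧ ∀ p ∈ J, ¬ act ω p.1 p.2) =
      (1 / (b : ℝ)) ^ P.card * (1 - 1 / (b : ℝ)) ^ J.card := by
  have hne : Nonempty (Cn s b) := ⟨(0, 1)⟩
  have hloc : ∀ p : V × Fin s, ∀ S : Finset (Ix V s n), ci n p ∈ S →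
      Loc (fun ω : Ix V s n → Cn s b => act ω p.1 p.2) S := by
    intro p S hp ω ω' h
    show act ω p.1 p.2 = act ω' p.1 p.2
    have h1 : ω (p.1, some (p.2, 0)) = ω' (p.1, some (p.2, 0)) := h _ hp
    unfold act
    rw [h1]
  have hA : pr (fun ω : Ix V s n → Cn s b => ∀ p ∈ P, act ω p.1 p.2) = (1 / (b : ℝ)) ^ P.card := by
    rw [gpr_forall P (fun p (ω : Ix V s n → Cn s b) => act ω p.1 p.2) (fun p => {ci n p})
      (fun p _ => hloc p _ (mem_singleton_self _)) (fun p _ q _ hpq => by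
        rw [disjoint_singleton]
        exact fun h => hpq (ci_inj h))]
    rw [prod_congr rfl fun p _ => act_pr p.1 p.2, prod_const]
  have hB : pr (fun ω : Ix V s n → Cn s b => ∀ p ∈ J, ¬ act ω p.1 p.2) = (1 - 1 / (b : ℝ)) ^ J.card := by
    rw [gpr_forall J (fun p (ω : Ix V s n → Cn s b) => ¬ act ω p.1 p.2) (fun p => {ci n p})
      (fun p _ ω ω' h => by
        have := hloc p _ (mem_singleton_self _) ω ω' h
        simp only at this ⊢
        rw [this]) (fun p _ q _ hpq => by
        rw [disjoint_singleton]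
        exact fun h => hpq (ci_inj h))]
    have : ∀ p ∈ J, pr (fun ω : Ix V s n → Cn s b => ¬ act ω p.1 p.2) = 1 - 1 / (b : ℝ) := fun p _ => by
      rw [pr_not, act_pr p.1 p.2]
    rw [prod_congr rfl this, prod_const]
  rw [gpr_and (fun ω : Ix V s n → Cn s b => ∀ p ∈ P, act ω p.1 p.2)
    (fun ω => ∀ p ∈ J, ¬ act ω p.1 p.2) (P.image (ci n)) (J.image (ci n)) ?_ ?_ ?_, hA, hB]
  · intro ω ω' h
    have : ∀ p ∈ P, (act ω p.1 p.2 ↔ act ω' p.1 p.2) := fun p hp =>
      iff_of_eq (hloc p _ (mem_image_of_mem _ hp) ω ω' h)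
    exact propext (forall_congr' fun p => forall_congr' fun hp => this p hp)
  · intro ω ω' h
    have : ∀ p ∈ J, (act ω p.1 p.2 ↔ act ω' p.1 p.2) := fun p hp =>
      iff_of_eq (hloc p _ (mem_image_of_mem _ hp) ω ω' h)
    exact propext (forall_congr' fun p => forall_congr' fun hp => not_congr (this p hp))
  · rw [disjoint_left]
    intro i hi hj
    obtain ⟨p, hp, rfl⟩ := mem_image.1 hi
    obtain ⟨q, hq, h1⟩ := mem_image.1 hj
    rw [ci_inj h1] at hq
    exact h p hp hq

/-- the other colours at `z` -/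
noncomputable def oc (z : V) (g : Fin s) : Finset (V × Fin s) := (univ.filter (fun c : Fin s => c ≠ g)).image (fun c => (z, c))

/-- the colour `g` at the vertices of `S` -/
noncomputable def nc (S : Finset V) (g : Fin s) : Finset (V × Fin s) := S.image (fun u => (u, g))

theorem mem_oc (z : V) (g : Fin s) (p : V × Fin s) : p ∈ oc z g ↔ p.1 = z ∧ p.2 ≠ g := by
  unfold oc
  rw [mem_image]
  constructor
  · rintro ⟨c, hc, rfl⟩
    exact ⟨rfl, (mem_filter.1 hc).2⟩
  · rintro ⟨h1, h2⟩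
    exact ⟨p.2, mem_filter.2 ⟨mem_univ _, h2⟩, Prod.ext h1.symm rfl⟩

theorem mem_nc (S : Finset V) (g : Fin s) (p : V × Fin s) : p ∈ nc S g ↔ p.1 ∈ S ∧ p.2 = g := by
  unfold nc
  rw [mem_image]
  constructor
  · rintro ⟨u, hu, rfl⟩
    exact ⟨hu, rfl⟩
  · rintro ⟨h1, h2⟩
    exact ⟨p.1, h1, Prod.ext rfl h2.symm⟩

theorem card_oc (z : V) (g : Fin s) : (oc z g).card = s - 1 := by
  unfold oc
  rw [card_image_of_injective _ (fun a b h => (Prod.ext_iff.1 h).2)]
  have : univ.filter (fun c : Fin s => c ≠ g) = univ.erase g := by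
    ext c
    simp
  rw [this, card_erase_of_mem (mem_univ g), card_univ, Fintype.card_fin]

theorem card_nc (S : Finset V) (g : Fin s) : (nc S g).card = S.card := by
  unfold nc
  exact card_image_of_injective _ (fun a b h => (Prod.ext_iff.1 h).1)

theorem gt_iff (G : SimpleGraph V) (ω : Ix V s n → Cn s b) (z : V) (g : Fin s) :
    gt G ω z g ↔ (∀ p ∈ ({(z, g)} : Finset (V × Fin s)), act ω p.1 p.2) ∧
      ∀ p ∈ oc z g ∪ nc (nb G z) g, ¬ act ω p.1 p.2 := by
  unfold gt
  constructor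
  · rintro ⟨h1, h2, h3⟩
    refine ⟨fun p hp => ?_, fun p hp => ?_⟩
    · rw [mem_singleton.1 hp]; exact h1
    · rcases mem_union.1 hp with h | h
      · rw [mem_oc] at h
        rw [h.1]
        exact h2 _ h.2
      · rw [mem_nc] at h
        rw [h.2]
        exact h3 _ h.1
  · rintro ⟨h1, h2⟩
    refine ⟨h1 (z, g) (mem_singleton_self _), fun g' hg' => ?_, fun u hu => ?_⟩
    · exact h2 (z, g') (mem_union_left _ ((mem_oc z g _).2 ⟨rfl, hg'⟩))
    · exact h2 (u, g) (mem_union_right _ ((mem_nc _ g _).2 ⟨hu, rfl⟩))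

theorem gtp [NeZero b] (G : SimpleGraph V) (hG : Reg G Δ) (z : V) (g : Fin s) :
    pr (fun ω : Ix V s n → Cn s b => gt G ω z g) = cA Δ s b := by
  simp_rw [gt_iff]
  rw [coins]
  · rw [card_singleton, card_union_of_disjoint, card_oc, card_nc, show (nb G z).card = Δ from hG z]
    · unfold cA
      ring
    · rw [disjoint_left]
      intro p h1 h2
      exact ((mem_oc z g p).1 h1).2 ((mem_nc _ g p).1 h2).2
  · intro p hp h
    rw [mem_singleton.1 hp] at h
    rcases mem_union.1 h with h | h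
    · exact ((mem_oc z g _).1 h).2 rfl
    · exact G.loopless.irrefl z ((mem_nb G z z).1 ((mem_nc _ g _).1 h).1)

theorem prp [NeZero b] (G : SimpleGraph V) (hG : Reg G Δ) (z z' : V) (hz : z ≠ z') (ha : ¬ G.Adj z z')
    (g : Fin s) : 1 / (b : ℝ) ^ 2 * (1 - (2 * s + 2 * Δ) / b) ≤
      pr (fun ω : Ix V s n → Cn s b => gt G ω z g ∧ gt G ω z' g) := by
  have hb1 : 1 ≤ b := Nat.pos_of_ne_zero (NeZero.ne b)
  have hb0 : (0 : ℝ) < b := by exact_mod_cast hb1
  obtain ⟨J, hJ⟩ : ∃ J : Finset (V × Fin s), J = (oc z g ∪ nc (nb G z) g) ∪ (oc z' g ∪ nc (nb G z') g) := ⟨_, rfl⟩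
  have h1 : pr (fun ω : Ix V s n → Cn s b => (∀ p ∈ ({(z, g), (z', g)} : Finset (V × Fin s)), act ω p.1 p.2) ∧
      ∀ p ∈ J, ¬ act ω p.1 p.2) ≤ pr (fun ω : Ix V s n → Cn s b => gt G ω z g ∧ gt G ω z' g) := by
    refine pr_mono fun ω hω => ?_
    rw [gt_iff, gt_iff]
    refine ⟨⟨fun p hp => hω.1 p ?_, fun p hp => hω.2 p ?_⟩, ⟨fun p hp => hω.1 p ?_, fun p hp => hω.2 p ?_⟩⟩
    · rw [mem_singleton.1 hp]; exact mem_insert_self _ _
    · rw [hJ]; exact mem_union_left _ hp
    · rw [mem_singleton.1 hp]; exact mem_insert_of_mem (mem_singleton_self _)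
    · rw [hJ]; exact mem_union_right _ hp
  rw [coins] at h1
  · refine le_trans ?_ h1
    have hc : ({(z, g), (z', g)} : Finset (V × Fin s)).card = 2 := by
      rw [card_pair]
      intro h
      exact hz (Prod.ext_iff.1 h).1
    rw [hc]
    have hJc : (J.card : ℝ) ≤ 2 * s + 2 * Δ := by
      have : J.card ≤ 2 * s + 2 * Δ := by
        rw [hJ]
        have a1 := card_union_le (oc z g ∪ nc (nb G z) g) (oc z' g ∪ nc (nb G z') g)
        have a2 := card_union_le (oc z g) (nc (nb G z) g)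
        have a3 := card_union_le (oc z' g) (nc (nb G z') g)
        rw [card_oc, card_nc] at a2 a3
        have a4 : (nb G z).card = Δ := hG z
        have a5 : (nb G z').card = Δ := hG z'
        omega
      exact_mod_cast this
    have hB : 1 - (2 * s + 2 * Δ) / (b : ℝ) ≤ (1 - 1 / (b : ℝ)) ^ J.card := by
      have h2 := one_add_mul_le_pow (show (-2 : ℝ) ≤ -(1 / (b : ℝ)) by
        have : 1 / (b : ℝ) ≤ 1 := by
          rw [div_le_one hb0]; exact_mod_cast hb1
        linarith) J.card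
      have e : (1 : ℝ) + -(1 / b) = 1 - 1 / b := by ring
      rw [e] at h2
      refine le_trans ?_ h2
      have : (J.card : ℝ) * (1 / b) ≤ (2 * s + 2 * Δ) * (1 / b) := mul_le_mul_of_nonneg_right hJc (by positivity)
      have e2 : (2 * (s : ℝ) + 2 * Δ) * (1 / b) = (2 * s + 2 * Δ) / b := by ring
      linarith
    calc 1 / (b : ℝ) ^ 2 * (1 - (2 * s + 2 * Δ) / b) ≤ 1 / (b : ℝ) ^ 2 * (1 - 1 / (b : ℝ)) ^ J.card :=
          mul_le_mul_of_nonneg_left hB (by positivity)
      _ = _ := by ring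
  · intro p hp h
    rw [hJ, mem_union, mem_union, mem_union, mem_oc, mem_oc, mem_nc, mem_nc] at h
    rcases mem_insert.1 hp with hp | hp
    · rw [hp] at h
      rcases h with (h | h) | (h | h)
      · exact h.2 rfl
      · exact G.loopless.irrefl z ((mem_nb G z z).1 h.1)
      · exact h.2 rfl
      · exact ha ((mem_nb G z' z).1 h.1).symm
    · rw [mem_singleton.1 hp] at h
      rcases h with (h | h) | (h | h)
      · exact h.2 rfl
      · exact ha ((mem_nb G z z').1 h.1)
      · exact h.2 rfl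
      · exact G.loopless.irrefl z' ((mem_nb G z' z').1 h.1)

theorem prs [NeZero b] (G : SimpleGraph V) (T : Finset V) (g : Fin s) :
    pr (fun ω : Ix V s n → Cn s b => ∀ z ∈ T, gt G ω z g) ≤ (1 / (b : ℝ)) ^ T.card := by
  have h := coins (n := n) (b := b) (nc T g) ∅ (fun p _ => notMem_empty p)
  rw [card_nc, card_empty, pow_zero, mul_one] at h
  rw [← h]
  refine pr_mono fun ω hω => ⟨fun p hp => ?_, fun p hp => absurd hp (notMem_empty p)⟩
  rw [mem_nc] at hp
  rw [hp.2]
  exact (hω p.1 hp.1).1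

/-! ### deterministic facts -/

theorem gt_uniq (G : SimpleGraph V) (ω : Ix V s n → Cn s b) (z : V) (g g' : Fin s) (h : gt G ω z g)
    (h' : gt G ω z g') : g = g' := by
  by_contra hne
  exact h.2.1 g' (fun e => hne e.symm) h'.1

theorem gt_adj (G : SimpleGraph V) (ω : Ix V s n → Cn s b) (z u : V) (g : Fin s) (ha : G.Adj z u)
    (h : gt G ω z g) : ¬ gt G ω u g := fun h' => h.2.2 u ((mem_nb G z u).2 ha) h'.1

theorem colA_some (G : SimpleGraph V) (ω : Ix V s n → Cn s b) (z : V) (g : Fin s) :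
    colA G ω z = some g ↔ gt G ω z g := by
  unfold colA
  constructor
  · intro h
    split_ifs at h with h1
    · rw [← Option.some.inj h]
      exact h1.choose_spec
  · intro h
    have h1 : ∃ g, gt G ω z g := ⟨g, h⟩
    rw [dif_pos h1, gt_uniq G ω z _ _ h1.choose_spec h]

theorem colA_none (G : SimpleGraph V) (ω : Ix V s n → Cn s b) (z : V) :
    colA G ω z = none ↔ z ∈ YA G ω := by
  unfold YA
  rw [mem_filter, Option.eq_none_iff_forall_ne_some]
  constructor
  · exact fun h => ⟨mem_univ z, fun g hg => h g ((colA_some G ω z g).2 hg)⟩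
  · exact fun h g hg => h.2 g ((colA_some G ω z g).1 hg)

theorem Pa_one (_z : V) (R : Fin s → Prop) (hR : ∀ g g', R g → R g' → g = g') :
    (∑ g, if R g then (1 : ℝ) else 0) = if ∃ g, R g then 1 else 0 := by
  by_cases h : ∃ g, R g
  · rw [if_pos h]
    obtain ⟨g, hg⟩ := h
    rw [sum_eq_single g]
    · rw [if_pos hg]
    · intro g' _ hne
      rw [if_neg fun h' => hne (hR g' g h' hg)]
    · intro h'
      exact absurd (mem_univ g) h'
  · rw [if_neg h]
    refine sum_eq_zero fun g _ => ?_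
    rw [if_neg fun h' => h ⟨g, h'⟩]

theorem Pa_cf {α : Type} (S : Finset α) (P : α → Prop) [DecidablePred P] :
    ((S.filter P).card : ℝ) = ∑ z ∈ S, if P z then (1 : ℝ) else 0 := by
  rw [card_filter]
  push_cast
  rfl

/-- a counting principle: each `z` has at most one `g` -/
theorem card_col (S : Finset V) (R : V → Fin s → Prop) (hR : ∀ z g g', R z g → R z g' → g = g') :
    ((univ.filter (fun g : Fin s => ∃ z ∈ S, R z g)).card : ℝ) ≤ ((S.filter (fun z => ∃ g, R z g)).card : ℝ) := by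
  rw [Pa_cf, Pa_cf]
  calc (∑ g : Fin s, if ∃ z ∈ S, R z g then (1 : ℝ) else 0) ≤ ∑ g : Fin s, ∑ z ∈ S, if R z g then (1 : ℝ) else 0 := by
        refine sum_le_sum fun g _ => ?_
        by_cases h : ∃ z ∈ S, R z g
        · rw [if_pos h]
          obtain ⟨z, hz, h1⟩ := h
          have h2 := single_le_sum (f := fun z => if R z g then (1 : ℝ) else 0) (s := S)
            (fun z _ => by split_ifs <;> norm_num) hz
          simp only [if_pos h1] at h2
          exact h2
        · rw [if_neg h]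
          exact sum_nonneg fun z _ => by split_ifs <;> norm_num
    _ = ∑ z ∈ S, ∑ g : Fin s, if R z g then (1 : ℝ) else 0 := sum_comm
    _ ≤ _ := le_of_eq (sum_congr rfl fun z _ => by
          rw [Pa_one z (R z) (hR z)])

theorem usd_le_cnt (G : SimpleGraph V) (ω : Ix V s n → Cn s b) (v : V) : usd G ω v ≤ cnt G ω v :=
  card_col (nb G v) (fun z g => gt G ω z g) (fun z g g' h h' => gt_uniq G ω z g g' h h')

theorem fre_card (G : SimpleGraph V) (ω : Ix V s n → Cn s b) (v : V) :
    (((fre G ω v).card : ℕ) : ℝ) = s - usd G ω v := by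
  have h := card_filter_add_card_filter_not (s := (univ : Finset (Fin s))) (fun g : Fin s => ∃ z ∈ nb G v, gt G ω z g)
  have h2 : (univ.filter (fun g : Fin s => ¬ ∃ z ∈ nb G v, gt G ω z g)) = fre G ω v := by
    unfold fre
    refine filter_congr fun g _ => ?_
    push Not
    rfl
  rw [h2, card_univ, Fintype.card_fin] at h
  unfold usd
  rw [eq_sub_iff_add_eq, add_comm]
  exact_mod_cast h

theorem cnt_sum (G : SimpleGraph V) (ω : Ix V s n → Cn s b) (v : V) :
    cnt G ω v = ∑ z ∈ nb G v, ∑ g, if gt G ω z g then (1 : ℝ) else 0 := by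
  unfold cnt
  rw [Pa_cf]
  refine sum_congr rfl fun z _ => ?_
  rw [Pa_one z (gt G ω z) (fun g g' h h' => gt_uniq G ω z g g' h h')]

theorem cnt_le (G : SimpleGraph V) (hG : Reg G Δ) (ω : Ix V s n → Cn s b) (v : V) : cnt G ω v ≤ Δ := by
  unfold cnt
  have := (card_filter_le (nb G v) (fun z => ∃ g, gt G ω z g)).trans (hG v).le
  exact_mod_cast this

theorem ex_ind' {Ω : Type} [Fintype Ω] (A : Ω → Prop) (D : ∀ ω, Decidable (A ω)) :
    ex (fun ω => @ite ℝ (A ω) (D ω) 1 0) = pr A := by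
  rw [ex_ind]
  refine congrArg ex (funext fun ω => ?_)
  split_ifs <;> rfl

theorem cmn [NeZero b] (G : SimpleGraph V) (hG : Reg G Δ) (v : V) :
    ex (fun ω : Ix V s n → Cn s b => cnt G ω v) = Δ * s * cA Δ s b := by
  simp_rw [cnt_sum]
  rw [ex_sum]
  simp_rw [ex_sum univ]
  have : ∀ z ∈ nb G v, (∑ g : Fin s, ex fun ω : Ix V s n → Cn s b => if gt G ω z g then (1 : ℝ) else 0) =
      s * cA Δ s b := by
    intro z _
    have : ∀ g ∈ (univ : Finset (Fin s)), (ex fun ω : Ix V s n → Cn s b => if gt G ω z g then (1 : ℝ) else 0) =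
        cA Δ s b := fun g _ => by rw [ex_ind', gtp G hG]
    rw [sum_congr rfl this, sum_const, nsmul_eq_mul, card_univ, Fintype.card_fin]
  rw [sum_congr rfl this, sum_const, nsmul_eq_mul, show (nb G v).card = Δ from hG v]
  ring

theorem nad (hP : Pm N Δ) (G : SimpleGraph V) (hG : Reg G Δ) (hgap : Gap G N Δ) (v : V) :
    (Δ : ℝ) ^ 2 / N ≤
      ((((nb G v) ×ˢ (nb G v)).filter (fun p => p.1 ≠ p.2 ∧ ¬ G.Adj p.1 p.2)).card : ℝ) := by
  obtain ⟨hN0, hD0⟩ := Ev_pos hP
  have hΔ1 : 1 ≤ Δ := by exact_mod_cast hD0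
  have hvn : v ∉ nb G v := fun h => G.loopless.irrefl v ((mem_nb G v v).1 h)
  have hc : (insert v (nb G v)).card = Δ + 1 := by
    rw [card_insert_of_notMem hvn, show (nb G v).card = Δ from hG v]
  have hbd : Δ + 1 ≤ Δ ^ 13 := by
    have h1 : 2 ≤ Δ := by
      have h2 := hP.pow
      have h3 : N ≤ N ^ 40000 := Nat.le_self_pow (by norm_num) N
      have h4 := hP.big
      have h5 : 2 ≤ 2 ^ 40 := by norm_num
      omega
    calc Δ + 1 ≤ Δ * Δ := by nlinarith
      _ = Δ ^ 2 := by ring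
      _ ≤ Δ ^ 13 := Nat.pow_le_pow_right hΔ1 (by norm_num)
  have hg := hgap (insert v (nb G v)) (by rw [hc]; exact hbd)
  rw [hc] at hg
  -- the pairs
  have key : (ee G (insert v (nb G v)) (insert v (nb G v)) : ℝ) = 2 * Δ +
      ((((nb G v) ×ˢ (nb G v)).filter (fun p => G.Adj p.1 p.2)).card : ℝ) := by
    unfold ee
    rw [sum_insert hvn]
    have e1 : ((insert v (nb G v)).filter (fun y => G.Adj v y)) = nb G v := by
      ext y
      rw [mem_filter, mem_insert, mem_nb]
      constructor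
      · exact fun h => h.2
      · exact fun h => ⟨Or.inr h, h⟩
    have e2 : ∀ x ∈ nb G v, ((insert v (nb G v)).filter (fun y => G.Adj x y)).card =
        1 + ((nb G v).filter (fun y => G.Adj x y)).card := by
      intro x hx
      rw [filter_insert, if_pos ((mem_nb G v x).1 hx).symm, card_insert_of_notMem, add_comm]
      intro h
      exact hvn (mem_filter.1 h).1
    rw [e1, sum_congr rfl e2, sum_add_distrib, sum_const, smul_eq_mul, mul_one,
      show (nb G v).card = Δ from hG v]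
    have e3 : (((nb G v) ×ˢ (nb G v)).filter (fun p => G.Adj p.1 p.2)).card =
        ∑ x ∈ nb G v, ((nb G v).filter (fun y => G.Adj x y)).card := by
      rw [card_filter, sum_product]
      refine sum_congr rfl fun x _ => ?_
      rw [card_filter]
    rw [e3]
    push_cast
    ring
  rw [key] at hg
  have hsplit : ((((nb G v) ×ˢ (nb G v)).filter (fun p => G.Adj p.1 p.2)).card : ℝ) +
      ((((nb G v) ×ˢ (nb G v)).filter (fun p => p.1 ≠ p.2 ∧ ¬ G.Adj p.1 p.2)).card : ℝ) = (Δ : ℝ) ^ 2 - Δ := by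
    have a1 := card_filter_add_card_filter_not (s := (nb G v) ×ˢ (nb G v)) (fun p : V × V => G.Adj p.1 p.2)
    have a2 : (((nb G v) ×ˢ (nb G v)).filter (fun p : V × V => ¬ G.Adj p.1 p.2)).card =
        (((nb G v) ×ˢ (nb G v)).filter (fun p => p.1 ≠ p.2 ∧ ¬ G.Adj p.1 p.2)).card + Δ := by
      have a3 := card_filter_add_card_filter_not
        (s := ((nb G v) ×ˢ (nb G v)).filter (fun p : V × V => ¬ G.Adj p.1 p.2)) (fun p : V × V => p.1 ≠ p.2)
      rw [filter_filter, filter_filter] at a3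
      have a4 : (((nb G v) ×ˢ (nb G v)).filter (fun p : V × V => ¬ G.Adj p.1 p.2 ∧ ¬ p.1 ≠ p.2)) =
          (nb G v).image (fun x => (x, x)) := by
        ext p
        rw [mem_filter, mem_product, mem_image]
        constructor
        · rintro ⟨⟨h1, _⟩, _, h3⟩
          exact ⟨p.1, h1, Prod.ext rfl (not_not.1 h3)⟩
        · rintro ⟨x, hx, rfl⟩
          exact ⟨⟨hx, hx⟩, fun h => G.loopless.irrefl x h, fun h => h rfl⟩
      have a5 : ((nb G v).image (fun x => (x, x))).card = Δ := by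
        rw [card_image_of_injective _ (fun a b h => (Prod.ext_iff.1 h).1)]
        exact hG v
      rw [a4, a5] at a3
      rw [← a3]
      congr 2
      exact filter_congr fun p _ => and_comm
    rw [a2, card_product, show (nb G v).card = Δ from hG v] at a1
    have a6 : ((((nb G v) ×ˢ (nb G v)).filter (fun p => G.Adj p.1 p.2)).card : ℝ) +
      (((((nb G v) ×ˢ (nb G v)).filter (fun p => p.1 ≠ p.2 ∧ ¬ G.Adj p.1 p.2)).card : ℝ) + Δ) = Δ * Δ := by
      exact_mod_cast a1
    linarith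
  have e4 : ((Δ : ℝ) - Δ / N) * ((Δ + 1 : ℕ) : ℝ) = (Δ : ℝ) ^ 2 + Δ - (Δ : ℝ) ^ 2 / N - Δ / N := by
    push_cast
    ring
  rw [e4] at hg
  have : (0 : ℝ) ≤ Δ / N := by positivity
  linarith

end

end Pool.Agent.H84.LN
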