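import Pool.Agent.H84.LN.Pa

/-!
MP_b8729f, project LN, block C (helper84): phase A, the number of colours used by the neighbours.
-/

set_option autoImplicit false
set_option linter.unusedSectionVars false

namespace Pool.Agent.H84.LN

open Finset Classical
open Pool.Agent.H65.GI
open Pool.Agent.H2.LN Pool.Agent.H12.LN

section
variable {V : Type} [Fintype V] {s n b : ℕ} {N Δ : ℕ}

theorem Pb_choose (r : ℕ) : (if 1 ≤ r then (1 : ℝ) else 0) ≤
    r - (1 / 2) * ((r : ℝ) * r - r) + (r.choose 3 : ℝ) := by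
  rcases Nat.lt_or_ge r 2 with h | h
  · interval_cases r <;> simp
  · obtain ⟨m, rfl⟩ : ∃ m, r = m + 2 := ⟨r - 2, by omega⟩
    have h3 : ((m + 2).choose 3 : ℝ) * 6 = (m + 2) * (m + 1) * m := by
      have h1 := Nat.choose_succ_right_eq (m + 2) 2
      have h2 := Nat.choose_succ_right_eq (m + 2) 1
      rw [Nat.choose_one_right] at h2
      have e1 : m + 2 - 2 = m := by omega
      have e2 : m + 2 - 1 = m + 1 := by omega
      rw [e1] at h1
      rw [e2] at h2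
      have h1' : ((m + 2).choose 3 : ℝ) * 3 = ((m + 2).choose 2 : ℝ) * m := by exact_mod_cast h1
      have h2' : ((m + 2).choose 2 : ℝ) * 2 = (m + 2) * (m + 1) := by exact_mod_cast h2
      calc ((m + 2).choose 3 : ℝ) * 6 = (((m + 2).choose 3 : ℝ) * 3) * 2 := by ring
        _ = (((m + 2).choose 2 : ℝ) * 2) * m := by rw [h1']; ring
        _ = _ := by rw [h2']
    rw [if_pos (by omega)]
    have hm : (0 : ℝ) ≤ m := Nat.cast_nonneg m
    push_cast at h3 ⊢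
    have h4 : (0 : ℝ) ≤ m * (m - 1) * (m + 1) := by
      rcases Nat.eq_zero_or_pos m with h0 | h0
      · rw [h0]; simp
      · have : (1 : ℝ) ≤ m := by exact_mod_cast h0
        have : (0 : ℝ) ≤ m - 1 := by linarith
        positivity
    nlinarith

/-- the neighbours with colour `g` -/
noncomputable def Rg (G : SimpleGraph V) (ω : Ix V s n → Cn s b) (v : V) (g : Fin s) : Finset V :=
  (nb G v).filter (fun z => gt G ω z g)

/-- the non-adjacent pairs of neighbours -/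
noncomputable def NA (G : SimpleGraph V) (v : V) : Finset (V × V) :=
  ((nb G v) ×ˢ (nb G v)).filter (fun p => p.1 ≠ p.2 ∧ ¬ G.Adj p.1 p.2)

theorem Pb_one (G : SimpleGraph V) (ω : Ix V s n → Cn s b) (v : V) (g : Fin s) :
    (if ∃ z ∈ nb G v, gt G ω z g then (1 : ℝ) else 0) ≤
      (∑ z ∈ nb G v, if gt G ω z g then (1 : ℝ) else 0) +
      (-(1 / 2)) * (∑ p ∈ NA G v, if gt G ω p.1 g ∧ gt G ω p.2 g then (1 : ℝ) else 0) +
      ∑ T ∈ (nb G v).powersetCard 3, if ∀ z ∈ T, gt G ω z g then (1 : ℝ) else 0 := by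
  have h1 : (∑ z ∈ nb G v, if gt G ω z g then (1 : ℝ) else 0) = (Rg G ω v g).card := by
    unfold Rg
    rw [Pa_cf]
  have h2 : (∑ p ∈ NA G v, if gt G ω p.1 g ∧ gt G ω p.2 g then (1 : ℝ) else 0) ≤
      ((Rg G ω v g).card : ℝ) * (Rg G ω v g).card - (Rg G ω v g).card := by
    have : (∑ p ∈ NA G v, if gt G ω p.1 g ∧ gt G ω p.2 g then (1 : ℝ) else 0) =
        (((NA G v).filter (fun p => gt G ω p.1 g ∧ gt G ω p.2 g)).card : ℝ) := by rw [Pa_cf]
    rw [this]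
    have h3 : ((NA G v).filter (fun p => gt G ω p.1 g ∧ gt G ω p.2 g)).card ≤ ((Rg G ω v g).offDiag).card := by
      refine card_le_card fun p hp => ?_
      obtain ⟨hp1, hp2, hp3⟩ := mem_filter.1 hp
      obtain ⟨hp4, hp5, -⟩ := mem_filter.1 hp1
      rw [mem_product] at hp4
      rw [mem_offDiag]
      exact ⟨mem_filter.2 ⟨hp4.1, hp2⟩, mem_filter.2 ⟨hp4.2, hp3⟩, hp5⟩
    rw [offDiag_card] at h3
    have h4 : (Rg G ω v g).card ≤ (Rg G ω v g).card * (Rg G ω v g).card := Nat.le_mul_self _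
    have h5 : (((NA G v).filter (fun p => gt G ω p.1 g ∧ gt G ω p.2 g)).card : ℝ) ≤
        (((Rg G ω v g).card * (Rg G ω v g).card - (Rg G ω v g).card : ℕ) : ℝ) := by exact_mod_cast h3
    rw [Nat.cast_sub h4] at h5
    push_cast at h5
    exact h5
  have h3 : (∑ T ∈ (nb G v).powersetCard 3, if ∀ z ∈ T, gt G ω z g then (1 : ℝ) else 0) =
      ((Rg G ω v g).card.choose 3 : ℝ) := by
    have : (∑ T ∈ (nb G v).powersetCard 3, if ∀ z ∈ T, gt G ω z g then (1 : ℝ) else 0) =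
        ((((nb G v).powersetCard 3).filter (fun T => ∀ z ∈ T, gt G ω z g)).card : ℝ) := by rw [Pa_cf]
    rw [this, ← card_powersetCard]
    congr 2
    ext T
    rw [mem_filter, mem_powersetCard, mem_powersetCard]
    constructor
    · rintro ⟨⟨h4, h5⟩, h6⟩
      exact ⟨fun z hz => mem_filter.2 ⟨h4 hz, h6 z hz⟩, h5⟩
    · rintro ⟨h4, h5⟩
      exact ⟨⟨fun z hz => (mem_filter.1 (h4 hz)).1, h5⟩, fun z hz => (mem_filter.1 (h4 hz)).2⟩
  have h4 := Pb_choose (Rg G ω v g).card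
  rw [h1, h3]
  have h5 : (if ∃ z ∈ nb G v, gt G ω z g then (1 : ℝ) else 0) = if 1 ≤ (Rg G ω v g).card then (1 : ℝ) else 0 := by
    have : (∃ z ∈ nb G v, gt G ω z g) ↔ 1 ≤ (Rg G ω v g).card := by
      rw [Nat.one_le_iff_ne_zero, ← Nat.pos_iff_ne_zero, card_pos]
      constructor
      · rintro ⟨z, hz, h6⟩
        exact ⟨z, mem_filter.2 ⟨hz, h6⟩⟩
      · rintro ⟨z, hz⟩
        exact ⟨z, (mem_filter.1 hz).1, (mem_filter.1 hz).2⟩
    by_cases h6 : ∃ z ∈ nb G v, gt G ω z g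
    · rw [if_pos h6, if_pos (this.1 h6)]
    · rw [if_neg h6, if_neg fun h7 => h6 (this.2 h7)]
  rw [h5]
  linarith

theorem Pb_num {M D S : ℝ} (hM : (2 : ℝ) ^ 40 ≤ M) (hS : 0 < S) (h1 : S ≤ D) (h2 : D ≤ 3 / 2 * S) :
    D / (3 * M ^ 7) ≤ S * ((1 / 2) * (D ^ 2 / M * (1 / (M ^ 3 * S) ^ 2 * (1 - (2 * S + 2 * D) / (M ^ 3 * S)))) -
      D ^ 3 / 6 * (1 / (M ^ 3 * S)) ^ 3) := by
  have hM0 : 0 < M := lt_of_lt_of_le (by norm_num) hM
  have hD : 0 < D := by linarith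
  obtain ⟨t, ht⟩ : ∃ t, t = D / S := ⟨_, rfl⟩
  have ht1 : 1 ≤ t := by rw [ht, le_div_iff₀ hS]; linarith
  have ht2 : t ≤ 3 / 2 := by rw [ht, div_le_iff₀ hS]; linarith
  have hDt : D = t * S := by rw [ht]; field_simp
  have e : S * ((1 / 2) * (D ^ 2 / M * (1 / (M ^ 3 * S) ^ 2 * (1 - (2 * S + 2 * D) / (M ^ 3 * S)))) -
      D ^ 3 / 6 * (1 / (M ^ 3 * S)) ^ 3) = S * (1 / M ^ 10) *
      (t ^ 2 / 2 * M ^ 3 - t ^ 2 * (1 + t) - t ^ 3 / 6 * M) := by
    rw [hDt]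
    field_simp
  have e2 : D / (3 * M ^ 7) = S * (1 / M ^ 10) * (t / 3 * M ^ 3) := by
    rw [hDt]
    field_simp
  rw [e, e2]
  refine mul_le_mul_of_nonneg_left ?_ (by positivity)
  have hM1 : 1 ≤ M := le_trans (by norm_num) hM
  have a1 : 100 * M ≤ M ^ 3 := by
    have : 100 ≤ M ^ 2 := by nlinarith
    nlinarith
  have a2 : t / 3 * M ^ 3 ≤ t ^ 2 / 3 * M ^ 3 := by
    refine mul_le_mul_of_nonneg_right ?_ (by positivity)
    nlinarith
  have a3 : t ^ 2 * (1 + t) ≤ t ^ 2 * (5 / 2) := mul_le_mul_of_nonneg_left (by linarith) (by positivity)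
  have a4 : t ^ 3 / 6 * M ≤ t ^ 2 * (1 / 4) * M := by
    refine mul_le_mul_of_nonneg_right ?_ hM0.le
    nlinarith [sq_nonneg t]
  have a5 : 0 ≤ t ^ 2 * (M ^ 3 / 6 - 5 / 2 - M / 4) := by
    refine mul_nonneg (by positivity) ?_
    linarith
  nlinarith

theorem dmn [NeZero b] (hP : Pm N Δ) (G : SimpleGraph V) (hG : Reg G Δ) (hgap : Gap G N Δ)
    (hs1 : (Δ : ℝ) - Δ / N ^ 30 ≤ s) (hs2 : s ≤ Δ) (hb : b = N ^ 3 * s) (v : V) :
    ex (fun ω : Ix V s n → Cn s b => usd G ω v) ≤ Δ * s * cA Δ s b - Δ / (3 * N ^ 7) := by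
  have hne : Nonempty (Cn s b) := ⟨(0, 1)⟩
  obtain ⟨hN0, hD0⟩ := Ev_pos hP
  have hN : (2 : ℝ) ^ 40 ≤ N := by exact_mod_cast hP.big
  have hN1 : (1 : ℝ) ≤ N := le_trans (by norm_num) hN
  have hb1 : 1 ≤ b := Nat.pos_of_ne_zero (NeZero.ne b)
  have hb0 : (0 : ℝ) < b := by exact_mod_cast hb1
  have hsD : (s : ℝ) ≤ Δ := by exact_mod_cast hs2
  have h30 : (Δ : ℝ) / N ^ 30 ≤ Δ / 3 := by
    refine div_le_div_of_nonneg_left hD0.le (by norm_num) ?_
    have : (N : ℝ) ≤ N ^ 30 := le_self_pow₀ hN1 (by norm_num)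
    refine le_trans ?_ this
    exact le_trans (by norm_num) hN
  have hs3 : (Δ : ℝ) ≤ 3 / 2 * s := by linarith
  have hs0 : (0 : ℝ) < s := by linarith
  have key : ∀ ω : Ix V s n → Cn s b, usd G ω v ≤ ∑ g : Fin s,
      ((∑ z ∈ nb G v, if gt G ω z g then (1 : ℝ) else 0) +
      (-(1 / 2)) * (∑ p ∈ NA G v, if gt G ω p.1 g ∧ gt G ω p.2 g then (1 : ℝ) else 0) +
      ∑ T ∈ (nb G v).powersetCard 3, if ∀ z ∈ T, gt G ω z g then (1 : ℝ) else 0) := by
    intro ω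
    unfold usd
    rw [Pa_cf]
    exact sum_le_sum fun g _ => Pb_one G ω v g
  refine (ex_mono key).trans ?_
  rw [ex_sum]
  have hg : ∀ g ∈ (univ : Finset (Fin s)), ex (fun ω : Ix V s n → Cn s b =>
      ((∑ z ∈ nb G v, if gt G ω z g then (1 : ℝ) else 0) +
      (-(1 / 2)) * (∑ p ∈ NA G v, if gt G ω p.1 g ∧ gt G ω p.2 g then (1 : ℝ) else 0) +
      ∑ T ∈ (nb G v).powersetCard 3, if ∀ z ∈ T, gt G ω z g then (1 : ℝ) else 0)) ≤
      Δ * cA Δ s b - ((1 / 2) * ((Δ : ℝ) ^ 2 / N * (1 / (b : ℝ) ^ 2 * (1 - (2 * s + 2 * Δ) / b))) -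
      (Δ : ℝ) ^ 3 / 6 * (1 / (b : ℝ)) ^ 3) := by
    intro g _
    rw [ex_add, ex_add, ex_smul, ex_sum, ex_sum, ex_sum]
    have a1 : ∑ z ∈ nb G v, (ex fun ω : Ix V s n → Cn s b => if gt G ω z g then (1 : ℝ) else 0) =
        Δ * cA Δ s b := by
      have : ∀ z ∈ nb G v, (ex fun ω : Ix V s n → Cn s b => if gt G ω z g then (1 : ℝ) else 0) =
        cA Δ s b := fun z _ => by rw [ex_ind', gtp G hG]
      rw [sum_congr rfl this, sum_const, nsmul_eq_mul, show (nb G v).card = Δ from hG v]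
    have hb3 : 0 ≤ 1 / (b : ℝ) ^ 2 * (1 - (2 * s + 2 * Δ) / b) := by
      refine mul_nonneg (by positivity) ?_
      rw [sub_nonneg, div_le_one hb0, hb]
      push_cast
      have : (100 : ℝ) ≤ N ^ 3 := by
        have : (N : ℝ) ≤ N ^ 3 := le_self_pow₀ hN1 (by norm_num)
        exact le_trans (le_trans (by norm_num) hN) this
      nlinarith
    have a2 : (Δ : ℝ) ^ 2 / N * (1 / (b : ℝ) ^ 2 * (1 - (2 * s + 2 * Δ) / b)) ≤
        ∑ p ∈ NA G v, (ex fun ω : Ix V s n → Cn s b => if gt G ω p.1 g ∧ gt G ω p.2 g then (1 : ℝ) else 0) := by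
      calc (Δ : ℝ) ^ 2 / N * (1 / (b : ℝ) ^ 2 * (1 - (2 * s + 2 * Δ) / b)) ≤
          ((NA G v).card : ℝ) * (1 / (b : ℝ) ^ 2 * (1 - (2 * s + 2 * Δ) / b)) :=
            mul_le_mul_of_nonneg_right (nad hP G hG hgap v) hb3
        _ = ∑ p ∈ NA G v, (1 / (b : ℝ) ^ 2 * (1 - (2 * s + 2 * Δ) / b)) := by
            rw [sum_const, nsmul_eq_mul]
        _ ≤ _ := by
            refine sum_le_sum fun p hp => ?_
            rw [ex_ind']
            obtain ⟨-, h2, h3⟩ := mem_filter.1 hp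
            exact prp G hG p.1 p.2 h2 h3 g
    have a3 : ∑ T ∈ (nb G v).powersetCard 3, (ex fun ω : Ix V s n → Cn s b =>
        if ∀ z ∈ T, gt G ω z g then (1 : ℝ) else 0) ≤ (Δ : ℝ) ^ 3 / 6 * (1 / (b : ℝ)) ^ 3 := by
      calc ∑ T ∈ (nb G v).powersetCard 3, (ex fun ω : Ix V s n → Cn s b =>
          if ∀ z ∈ T, gt G ω z g then (1 : ℝ) else 0) ≤
          ∑ T ∈ (nb G v).powersetCard 3, (1 / (b : ℝ)) ^ 3 := by
            refine sum_le_sum fun T hT => ?_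
            rw [ex_ind']
            have := prs (n := n) (b := b) G T g
            rw [(mem_powersetCard.1 hT).2] at this
            exact this
        _ = ((Δ.choose 3 : ℕ) : ℝ) * (1 / (b : ℝ)) ^ 3 := by
            rw [sum_const, nsmul_eq_mul, card_powersetCard, show (nb G v).card = Δ from hG v]
        _ ≤ _ := by
            refine mul_le_mul_of_nonneg_right ?_ (by positivity)
            have := Nat.choose_le_pow_div (α := ℝ) 3 Δ
            refine this.trans (le_of_eq ?_)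
            norm_num [Nat.factorial]
    rw [a1]
    linarith
  refine (sum_le_sum hg).trans ?_
  rw [sum_const, nsmul_eq_mul, card_univ, Fintype.card_fin]
  have hnum := Pb_num hN hs0 hsD hs3
  have hbr : (b : ℝ) = N ^ 3 * s := by rw [hb]; push_cast; ring
  rw [hbr]
  linarith

end

end Pool.Agent.H84.LN
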