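import Pool.Agent.H84.LN.Pb

/-!
MP_b8729f, project LN, block C (helper84): phase A, concentration of the number of coloured neighbours and of the
number of their colours.
-/

set_option autoImplicit false
set_option linter.unusedSectionVars false

namespace Pool.Agent.H84.LN

open Finset Classical
open Pool.Agent.H65.GI
open Pool.Agent.H2.LN Pool.Agent.H12.LN

section
variable {V : Type} [Fintype V] {s n b : ℕ} {N Δ : ℕ}

/-- the vertices that may change -/
noncomputable def Dg (G : SimpleGraph V) (K : ℕ) (ω : Ix V s n → Cn s b) (v : V) (g : Fin s) : Finset V :=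
  (nb G v).filter (fun z => act ω z g ∧ ¬ bad G K ω v g)

theorem Pc_same (G : SimpleGraph V) (K : ℕ) (v : V) (g0 : Fin s) (ω ω' : Ix V s n → Cn s b)
    (h : Agb (some g0) ω ω') (z : V) (h1 : ¬ (act ω z g0 ∧ ¬ bad G K ω v g0))
    (h2 : ¬ (act ω' z g0 ∧ ¬ bad G K ω' v g0)) (g : Fin s) (hg : gt' G K v ω z g) : gt' G K v ω' z g := by
  have hne : g ≠ g0 := by
    rintro rfl
    exact h1 hg.1
  have hact : ∀ c, c ≠ g0 → ∀ u, (act ω u c ↔ act ω' u c) := fun c hc u =>
    Agb_act h u c (fun e => hc (Option.some.inj e))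
  have hbad : ∀ c, c ≠ g0 → (bad G K ω v c ↔ bad G K ω' v c) := fun c hc =>
    Agb_bad h G K v c (fun e => hc (Option.some.inj e))
  refine ⟨⟨(hact g hne z).1 hg.1.1, fun h3 => hg.1.2 ((hbad g hne).2 h3)⟩, fun g' hg' h3 => ?_, fun u hu h3 => ?_⟩
  · by_cases h4 : g' = g0
    · rw [h4] at h3
      exact h2 h3
    · exact hg.2.1 g' hg' ⟨(hact g' h4 z).2 h3.1, fun h5 => h3.2 ((hbad g' h4).1 h5)⟩
  · exact hg.2.2 u hu ((hact g hne u).2 h3)

theorem Pc_none (G : SimpleGraph V) (K : ℕ) (v : V) (ω ω' : Ix V s n → Cn s b)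
    (h : Agb none ω ω') (z : V) (g : Fin s) : gt' G K v ω z g ↔ gt' G K v ω' z g := by
  have hact : ∀ c u, (act ω u c ↔ act ω' u c) := fun c u => Agb_act h u c (by simp)
  have hbad : ∀ c, (bad G K ω v c ↔ bad G K ω' v c) := fun c => Agb_bad h G K v c (by simp)
  unfold gt'
  simp only [hact, hbad]

theorem gt'_uniq (G : SimpleGraph V) (K : ℕ) (v : V) (ω : Ix V s n → Cn s b) (z : V) (g g' : Fin s)
    (h : gt' G K v ω z g) (h' : gt' G K v ω z g') : g = g' := by
  by_contra hne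
  exact h.2.1 g' (fun e => hne e.symm) h'.1

theorem Pc_cnt (G : SimpleGraph V) (K : ℕ) (v : V) (j : Option (Fin s)) (ω ω' : Ix V s n → Cn s b)
    (h : Agb j ω ω') : cnt' G K ω v ≤ cnt' G K ω' v + (if j = none then 0 else 2 * (K : ℝ)) := by
  cases j with
  | none =>
    rw [if_pos rfl, add_zero]
    unfold cnt'
    have : (nb G v).filter (fun z => ∃ g, gt' G K v ω z g) = (nb G v).filter (fun z => ∃ g, gt' G K v ω' z g) :=
      filter_congr fun z _ => exists_congr fun g => Pc_none G K v ω ω' h z g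
    rw [this]
  | some g0 =>
    rw [if_neg (by simp)]
    unfold cnt'
    have : ((nb G v).filter (fun z => ∃ g, gt' G K v ω z g)).card ≤
        ((nb G v).filter (fun z => ∃ g, gt' G K v ω' z g)).card + 2 * K := by
      have h1 : (nb G v).filter (fun z => ∃ g, gt' G K v ω z g) ⊆
          (nb G v).filter (fun z => ∃ g, gt' G K v ω' z g) ∪ (Dg G K ω v g0 ∪ Dg G K ω' v g0) := by
        intro z hz
        obtain ⟨hz1, g, hg⟩ := mem_filter.1 hz
        rw [mem_union, mem_union]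
        by_cases h2 : act ω z g0 ∧ ¬ bad G K ω v g0
        · exact Or.inr (Or.inl (mem_filter.2 ⟨hz1, h2⟩))
        by_cases h3 : act ω' z g0 ∧ ¬ bad G K ω' v g0
        · exact Or.inr (Or.inr (mem_filter.2 ⟨hz1, h3⟩))
        exact Or.inl (mem_filter.2 ⟨hz1, g, Pc_same G K v g0 ω ω' h z h2 h3 g hg⟩)
      have h2 := card_le_card h1
      have h3 := card_union_le ((nb G v).filter (fun z => ∃ g, gt' G K v ω' z g))
        (Dg G K ω v g0 ∪ Dg G K ω' v g0)
      have h4 := card_union_le (Dg G K ω v g0) (Dg G K ω' v g0)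
      have h5 : (Dg G K ω v g0).card ≤ K := bad_le G K ω v g0
      have h6 : (Dg G K ω' v g0).card ≤ K := bad_le G K ω' v g0
      omega
    exact_mod_cast this

theorem Pc_usd (G : SimpleGraph V) (K : ℕ) (v : V) (j : Option (Fin s)) (ω ω' : Ix V s n → Cn s b)
    (h : Agb j ω ω') : usd' G K ω v ≤ usd' G K ω' v + (if j = none then 0 else 2 * (K : ℝ)) := by
  cases j with
  | none =>
    rw [if_pos rfl, add_zero]
    unfold usd'
    have : (univ.filter (fun g : Fin s => ∃ z ∈ nb G v, gt' G K v ω z g)) =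
        (univ.filter (fun g : Fin s => ∃ z ∈ nb G v, gt' G K v ω' z g)) :=
      filter_congr fun g _ => exists_congr fun z => and_congr_right fun _ => Pc_none G K v ω ω' h z g
    rw [this]
  | some g0 =>
    rw [if_neg (by simp)]
    have h1 : (univ.filter (fun g : Fin s => ∃ z ∈ nb G v, gt' G K v ω z g)) ⊆
        (univ.filter (fun g : Fin s => ∃ z ∈ nb G v, gt' G K v ω' z g)) ∪
        (univ.filter (fun g : Fin s => ∃ z ∈ Dg G K ω v g0 ∪ Dg G K ω' v g0, gt' G K v ω z g)) := by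
      intro g hg
      obtain ⟨-, z, hz1, hg1⟩ := mem_filter.1 hg
      rw [mem_union]
      by_cases h2 : act ω z g0 ∧ ¬ bad G K ω v g0
      · exact Or.inr (mem_filter.2 ⟨mem_univ g, z, mem_union_left _ (mem_filter.2 ⟨hz1, h2⟩), hg1⟩)
      by_cases h3 : act ω' z g0 ∧ ¬ bad G K ω' v g0
      · exact Or.inr (mem_filter.2 ⟨mem_univ g, z, mem_union_right _ (mem_filter.2 ⟨hz1, h3⟩), hg1⟩)
      exact Or.inl (mem_filter.2 ⟨mem_univ g, z, hz1, Pc_same G K v g0 ω ω' h z h2 h3 g hg1⟩)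
    have h2 := card_le_card h1
    have h3 := card_union_le (univ.filter (fun g : Fin s => ∃ z ∈ nb G v, gt' G K v ω' z g))
        (univ.filter (fun g : Fin s => ∃ z ∈ Dg G K ω v g0 ∪ Dg G K ω' v g0, gt' G K v ω z g))
    have h4 := card_col (Dg G K ω v g0 ∪ Dg G K ω' v g0) (fun z g => gt' G K v ω z g)
      (fun z g g' h h' => gt'_uniq G K v ω z g g' h h')
    have h5 : ((Dg G K ω v g0 ∪ Dg G K ω' v g0).filter (fun z => ∃ g, gt' G K v ω z g)).card ≤ 2 * K := by
      have h6 := card_filter_le (Dg G K ω v g0 ∪ Dg G K ω' v g0) (fun z => ∃ g, gt' G K v ω z g)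
      have h7 := card_union_le (Dg G K ω v g0) (Dg G K ω' v g0)
      have h8 : (Dg G K ω v g0).card ≤ K := bad_le G K ω v g0
      have h9 : (Dg G K ω' v g0).card ≤ K := bad_le G K ω' v g0
      omega
    unfold usd'
    have h6 : (((Dg G K ω v g0 ∪ Dg G K ω' v g0).filter (fun z => ∃ g, gt' G K v ω z g)).card : ℝ) ≤ 2 * K := by
      exact_mod_cast h5
    have h7 : ((univ.filter (fun g : Fin s => ∃ z ∈ nb G v, gt' G K v ω z g)).card : ℝ) ≤
        ((univ.filter (fun g : Fin s => ∃ z ∈ nb G v, gt' G K v ω' z g)).card : ℝ) +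
        ((univ.filter (fun g : Fin s => ∃ z ∈ Dg G K ω v g0 ∪ Dg G K ω' v g0, gt' G K v ω z g)).card : ℝ) := by
      exact_mod_cast h2.trans h3
    linarith

theorem trd (G : SimpleGraph V) (K : ℕ) (v : V) :
    BDb (bkc (V := V) (s := s) (n := n)) (fun ω : Ix V s n → Cn s b => cnt' G K ω v)
      (fun o => if o = none then 0 else 2 * (K : ℝ)) ∧
    BDb (bkc (V := V) (s := s) (n := n)) (fun ω : Ix V s n → Cn s b => usd' G K ω v)
      (fun o => if o = none then 0 else 2 * (K : ℝ)) := by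
  constructor
  · intro j ω ω' h
    have h1 := Pc_cnt G K v j ω ω' h
    have h2 := Pc_cnt G K v j ω' ω (Agb_symm h)
    show |cnt' G K ω v - cnt' G K ω' v| ≤ _
    rw [abs_le]
    constructor <;> linarith
  · intro j ω ω' h
    have h1 := Pc_usd G K v j ω ω' h
    have h2 := Pc_usd G K v j ω' ω (Agb_symm h)
    show |usd' G K ω v - usd' G K ω' v| ≤ _
    rw [abs_le]
    constructor <;> linarith

theorem Pc_eq (G : SimpleGraph V) (K : ℕ) (v : V) (ω : Ix V s n → Cn s b)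
    (h : ¬ ∃ g : Fin s, bad G K ω v g) : cnt' G K ω v = cnt G ω v ∧ usd' G K ω v = usd G ω v := by
  have h1 : ∀ z g, gt' G K v ω z g ↔ gt G ω z g := by
    intro z g
    have h2 : ∀ c, (act ω z c ∧ ¬ bad G K ω v c) ↔ act ω z c := fun c =>
      ⟨fun h3 => h3.1, fun h3 => ⟨h3, fun h4 => h ⟨c, h4⟩⟩⟩
    unfold gt' gt
    simp only [h2]
  constructor
  · unfold cnt' cnt
    simp only [h1]
  · unfold usd' usd
    simp only [h1]

theorem Pc_bd (G : SimpleGraph V) (hG : Reg G Δ) (K : ℕ) (v : V) (ω : Ix V s n → Cn s b) :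
    0 ≤ cnt G ω v ∧ cnt G ω v ≤ Δ ∧ 0 ≤ cnt' G K ω v ∧ 0 ≤ usd G ω v ∧ usd' G K ω v ≤ Δ := by
  refine ⟨Nat.cast_nonneg _, cnt_le G hG ω v, Nat.cast_nonneg _, Nat.cast_nonneg _, ?_⟩
  have h1 := card_col (nb G v) (fun z g => gt' G K v ω z g) (fun z g g' h h' => gt'_uniq G K v ω z g g' h h')
  refine h1.trans ?_
  have := (card_filter_le (nb G v) (fun z => ∃ g, gt' G K v ω z g)).trans (hG v).le
  exact_mod_cast this

theorem cup [NeZero b] (G : SimpleGraph V) (hG : Reg G Δ) (hs : 1 ≤ s) (K : ℕ) (hK : 1 ≤ K)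
    (hb : 2 * Δ ≤ b) (v : V) (t : ℝ) (ht : 0 ≤ t) :
    pr (fun ω : Ix V s n → Cn s b => cnt G ω v ≤ ex (fun ω' : Ix V s n → Cn s b => cnt G ω' v) -
      Δ * (s * (1 / 2 : ℝ) ^ K) - t) ≤ Real.exp (-(t ^ 2 / (8 * s * K ^ 2))) + s * (1 / 2 : ℝ) ^ K ∧
    pr (fun ω : Ix V s n → Cn s b => ex (fun ω' : Ix V s n → Cn s b => usd G ω' v) +
      Δ * (s * (1 / 2 : ℝ) ^ K) + t ≤ usd G ω v) ≤
      Real.exp (-(t ^ 2 / (8 * s * K ^ 2))) + s * (1 / 2 : ℝ) ^ K := by
  have hne : Nonempty (Cn s b) := ⟨(0, 1)⟩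
  have hs0 : (0 : ℝ) < s := by exact_mod_cast hs
  have hK0 : (0 : ℝ) < K := by exact_mod_cast hK
  have hsum : ∑ o : Option (Fin s), (if o = none then 0 else 2 * (K : ℝ)) ^ 2 ≤ 4 * s * K ^ 2 := by
    rw [Fintype.sum_option, if_pos rfl]
    simp only [reduceCtorEq, if_false, sum_const, card_univ, Fintype.card_fin, nsmul_eq_mul]
    nlinarith
  have hexp : Real.exp (-(t ^ 2 / (2 * (4 * s * K ^ 2)))) = Real.exp (-(t ^ 2 / (8 * s * K ^ 2))) := by
    congr 3
    ring
  have h1 := gmcdb' (bkc (V := V) (s := s) (n := n)) (fun ω : Ix V s n → Cn s b => cnt' G K ω v)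
    (fun o => if o = none then 0 else 2 * (K : ℝ)) (trd G K v).1 (4 * s * K ^ 2) t hsum (by positivity) ht
  have h2 := gmcdb (bkc (V := V) (s := s) (n := n)) (fun ω : Ix V s n → Cn s b => usd' G K ω v)
    (fun o => if o = none then 0 else 2 * (K : ℝ)) (trd G K v).2 (4 * s * K ^ 2) t hsum (by positivity) ht
  rw [hexp] at h1 h2
  have hbad := bpr (n := n) (s := s) G Δ hG K hb v
  have hbadΔ := mul_le_mul_of_nonneg_left hbad (Nat.cast_nonneg (α := ℝ) Δ)
  have m1 : ex (fun ω' : Ix V s n → Cn s b => cnt G ω' v) ≤ ex (fun ω' : Ix V s n → Cn s b => cnt' G K ω' v) +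
      Δ * pr (fun ω : Ix V s n → Cn s b => ∃ g : Fin s, bad G K ω v g) := by
    rw [ex_ind, ← ex_smul, ← ex_add]
    refine ex_mono fun ω => ?_
    obtain ⟨b1, b2, b3, b4, b5⟩ := Pc_bd G hG K v ω
    by_cases h : ∃ g : Fin s, bad G K ω v g
    · rw [if_pos h]
      linarith
    · rw [if_neg h, (Pc_eq G K v ω h).1]
      linarith
  have m2 : ex (fun ω' : Ix V s n → Cn s b => usd' G K ω' v) ≤ ex (fun ω' : Ix V s n → Cn s b => usd G ω' v) +
      Δ * pr (fun ω : Ix V s n → Cn s b => ∃ g : Fin s, bad G K ω v g) := by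
    rw [ex_ind, ← ex_smul, ← ex_add]
    refine ex_mono fun ω => ?_
    obtain ⟨b1, b2, b3, b4, b5⟩ := Pc_bd G hG K v ω
    by_cases h : ∃ g : Fin s, bad G K ω v g
    · rw [if_pos h]
      linarith
    · rw [if_neg h, (Pc_eq G K v ω h).2]
      linarith
  constructor
  · have h3 := pr_or (fun ω : Ix V s n → Cn s b => cnt' G K ω v ≤
      ex (fun ω' : Ix V s n → Cn s b => cnt' G K ω' v) - t) (fun ω => ∃ g : Fin s, bad G K ω v g)
    refine le_trans (pr_mono fun ω hω => ?_) (h3.trans (add_le_add h1 hbad))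
    by_cases h : ∃ g : Fin s, bad G K ω v g
    · exact Or.inr h
    · left
      rw [(Pc_eq G K v ω h).1]
      linarith
  · have h3 := pr_or (fun ω : Ix V s n → Cn s b => ex (fun ω' : Ix V s n → Cn s b => usd' G K ω' v) + t ≤
      usd' G K ω v) (fun ω => ∃ g : Fin s, bad G K ω v g)
    refine le_trans (pr_mono fun ω hω => ?_) (h3.trans (add_le_add h2 hbad))
    by_cases h : ∃ g : Fin s, bad G K ω v g
    · exact Or.inr h
    · left
      rw [(Pc_eq G K v ω h).2]
      linarith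

end

end Pool.Agent.H84.LN
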