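import Pool.Agent.H84.LN.Pa

/-!
MP_b8729f, project LN, block C (helper84): phase A, symmetry under permutations of the colours.
-/

set_option autoImplicit false
set_option linter.unusedSectionVars false

namespace Pool.Agent.H84.LN

open Finset Classical
open Pool.Agent.H65.GI
open Pool.Agent.H2.LN Pool.Agent.H12.LN

section
variable {V : Type} [Fintype V] {s n b : ℕ} {N Δ : ℕ}

/-- the permutation of the indices -/
def spi (V : Type) (n : ℕ) {s : ℕ} (σ : Equiv.Perm (Fin s)) : Equiv.Perm (Ix V s n) :=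
  Equiv.prodCongr (Equiv.refl V) (Equiv.optionCongr (Equiv.prodCongr σ (Equiv.refl (Fin (n + 1)))))

/-- the permutation of the values -/
def sta (b : ℕ) {s : ℕ} (σ : Equiv.Perm (Fin s)) : Equiv.Perm (Cn s b) :=
  Equiv.prodCongr (Equiv.refl (Fin b)) (Equiv.mulLeft σ⁻¹)

/-- the new outcome -/
def sT (σ : Equiv.Perm (Fin s)) (ω : Ix V s n → Cn s b) : Ix V s n → Cn s b :=
  fun i => sta b σ (ω (spi V n σ i))

theorem sT_act (σ : Equiv.Perm (Fin s)) (ω : Ix V s n → Cn s b) (v : V) (c : Fin s) :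
    act (sT σ ω) v c ↔ act ω v (σ c) := Iff.rfl

theorem sT_pm (σ : Equiv.Perm (Fin s)) (ω : Ix V s n → Cn s b) (v : V) (d : Fin s) :
    (pm (sT σ ω) v).symm d = (pm ω v).symm (σ d) := rfl

theorem sT_gt (G : SimpleGraph V) (σ : Equiv.Perm (Fin s)) (ω : Ix V s n → Cn s b) (z : V) (c : Fin s) :
    gt G (sT σ ω) z c ↔ gt G ω z (σ c) := by
  unfold gt
  refine and_congr (sT_act σ ω z c) (and_congr ?_ ?_)
  · constructor
    · intro h g' hg'
      have := h (σ.symm g') (fun e => hg' (by rw [← e, Equiv.apply_symm_apply]))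
      rw [sT_act, Equiv.apply_symm_apply] at this
      exact this
    · intro h g' hg'
      rw [sT_act]
      exact h (σ g') (fun e => hg' (σ.injective e))
  · exact Iff.rfl

theorem sT_YA (G : SimpleGraph V) (σ : Equiv.Perm (Fin s)) (ω : Ix V s n → Cn s b) (x : V) :
    x ∈ YA G (sT σ ω) ↔ x ∈ YA G ω := by
  unfold YA
  rw [mem_filter, mem_filter]
  refine and_congr_right fun _ => ?_
  constructor
  · intro h g hg
    refine h (σ.symm g) ?_
    rw [sT_gt, Equiv.apply_symm_apply]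
    exact hg
  · intro h g hg
    rw [sT_gt] at hg
    exact h _ hg

theorem sT_fre (G : SimpleGraph V) (σ : Equiv.Perm (Fin s)) (ω : Ix V s n → Cn s b) (x : V) (c : Fin s) :
    c ∈ fre G (sT σ ω) x ↔ σ c ∈ fre G ω x := by
  unfold fre
  rw [mem_filter, mem_filter]
  constructor
  · rintro ⟨-, h⟩
    exact ⟨mem_univ _, fun z hz h1 => h z hz ((sT_gt G σ ω z c).2 h1)⟩
  · rintro ⟨-, h⟩
    exact ⟨mem_univ _, fun z hz h1 => h z hz ((sT_gt G σ ω z c).1 h1)⟩

theorem sT_LA (G : SimpleGraph V) (l : ℕ) (σ : Equiv.Perm (Fin s)) (ω : Ix V s n → Cn s b) (x : V)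
    (c : Fin s) : c ∈ LA G l (sT σ ω) x ↔ σ c ∈ LA G l ω x := by
  unfold LA pre
  rw [mem_filter, mem_filter, sT_fre]
  refine and_congr_right fun _ => ?_
  have e : ((fre G (sT σ ω) x).filter (fun d => (pm (sT σ ω) x).symm d < (pm (sT σ ω) x).symm c)).card =
      ((fre G ω x).filter (fun d => (pm ω x).symm d < (pm ω x).symm (σ c))).card := by
    refine card_bij (fun d _ => σ d) ?_ ?_ ?_
    · intro d hd
      rw [mem_filter, sT_fre] at hd
      exact mem_filter.2 hd
    · intro a _ a' _ h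
      exact σ.injective h
    · intro d hd
      rw [mem_filter] at hd
      refine ⟨σ.symm d, mem_filter.2 ⟨(sT_fre G σ ω x _).2 ?_, ?_⟩, Equiv.apply_symm_apply σ d⟩
      · rw [Equiv.apply_symm_apply]
        exact hd.1
      · rw [sT_pm, sT_pm, Equiv.apply_symm_apply]
        exact hd.2
  rw [e]

theorem smA (G : SimpleGraph V) (l : ℕ) (x : V) (g g' : Fin s) :
    pr (fun ω : Ix V s n → Cn s b => x ∈ YA G ω ∧ g ∈ LA G l ω x) =
      pr (fun ω : Ix V s n → Cn s b => x ∈ YA G ω ∧ g' ∈ LA G l ω x) := by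
  have h := gpr_sym (spi V n (Equiv.swap g g')) (fun _ => sta b (Equiv.swap g g'))
    (fun ω : Ix V s n → Cn s b => x ∈ YA G ω ∧ g ∈ LA G l ω x)
  rw [← h]
  refine congrArg pr (funext fun ω => ?_)
  show (x ∈ YA G (sT (Equiv.swap g g') ω) ∧ g ∈ LA G l (sT (Equiv.swap g g') ω) x) =
    (x ∈ YA G ω ∧ g' ∈ LA G l ω x)
  rw [sT_YA, sT_LA, Equiv.swap_apply_left]

theorem pYA [NeZero b] (G : SimpleGraph V) (hG : Reg G Δ) (x : V) :
    pr (fun ω : Ix V s n → Cn s b => x ∈ YA G ω) = 1 - s * cA Δ s b := by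
  have hne : Nonempty (Cn s b) := ⟨(0, 1)⟩
  have h1 : (fun ω : Ix V s n → Cn s b => x ∈ YA G ω) = fun ω => ¬ ∃ g, gt G ω x g := by
    funext ω
    unfold YA
    rw [mem_filter]
    refine propext ⟨fun h ⟨g, hg⟩ => h.2 g hg, fun h => ⟨mem_univ x, fun g hg => h ⟨g, hg⟩⟩⟩
  rw [h1, pr_not]
  congr 1
  rw [ex_ind]
  have h2 : ∀ ω : Ix V s n → Cn s b, (if ∃ g, gt G ω x g then (1 : ℝ) else 0) =
      ∑ g : Fin s, if gt G ω x g then (1 : ℝ) else 0 := by
    intro ω
    rw [Pa_one x (gt G ω x) (fun g g' h h' => gt_uniq G ω x g g' h h')]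
  have h3 : ex (fun ω : Ix V s n → Cn s b => if ∃ g, gt G ω x g then (1 : ℝ) else 0) =
      ex (fun ω : Ix V s n → Cn s b => ∑ g : Fin s, if gt G ω x g then (1 : ℝ) else 0) := by
    refine congrArg ex (funext fun ω => ?_)
    rw [← h2 ω]
  have h4 : ex (fun ω : Ix V s n → Cn s b => ∑ g : Fin s, if gt G ω x g then (1 : ℝ) else 0) = s * cA Δ s b := by
    rw [ex_sum]
    have : ∀ g ∈ (univ : Finset (Fin s)), (ex fun ω : Ix V s n → Cn s b => if gt G ω x g then (1 : ℝ) else 0) =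
        cA Δ s b := fun g _ => by rw [ex_ind', gtp G hG]
    rw [sum_congr rfl this, sum_const, nsmul_eq_mul, card_univ, Fintype.card_fin]
  rw [← h4, ← h3]
  refine congrArg ex (funext fun ω => ?_)
  by_cases h : ∃ g, gt G ω x g
  · rw [if_pos h, if_pos h]
  · rw [if_neg h, if_neg h]

theorem wmA [NeZero b] (G : SimpleGraph V) (hG : Reg G Δ) (l : ℕ) (hl : l ≤ s) (x : V) (g : Fin s) :
    |pr (fun ω : Ix V s n → Cn s b => x ∈ YA G ω ∧ g ∈ LA G l ω x) - l / s * (1 - s * cA Δ s b)| ≤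
      pr (fun ω : Ix V s n → Cn s b => (fre G ω x).card < l) := by
  have hne : Nonempty (Cn s b) := ⟨(0, 1)⟩
  have hs1 : 0 < s := lt_of_le_of_lt (Nat.zero_le _) g.2
  have hs0 : (0 : ℝ) < s := by exact_mod_cast hs1
  obtain ⟨E, hE⟩ : ∃ E, E = pr (fun ω : Ix V s n → Cn s b => x ∈ YA G ω ∧ g ∈ LA G l ω x) := ⟨_, rfl⟩
  obtain ⟨F, hF⟩ : ∃ F, F = pr (fun ω : Ix V s n → Cn s b => (fre G ω x).card < l) := ⟨_, rfl⟩
  have hF0 : 0 ≤ F := by rw [hF]; exact pr_nonneg _
  have hsum : (s : ℝ) * E = ex (fun ω : Ix V s n → Cn s b => if x ∈ YA G ω then ((LA G l ω x).card : ℝ) else 0) := by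
    have h1 : (s : ℝ) * E = ∑ g' : Fin s, pr (fun ω : Ix V s n → Cn s b => x ∈ YA G ω ∧ g' ∈ LA G l ω x) := by
      rw [sum_congr rfl fun g' _ => smA G l x g' g, ← hE, sum_const, nsmul_eq_mul, card_univ, Fintype.card_fin]
    rw [h1]
    have h2 : ∀ g' ∈ (univ : Finset (Fin s)), pr (fun ω : Ix V s n → Cn s b => x ∈ YA G ω ∧ g' ∈ LA G l ω x) =
        ex (fun ω : Ix V s n → Cn s b => if x ∈ YA G ω ∧ g' ∈ LA G l ω x then (1 : ℝ) else 0) := fun g' _ =>
      (ex_ind' _ _).symm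
    rw [sum_congr rfl h2, ← ex_sum]
    refine congrArg ex (funext fun ω => ?_)
    by_cases h : x ∈ YA G ω
    · rw [if_pos h]
      have h3 : ∀ g' ∈ (univ : Finset (Fin s)), (if x ∈ YA G ω ∧ g' ∈ LA G l ω x then (1 : ℝ) else 0) =
          if g' ∈ LA G l ω x then (1 : ℝ) else 0 := by
        intro g' _
        by_cases h4 : g' ∈ LA G l ω x
        · rw [if_pos ⟨h, h4⟩, if_pos h4]
        · rw [if_neg fun h5 => h4 h5.2, if_neg h4]
      rw [sum_congr rfl h3, ← Pa_cf]
      congr 2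
      ext c
      simp
    · rw [if_neg h]
      refine sum_eq_zero fun g' _ => ?_
      rw [if_neg fun h5 => h h5.1]
  have hY := pYA (n := n) (b := b) (s := s) G hG x
  have hle : (s : ℝ) * E ≤ l * (1 - s * cA Δ s b) := by
    rw [hsum, ← hY, ← ex_ind' _ (fun ω => Classical.propDecidable _), ← ex_smul]
    refine ex_mono fun ω => ?_
    by_cases h : x ∈ YA G ω
    · rw [if_pos h, if_pos h, mul_one]
      have : (LA G l ω x).card ≤ l := by
        unfold LA
        rw [pre_card]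
        exact min_le_left _ _
      exact_mod_cast this
    · rw [if_neg h, if_neg h, mul_zero]
  have hge : l * (1 - s * cA Δ s b) ≤ (s : ℝ) * E + l * F := by
    rw [hsum, ← hY, hF, ← ex_ind' (fun ω : Ix V s n → Cn s b => x ∈ YA G ω) (fun ω => Classical.propDecidable _),
      ← ex_ind' (fun ω : Ix V s n → Cn s b => (fre G ω x).card < l) (fun ω => Classical.propDecidable _),
      ← ex_smul, ← ex_smul, ← ex_add]
    refine ex_mono fun ω => ?_
    by_cases h : x ∈ YA G ω
    · rw [if_pos h, if_pos h, mul_one]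
      by_cases h2 : (fre G ω x).card < l
      · rw [if_pos h2, mul_one]
        have : (0 : ℝ) ≤ ((LA G l ω x).card : ℝ) := Nat.cast_nonneg _
        linarith
      · rw [if_neg h2, mul_zero, add_zero]
        have : l ≤ (LA G l ω x).card := by
          unfold LA
          rw [pre_card]
          exact le_min le_rfl (not_lt.1 h2)
        exact_mod_cast this
    · rw [if_neg h, if_neg h, mul_zero, zero_add]
      refine mul_nonneg (Nat.cast_nonneg _) ?_
      split_ifs <;> norm_num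
  rw [← hE, ← hF]
  have hls : (l : ℝ) / s ≤ 1 := by
    rw [div_le_one hs0]
    exact_mod_cast hl
  have e1 : (l : ℝ) / s * (1 - s * cA Δ s b) = (l * (1 - s * cA Δ s b)) / s := by ring
  rw [e1, abs_le]
  have hlF : (l : ℝ) * F ≤ s * F := mul_le_mul_of_nonneg_right (by exact_mod_cast hl) hF0
  constructor
  · have : (l * (1 - s * cA Δ s b)) / s ≤ E + F := by
      rw [div_le_iff₀ hs0]
      linarith
    linarith
  · have : E ≤ (l * (1 - s * cA Δ s b)) / s := by
      rw [le_div_iff₀ hs0]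
      linarith
    linarith

end

end Pool.Agent.H84.LN
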