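import Pool.Agent.H84.LN.Pc
import Pool.Agent.H84.LN.Pd

/-!
MP_b8729f, project LN, block C (helper84): phase A.
-/

set_option autoImplicit false
set_option linter.unusedSectionVars false

namespace Pool.Agent.H84.LN

open Finset Classical
open Pool.Agent.H65.GI
open Pool.Agent.H2.LN Pool.Agent.H12.LN

section
variable {V : Type} [Fintype V] {s n b : ℕ} {N Δ : ℕ} {ι : Type}

theorem Pe_s (hP : Pm N Δ) (hs1 : (Δ : ℝ) - Δ / N ^ 30 ≤ s) : (Δ : ℝ) ≤ 3 / 2 * s ∧ (0 : ℝ) < s := by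
  obtain ⟨hN0, hD0⟩ := Ev_pos hP
  have hN : (2 : ℝ) ^ 40 ≤ N := by exact_mod_cast hP.big
  have hN1 : (1 : ℝ) ≤ N := le_trans (by norm_num) hN
  have h30 : (Δ : ℝ) / N ^ 30 ≤ Δ / 3 := by
    refine div_le_div_of_nonneg_left hD0.le (by norm_num) ?_
    have : (N : ℝ) ≤ N ^ 30 := le_self_pow₀ hN1 (by norm_num)
    refine le_trans ?_ this
    exact le_trans (by norm_num) hN
  constructor <;> linarith

theorem Pe_b (hP : Pm N Δ) (hs1 : (Δ : ℝ) - Δ / N ^ 30 ≤ s) (hb : b = N ^ 3 * s) :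
    (100 : ℝ) * Δ ≤ b ∧ 2 * Δ ≤ b := by
  obtain ⟨hN0, hD0⟩ := Ev_pos hP
  obtain ⟨h1, h2⟩ := Pe_s hP hs1
  have hN : (2 : ℝ) ^ 40 ≤ N := by exact_mod_cast hP.big
  have hN1 : (1 : ℝ) ≤ N := le_trans (by norm_num) hN
  have h3 : (150 : ℝ) ≤ N ^ 3 := by
    have : (N : ℝ) ≤ N ^ 3 := le_self_pow₀ hN1 (by norm_num)
    exact le_trans (le_trans (by norm_num) hN) this
  have h4 : (100 : ℝ) * Δ ≤ b := by
    rw [hb]
    push_cast
    have : 150 * (s : ℝ) ≤ N ^ 3 * s := mul_le_mul_of_nonneg_right h3 h2.le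
    linarith
  refine ⟨h4, ?_⟩
  have : (2 : ℝ) * Δ ≤ b := by linarith
  exact_mod_cast this

theorem Pe_cup [NeZero b] (hP : Pm N Δ) (G : SimpleGraph V) (hG : Reg G Δ) (hgap : Gap G N Δ)
    (hs1 : (Δ : ℝ) - Δ / N ^ 30 ≤ s) (hs2 : s ≤ Δ) (hb : b = N ^ 3 * s) (l1 n1 : ℕ)
    (hl1 : (l1 : ℝ) ≤ s - Δ * s * cA Δ s b + Δ / (3 * N ^ 7) - 2 * dv Δ)
    (hn1 : (Δ : ℝ) - Δ * s * cA Δ s b + 2 * dv Δ ≤ n1) (v : V) :
    pr (fun ω : Ix V s n → Cn s b => (fre G ω v).card < l1) ≤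
      Real.exp (-(N : ℝ) ^ 6) + Δ * (1 / 2 : ℝ) ^ (N ^ 5) ∧
    pr (fun ω : Ix V s n → Cn s b => (n1 : ℝ) < Δ - cnt G ω v) ≤
      Real.exp (-(N : ℝ) ^ 6) + Δ * (1 / 2 : ℝ) ^ (N ^ 5) := by
  obtain ⟨hN0, hD0⟩ := Ev_pos hP
  obtain ⟨-, hs0⟩ := Pe_s hP hs1
  obtain ⟨-, hb2⟩ := Pe_b hP hs1 hb
  have hs : 1 ≤ s := by exact_mod_cast hs0
  have hsD : (s : ℝ) ≤ Δ := by exact_mod_cast hs2
  have hNn : 1 ≤ N := le_trans (by norm_num) hP.big
  have hN5 : 1 ≤ N ^ 5 := Nat.one_le_pow _ _ hNn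
  have hdv := (Ev_dl hP).2.2
  obtain ⟨c1, c2⟩ := cup (n := n) (b := b) G hG hs (N ^ 5) hN5 hb2 v (dv Δ) (by linarith)
  have a3 : Real.exp (-(dv Δ ^ 2 / (8 * s * ((N ^ 5 : ℕ) : ℝ) ^ 2))) ≤ Real.exp (-(N : ℝ) ^ 6) := by
    refine Real.exp_le_exp.2 (neg_le_neg ((nm1 hP).2.2.2.trans ?_))
    have hx : (0 : ℝ) < ((N ^ 5 : ℕ) : ℝ) := by exact_mod_cast hN5
    rw [div_pow, div_div]
    refine div_le_div_of_nonneg_left (by positivity) (by positivity) ?_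
    have : (0 : ℝ) ≤ ((N ^ 5 : ℕ) : ℝ) ^ 2 := by positivity
    nlinarith
  have a4 : (s : ℝ) * (1 / 2 : ℝ) ^ (N ^ 5) ≤ Δ * (1 / 2 : ℝ) ^ (N ^ 5) :=
    mul_le_mul_of_nonneg_right hsD (by positivity)
  have a5 : (Δ : ℝ) * (s * (1 / 2 : ℝ) ^ (N ^ 5)) ≤ 1 / 4 :=
    (mul_le_mul_of_nonneg_left a4 hD0.le).trans (nm2 hP).1
  have m1 := cmn (n := n) (b := b) (s := s) G hG v
  have m2 := dmn (n := n) hP G hG hgap hs1 hs2 hb v
  constructor
  · refine le_trans (pr_mono fun ω hω => ?_) (c2.trans (add_le_add a3 a4))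
    have h1 : (((fre G ω v).card : ℕ) : ℝ) < l1 := by exact_mod_cast hω
    rw [fre_card] at h1
    linarith
  · refine le_trans (pr_mono fun ω hω => ?_) (c1.trans (add_le_add a3 a4))
    rw [m1]
    linarith

theorem evA [NeZero b] (hP : Pm N Δ) (G : SimpleGraph V) (hG : Reg G Δ) (hgap : Gap G N Δ)
    (hs1 : (Δ : ℝ) - Δ / N ^ 30 ≤ s) (hs2 : s ≤ Δ) (hb : b = N ^ 3 * s)
    [Fintype ι] (hι : (Fintype.card ι : ℝ) ≤ Real.exp (N ^ 4)) (f : V → ι → V → ℝ) (h : V → ι → V → V → ℝ)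
    (Fr : V → ι → Finset (V × Fin s)) (hF : Top.Fam G N Δ s f h Fr) (l1 n1 : ℕ) (hl : l1 ≤ s)
    (hl1 : (l1 : ℝ) ≤ s - Δ * s * cA Δ s b + Δ / (3 * N ^ 7) - 2 * dv Δ)
    (hn1 : (Δ : ℝ) - Δ * s * cA Δ s b + 2 * dv Δ ≤ n1)
    (lam : ℝ) (hl0 : 0 ≤ lam) (hlam1 : lam ≤ 1) :
    ∃ ω : Ix V s 0 → Cn s b, (∀ v, l1 ≤ (fre G ω v).card) ∧ (∀ v, (Δ : ℝ) - cnt G ω v ≤ n1) ∧
      (∀ v i g, |Ft (f v i) (colA G ω) g - cA Δ s b * ∑ x, f v i x| ≤ eA Δ) ∧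
      (∀ v i g, |Wt (f v i) (YA G ω) (LA G l1 ω) g - l1 / s * (1 - s * cA Δ s b) * ∑ x, f v i x| ≤ eA Δ) ∧
      (∀ v i g g', Ph lam (h v i) (colA G ω) g g' ≤
        (lam + 1 / b) ^ 2 * (∑ x, ∑ y, h v i x y) + dl Δ) ∧
      ∀ v i, (((Fr v i).filter (fun p => act ω p.1 p.2)).card : ℝ) ≤ 6 * Δ / b + 2 * N ^ 6 := by
  have hne : Nonempty (Cn s b) := ⟨(0, 1)⟩
  obtain ⟨hN0, hD0⟩ := Ev_pos hP
  obtain ⟨hd0, hE0, hdv⟩ := Ev_dl hP
  obtain ⟨n2a, n2b, n2c, n2d⟩ := nm2 hP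
  obtain ⟨B, hB⟩ : ∃ B : V → Kd ι s → (Ix V s 0 → Cn s b) → Prop, B = fun v k ω =>
    match k with
    | .x => (fre G ω v).card < l1 ∨ (n1 : ℝ) < Δ - cnt G ω v
    | .e1 i g => eA Δ < |Sm (f v i) (fun x => gt G ω x g) - cA Δ s b * ∑ x, f v i x|
    | .e2 i g => eA Δ < |Sm (f v i) (fun x => x ∈ YA G ω ∧ g ∈ LA G l1 ω x) -
        l1 / s * (1 - s * cA Δ s b) * ∑ x, f v i x|
    | .e3 i g g' => Ph (lam + 1 / b) (h v i) (fun _ => none) g g' + dl Δ ≤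
        Ph lam (h v i) (colA G ω) g g'
    | .e4 i => 3 * (((2 * Δ : ℕ) : ℝ) / b) + 2 * (N : ℝ) ^ 6 ≤
        (((Fr v i).filter (fun p => act ω p.1 p.2)).card : ℝ) := ⟨_, rfl⟩
  have hloc : ∀ v k ω ω', Agr (bl G v (60 * N ^ 3 + 3)) ω ω' → (B v k ω ↔ B v k ω') := by
    intro v k ω ω' hag
    rw [hB]
    cases k with
    | x =>
      have := LA_agr G v ω ω' (Agr_sub hag (bl_mono G v (by omega))) 0
      show ((fre G ω v).card < l1 ∨ (n1 : ℝ) < Δ - cnt G ω v) ↔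
        ((fre G ω' v).card < l1 ∨ (n1 : ℝ) < Δ - cnt G ω' v)
      rw [this.1, this.2.2.1]
    | e1 i g =>
      show (eA Δ < |Sm (f v i) (fun x => gt G ω x g) - cA Δ s b * ∑ x, f v i x|) ↔
        (eA Δ < |Sm (f v i) (fun x => gt G ω' x g) - cA Δ s b * ∑ x, f v i x|)
      rw [Sm_congr (f v i) (fun x => gt G ω x g) (fun x => gt G ω' x g) _ (hF.lin v i).sp
        (fun x hx => (gt_agr G x ω ω' (Agr_bl hag hx (by omega))).1 g)]
    | e2 i g =>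
      show (eA Δ < |Sm (f v i) (fun x => x ∈ YA G ω ∧ g ∈ LA G l1 ω x) - _|) ↔
        (eA Δ < |Sm (f v i) (fun x => x ∈ YA G ω' ∧ g ∈ LA G l1 ω' x) - _|)
      rw [Sm_congr (f v i) (fun x => x ∈ YA G ω ∧ g ∈ LA G l1 ω x)
        (fun x => x ∈ YA G ω' ∧ g ∈ LA G l1 ω' x) _ (hF.lin v i).sp
        (fun x hx => by
          rw [(LA_agr G x ω ω' (Agr_bl hag hx (by omega)) l1).2.1]
          exact and_congr_left fun _ => (gt_agr G x ω ω' (Agr_bl hag hx (by omega))).2.2)]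
    | e3 i g g' =>
      show (_ ≤ Ph lam (h v i) (colA G ω) g g') ↔ (_ ≤ Ph lam (h v i) (colA G ω') g g')
      rw [Ev_Ph G v (h v i) (hF.bil v i).spx (hF.bil v i).spy lam (colA G ω)
        (colA G ω') (fun x hx => (gt_agr G x ω ω' (Agr_bl hag hx (by omega))).2.1) g g']
    | e4 i =>
      show (3 * (((2 * Δ : ℕ) : ℝ) / b) + 2 * (N : ℝ) ^ 6 ≤
        (((Fr v i).filter (fun p => act ω p.1 p.2)).card : ℝ)) ↔
        (3 * (((2 * Δ : ℕ) : ℝ) / b) + 2 * (N : ℝ) ^ 6 ≤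
        (((Fr v i).filter (fun p => act ω' p.1 p.2)).card : ℝ))
      have : (Fr v i).filter (fun p => act ω p.1 p.2) = (Fr v i).filter (fun p => act ω' p.1 p.2) :=
        filter_congr fun p hp => Agr_act hag (bl_mono G v (by omega) (hF.fr2 v i p hp)) p.2
      rw [this]
  have hlm : ∀ (v : V) (i : ι) (P : V → (Ix V s 0 → Cn s b) → Prop),
      (∀ x ω ω', Agr (bl G x 2) ω ω' → (P x ω ↔ P x ω')) →
      pr (fun ω => eA Δ / 2 ≤ |Sm (f v i) (fun x => P x ω) - ∑ x, f v i x * pr (P x)|) ≤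
        2 * Real.exp (-(N : ℝ) ^ 6) := by
    intro v i P hPl
    have h1 := lmc (n := 0) (b := b) G Δ hG 2 (f v i) (hF.lin v i).nn (16 * N ^ 3 / Δ ^ 12) (hF.lin v i).l2
      (by positivity) P hPl (eA Δ / 2) (by positivity)
    refine h1.trans (mul_le_mul_of_nonneg_left (Real.exp_le_exp.2 (neg_le_neg ?_)) (by norm_num))
    exact (nm1 hP).2.2.1
  have hpr : ∀ v k, pr (B v k) ≤ 4 * Real.exp (-((N : ℝ) ^ 5 / 2)) := by
    intro v k
    have hex := Ev_exp hP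
    have hp := Real.exp_pos (-((N : ℝ) ^ 5 / 2))
    obtain ⟨u1, u2⟩ := Pe_cup (n := 0) hP G hG hgap hs1 hs2 hb l1 n1 hl1 hn1 v
    rw [hB]
    cases k with
    | x =>
      have := pr_or (fun ω : Ix V s 0 → Cn s b => (fre G ω v).card < l1) (fun ω => (n1 : ℝ) < Δ - cnt G ω v)
      show pr (fun ω : Ix V s 0 → Cn s b => (fre G ω v).card < l1 ∨ (n1 : ℝ) < Δ - cnt G ω v) ≤ _
      linarith
    | e1 i g =>
      have h1 := hlm v i (fun x ω => gt G ω x g) (fun x ω ω' hag =>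
        (gt_agr G x ω ω' (Agr_sub hag (bl_mono G x (by norm_num)))).1 g)
      have h2 : ∑ x, f v i x * pr (fun ω : Ix V s 0 → Cn s b => gt G ω x g) = cA Δ s b * ∑ x, f v i x := by
        rw [mul_sum]
        refine sum_congr rfl fun x _ => ?_
        rw [gtp G hG, mul_comm]
      rw [h2] at h1
      refine le_trans (pr_mono fun ω hω => ?_) (h1.trans (by linarith))
      have hω' : eA Δ < |Sm (f v i) (fun x => gt G ω x g) - cA Δ s b * ∑ x, f v i x| := hω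
      linarith
    | e2 i g =>
      have h1 := hlm v i (fun x ω => x ∈ YA G ω ∧ g ∈ LA G l1 ω x) (fun x ω ω' hag => by
        show (x ∈ YA G ω ∧ g ∈ LA G l1 ω x) ↔ (x ∈ YA G ω' ∧ g ∈ LA G l1 ω' x)
        rw [(LA_agr G x ω ω' hag l1).2.1]
        exact and_congr_left fun _ => (gt_agr G x ω ω' (Agr_sub hag (bl_mono G x (by norm_num)))).2.2)
      have h2 : |(∑ x, f v i x * pr (fun ω : Ix V s 0 → Cn s b => x ∈ YA G ω ∧ g ∈ LA G l1 ω x)) -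
          l1 / s * (1 - s * cA Δ s b) * ∑ x, f v i x| ≤ eA Δ / 2 := by
        rw [mul_sum, ← sum_sub_distrib]
        have h3 : ∀ x, |f v i x * pr (fun ω : Ix V s 0 → Cn s b => x ∈ YA G ω ∧ g ∈ LA G l1 ω x) -
            l1 / s * (1 - s * cA Δ s b) * f v i x| ≤ f v i x * (eA Δ / 2) := by
          intro x
          have h4 := wmA (n := 0) (b := b) G hG l1 hl x g
          obtain ⟨u1', -⟩ := Pe_cup (n := 0) hP G hG hgap hs1 hs2 hb l1 n1 hl1 hn1 x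
          have h5 : f v i x * pr (fun ω : Ix V s 0 → Cn s b => x ∈ YA G ω ∧ g ∈ LA G l1 ω x) -
            l1 / s * (1 - s * cA Δ s b) * f v i x =
            f v i x * (pr (fun ω : Ix V s 0 → Cn s b => x ∈ YA G ω ∧ g ∈ LA G l1 ω x) -
            l1 / s * (1 - s * cA Δ s b)) := by ring
          rw [h5, abs_mul, abs_of_nonneg ((hF.lin v i).nn x)]
          exact mul_le_mul_of_nonneg_left (by linarith) ((hF.lin v i).nn x)
        refine (abs_sum_le_sum_abs _ _).trans ((sum_le_sum fun x _ => h3 x).trans ?_)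
        rw [← sum_mul]
        have h6 := (hF.lin v i).l1
        calc (∑ x, f v i x) * (eA Δ / 2) ≤ 1 * (eA Δ / 2) := mul_le_mul_of_nonneg_right h6 (by positivity)
          _ = eA Δ / 2 := one_mul _
      refine le_trans (pr_mono fun ω hω => ?_) (h1.trans (by linarith))
      have hω' : eA Δ < |Sm (f v i) (fun x => x ∈ YA G ω ∧ g ∈ LA G l1 ω x) -
        l1 / s * (1 - s * cA Δ s b) * ∑ x, f v i x| := hω
      have h7 := abs_sub_le (Sm (f v i) (fun x => x ∈ YA G ω ∧ g ∈ LA G l1 ω x))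
        (∑ x, f v i x * pr (fun ω : Ix V s 0 → Cn s b => x ∈ YA G ω ∧ g ∈ LA G l1 ω x))
        (l1 / s * (1 - s * cA Δ s b) * ∑ x, f v i x)
      linarith
    | e3 i g g' =>
      refine (ev3 (n := 0) hP G hG (h v i) v (hF.bil v i) (fun _ => none) (fun x ω => colA G ω x)
        (fun x ω ω' hag => (gt_agr G x ω ω' hag).2.1) ?_ lam hl0 hlam1 g g').trans (by linarith)
      intro x ω
      right
      exact ⟨rfl, fun c hc => ((colA_some G ω x c).1 hc).1⟩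
    | e4 i =>
      exact (frg (n := 0) (b := b) (Fr v i) (2 * Δ) (hF.fr1 v i) ((N : ℝ) ^ 6) (by positivity)).trans
        (by linarith)
  obtain ⟨ω, hω⟩ := uni G Δ hG (60 * N ^ 3 + 3) B (fun v k => Agr_loc fun ω ω' hag =>
    propext (hloc v k ω ω' hag)) (4 * Real.exp (-((N : ℝ) ^ 5 / 2))) (by positivity) hpr
    (nm3 hP _ (Kd_le hP hs2 hι))
  rw [hB] at hω
  refine ⟨ω, fun v => ?_, fun v => ?_, fun v i g => ?_, fun v i g => ?_, fun v i g g' => ?_, fun v i => ?_⟩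
  · exact not_lt.1 fun hc => hω v .x (Or.inl hc)
  · exact not_lt.1 fun hc => hω v .x (Or.inr hc)
  · rw [Ft_Sm, Sm_congr (f v i) _ (fun x => gt G ω x g) univ (fun x hx => absurd (mem_univ x) hx)
      (fun x _ => colA_some G ω x g)]
    exact not_lt.1 (hω v (.e1 i g))
  · rw [Wt_Sm]
    exact not_lt.1 (hω v (.e2 i g))
  · have h1 := (not_le.1 (hω v (.e3 i g g'))).le
    refine h1.trans (le_of_eq ?_)
    congr 1
    unfold Ph
    rw [mul_sum]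
    refine sum_congr rfl fun x _ => ?_
    rw [mul_sum]
    refine sum_congr rfl fun y _ => ?_
    simp only [reduceCtorEq, if_false]
    ring
  · have := (not_le.1 (hω v (.e4 i))).le
    refine this.trans (le_of_eq ?_)
    push_cast
    ring

end

end Pool.Agent.H84.LN
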