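import Pool.Agent.H84.LN.Ev
import Pool.Agent.H84.LN.Unc

/-!
MP_b8729f, project LN, block C (helper84): one round of the nibble, and the last round.
-/

set_option autoImplicit false
set_option linter.unusedSectionVars false

namespace Pool.Agent.H84.LN

open Finset Classical
open Pool.Agent.H65.GI
open Pool.Agent.H2.LN Pool.Agent.H12.LN

section
variable {V : Type} [Fintype V] {s n b : ℕ} {N Δ : ℕ} {ι : Type}

theorem Rnd_Ft (G : SimpleGraph V) (f : V → ℝ) {l : ℕ} (Y : Finset V)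
    (L : V → Finset (Fin s)) (col : V → Option (Fin s)) (hS : St G l n Y L col) (ω : Ix V s n → Cn s b)
    (g : Fin s) : Ft f (nf (Cg G s) Y L col ω) g = Ft f col g +
      Sm f (fun x => x ∈ Y ∧ nw (Cg G s) Y L ω x = some g) := by
  rw [Ft_Sm, Ft_Sm]
  unfold Sm
  rw [← sum_add_distrib]
  refine sum_congr rfl fun x _ => ?_
  by_cases hx : x ∈ Y
  · have h1 : col x = none := hS.ok.un x hx
    have h2 : ¬ (col x = some g) := by rw [h1]; simp
    have h3 : nf (Cg G s) Y L col ω x = nw (Cg G s) Y L ω x := by simp only [nf, if_pos hx]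
    rw [if_neg (show ¬ (fun x => col x = some g) x from h2), zero_add]
    by_cases h4 : nw (Cg G s) Y L ω x = some g
    · rw [if_pos (show (fun x => nf (Cg G s) Y L col ω x = some g) x from h3.trans h4),
        if_pos (show (fun x => x ∈ Y ∧ nw (Cg G s) Y L ω x = some g) x from ⟨hx, h4⟩)]
    · rw [if_neg (show ¬ (fun x => nf (Cg G s) Y L col ω x = some g) x from fun h5 => h4 (h3.symm.trans h5)),
        if_neg (show ¬ (fun x => x ∈ Y ∧ nw (Cg G s) Y L ω x = some g) x from fun h5 => h4 h5.2)]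
  · have h3 : nf (Cg G s) Y L col ω x = col x := by simp only [nf, if_neg hx]
    rw [if_neg (show ¬ (fun x => x ∈ Y ∧ nw (Cg G s) Y L ω x = some g) x from fun h5 => hx h5.1), add_zero]
    by_cases h4 : col x = some g
    · rw [if_pos (show (fun x => nf (Cg G s) Y L col ω x = some g) x from h3.trans h4),
        if_pos (show (fun x => col x = some g) x from h4)]
    · rw [if_neg (show ¬ (fun x => nf (Cg G s) Y L col ω x = some g) x from fun h5 => h4 (h3.symm.trans h5)),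
        if_neg (show ¬ (fun x => col x = some g) x from h4)]

theorem Rnd_nY (G : SimpleGraph V) (Y : Finset V) (L : V → Finset (Fin s)) (ω : Ix V s n → Cn s b) (x : V) :
    x ∈ nY (Cg G s) Y L ω ↔ x ∈ Y ∧ nw (Cg G s) Y L ω x = none := by
  unfold nY
  exact mem_filter

theorem Rnd_Wt (G : SimpleGraph V) (f : V → ℝ) (l' : ℕ) (Y : Finset V)
    (L : V → Finset (Fin s)) (ω : Ix V s n → Cn s b) (g : Fin s) :
    Wt f (nY (Cg G s) Y L ω) (nl (Cg G s) Y L l' ω) g =
      Sm f (fun x => x ∈ Y ∧ nw (Cg G s) Y L ω x = none ∧ g ∈ nl (Cg G s) Y L l' ω x) := by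
  rw [Wt_Sm]
  exact Sm_congr f _ _ univ (fun x hx => absurd (mem_univ x) hx) (fun x _ => by rw [Rnd_nY, and_assoc])

theorem nxt [NeZero b] (G : SimpleGraph V) (f : V → ι → V → ℝ) (h : V → ι → V → V → ℝ)
    (hh : ∀ v i x y, 0 ≤ h v i x y)
    (Fr : V → ι → Finset (V × Fin s)) {l : ℕ} (hl : 1 ≤ l) (l' : ℕ) (hll : l' ≤ l) (Y : Finset V)
    (L : V → Finset (Fin s)) (col : V → Option (Fin s)) (hS : St G l n Y L col)
    {lamT φ w e1 e2 lam β e' K : ℝ} (hlam : 0 ≤ lam) (he : 0 ≤ e2) (hβ : 1 / (b : ℝ) ≤ β)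
    (hT : Ts f h Fr lamT φ w e1 e2 (lam + β) e' K Y L col) (ω : Ix V s n → Cn s b) (d k : ℝ)
    (h1 : ∀ v i g, |Sm (f v i) (fun x => x ∈ Y ∧ nw (Cg G s) Y L ω x = some g) -
        cc b n l * Wt (f v i) Y L g| ≤ d)
    (h2 : ∀ v i g, |Sm (f v i) (fun x => x ∈ Y ∧ nw (Cg G s) Y L ω x = none ∧
        g ∈ nl (Cg G s) Y L l' ω x) - qq b n l l' * Wt (f v i) Y L g| ≤ d)
    (h3 : ∀ v i g g', Ph lam (h v i) (nf (Cg G s) Y L col ω) g g' ≤
        Ph (lam + 1 / b) (h v i) col g g' + d)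
    (h4 : ∀ v i, (((Fr v i).filter (fun p => act ω p.1 p.2)).card : ℝ) ≤ k) :
    Ts f h Fr lamT (φ + cc b n l * w) (qq b n l l' * w) (e1 + e2 / b + d) (e2 + d) lam (e' + d) (K + k)
      (nY (Cg G s) Y L ω) (nl (Cg G s) Y L l' ω) (nf (Cg G s) Y L col ω) := by
  have hb1 : 1 ≤ b := Nat.pos_of_ne_zero (NeZero.ne b)
  have hb0 : (0 : ℝ) < b := by exact_mod_cast hb1
  have hc0 := cc_nonneg b n l hb1
  have hc1 := (cc_le b n l hb1 hl).2
  have hq0 := qq_nonneg b n l l' hb1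
  have hq1 : qq b n l l' ≤ 1 := by
    refine (qq_le b n l l' hb1 hl).trans ?_
    rw [div_le_one (by exact_mod_cast hl)]
    exact_mod_cast hll
  refine ⟨fun v i g => ?_, fun v i g => ?_, fun v i g g' => ?_, fun v i => ?_⟩
  · rw [Rnd_Ft G (f v i) Y L col hS ω g]
    have a1 := abs_le.1 (hT.t1 v i g)
    have a2 := abs_le.1 (h1 v i g)
    have a3 := abs_le.1 (hT.w1 v i g)
    have a4 : |cc b n l * (Wt (f v i) Y L g - w * ∑ x, f v i x)| ≤ e2 / b := by
      rw [abs_mul, abs_of_nonneg hc0, div_eq_mul_one_div, mul_comm]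
      exact mul_le_mul (hT.w1 v i g) hc1 hc0 he
    have a5 := abs_le.1 a4
    rw [abs_le]
    constructor
    · nlinarith [a1.1, a2.1, a5.1]
    · nlinarith [a1.2, a2.2, a5.2]
  · rw [Rnd_Wt]
    have a2 := abs_le.1 (h2 v i g)
    have a4 : |qq b n l l' * (Wt (f v i) Y L g - w * ∑ x, f v i x)| ≤ e2 := by
      rw [abs_mul, abs_of_nonneg hq0]
      calc qq b n l l' * |Wt (f v i) Y L g - w * ∑ x, f v i x| ≤ 1 * e2 :=
            mul_le_mul hq1 (hT.w1 v i g) (abs_nonneg _) (by norm_num)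
        _ = e2 := one_mul _
    have a5 := abs_le.1 a4
    rw [abs_le]
    constructor
    · nlinarith [a2.1, a5.1]
    · nlinarith [a2.2, a5.2]
  · have a1 := h3 v i g g'
    have a2 := Ph_mono (h v i) (hh v i) col g g' (lam + 1 / b) (lam + β) (by positivity) (by linarith)
    have a3 := hT.t2 v i g g'
    linarith
  · have a1 := nf_FT (Cg G s) Y L col ω (Fr v i)
    have a2 : ((FT (Fr v i) (nf (Cg G s) Y L col ω) : ℕ) : ℝ) ≤
        (FT (Fr v i) col : ℕ) + (((Fr v i).filter (fun p => act ω p.1 p.2)).card : ℝ) := by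
      exact_mod_cast a1
    have a3 := hT.t3 v i
    have a4 := h4 v i
    unfold FT at a2
    linarith

theorem Rnd_sys (G : SimpleGraph V) (hG : Reg G Δ) : IsSys G (Cg G s) Δ where
  symm c v w h := (mem_nb G w v).2 ((mem_nb G v w).1 h).symm
  irr c v := Ev_irr G c v
  card c v := (hG v).le
  near c v z hz := bl_mono G v (by norm_num) (bl_nb hz)

theorem Rnd_St (G : SimpleGraph V) (hG : Reg G Δ) {l l' n' : ℕ} (Y : Finset V)
    (L : V → Finset (Fin s)) (col : V → Option (Fin s)) (hS : St G l n Y L col) (ω : Ix V s n → Cn s b)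
    (h1 : ∀ v ∈ nY (Cg G s) Y L ω, l' ≤ (Sv (Cg G s) Y L ω v).card)
    (h2 : ∀ v ∈ nY (Cg G s) Y L ω, unc G Y L ω v ≤ n') :
    St G l' n' (nY (Cg G s) Y L ω) (nl (Cg G s) Y L l' ω) (nf (Cg G s) Y L col ω) := by
  have h3 : ∀ v ∈ nY (Cg G s) Y L ω, ((nb G v).filter (fun u => u ∈ nY (Cg G s) Y L ω)).card ≤ n' := by
    intro v hv
    have := h2 v hv
    unfold unc at this
    have e : (nb G v).filter (fun u => u ∈ nY (Cg G s) Y L ω) =
        (nb G v).filter (fun z => z ∈ Y ∧ nw (Cg G s) Y L ω z = none) :=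
      filter_congr fun z _ => Rnd_nY G Y L ω z
    rw [e]
    exact_mod_cast this
  refine ⟨det G (Cg G s) Δ (Rnd_sys G hG) (fun _ => ∅) ∅ 0 l n Y L col hS.ok l' n' ω h1
    (fun v hv c _ => ?_), h3⟩
  refine le_trans (card_le_card fun z hz => ?_) (h3 v hv)
  rw [mem_filter] at hz ⊢
  exact ⟨hz.1, hz.2.1⟩

theorem rnd [NeZero b] (hP : Pm N Δ) (G : SimpleGraph V) (hG : Reg G Δ) (hs : 1 ≤ s) (hsΔ : s ≤ Δ)
    [Fintype ι] (hι : (Fintype.card ι : ℝ) ≤ Real.exp (N ^ 4)) (f : V → ι → V → ℝ) (h : V → ι → V → V → ℝ)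
    (Fr : V → ι → Finset (V × Fin s)) (hF : Top.Fam G N Δ s f h Fr) {l l' n' : ℕ} (hl : 1 ≤ l)
    (hb : 2 * Δ ≤ b) (h1 : (l' : ℝ) ≤ kap b n * l - Real.sqrt (8 * l * N ^ 6))
    (h2 : (n : ℝ) * (1 - kap b n / b) ^ l + 2 * dv Δ ≤ n')
    (Y : Finset V) (L : V → Finset (Fin s)) (col : V → Option (Fin s)) (hS : St G l n Y L col)
    {lamT φ w e1 e2 lam β e' K : ℝ} (hlam : 0 ≤ lam) (hlam1 : lam ≤ 1) (he : 0 ≤ e2)
    (hβ : 1 / (b : ℝ) ≤ β) (hT : Ts f h Fr lamT φ w e1 e2 (lam + β) e' K Y L col) :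
    ∃ (Y' : Finset V) (L' : V → Finset (Fin s)) (col' : V → Option (Fin s)), St G l' n' Y' L' col' ∧
      Ts f h Fr lamT (φ + cc b n l * w) (qq b n l l' * w) (e1 + e2 / b + dl Δ) (e2 + dl Δ) lam
        (e' + dl Δ) (K + (6 * Δ / b + 2 * N ^ 6)) Y' L' col' := by
  obtain ⟨hN0, hD0⟩ := Ev_pos hP
  have hb1 : 1 ≤ b := Nat.pos_of_ne_zero (NeZero.ne b)
  have hs0 : (0 : ℝ) < s := by exact_mod_cast hs
  have hsD : (s : ℝ) ≤ Δ := by exact_mod_cast hsΔ
  have hll : l' ≤ l := by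
    have a1 := kap_le_one b n hb1
    have a2 : (0 : ℝ) ≤ l := Nat.cast_nonneg l
    have a3 := Real.sqrt_nonneg (8 * l * (N : ℝ) ^ 6)
    have : (l' : ℝ) ≤ l := by nlinarith
    exact_mod_cast this
  have hNn : 1 ≤ N := le_trans (by norm_num) hP.big
  have hN5 : 1 ≤ N ^ 5 := Nat.one_le_pow _ _ hNn
  obtain ⟨ω, hω, e1', e2', e3', e4'⟩ := evs (b := b) hP G hG hs hsΔ hι f h Fr hF l' Y L col hS lam hlam hlam1
    (fun v ω => v ∈ Y ∧ ((Sv (Cg G s) Y L ω v).card < l' ∨ (n' : ℝ) < unc G Y L ω v))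
    (fun v ω ω' hag => by
      have a1 := (nw_agr G Y L v ω ω' (Agr_sub hag (bl_mono G v (by norm_num)))).2.1
      have a2 : unc G Y L ω v = unc G Y L ω' v := by
        unfold unc
        congr 2
        refine filter_congr fun z hz => ?_
        rw [(nw_agr G Y L z ω ω' (Agr_bl hag (bl_nb hz) (by norm_num))).1]
      show (v ∈ Y ∧ ((Sv (Cg G s) Y L ω v).card < l' ∨ (n' : ℝ) < unc G Y L ω v)) ↔
        (v ∈ Y ∧ ((Sv (Cg G s) Y L ω' v).card < l' ∨ (n' : ℝ) < unc G Y L ω' v))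
      rw [a1, a2])
    (fun v => by
      by_cases hv : v ∈ Y
      swap
      · have e0 : (fun ω : Ix V s n → Cn s b => v ∈ Y ∧ ((Sv (Cg G s) Y L ω v).card < l' ∨
            (n' : ℝ) < unc G Y L ω v)) = fun _ => False := by
          funext ω
          exact propext ⟨fun h => hv h.1, fun h => h.elim⟩
        rw [e0]
        unfold pr
        simp
        positivity
      have a1 := lst (b := b) (Cg G s) Y L v l hl (hS.ok.le v hv) (hS.ok.deg v hv) ((N : ℝ) ^ 6)
        (by positivity)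
      rw [hS.ok.eq v hv (notMem_empty v)] at a1
      have a2 := uncp (b := b) G Δ hG hs (N ^ 5) hN5 hb Y L l
        (fun z hz => hS.ok.eq z hz (notMem_empty z)) hS.ok.deg v (hS.dg v hv) (dv Δ)
        (by linarith [(Ev_dl hP).2.2])
      have a3 : Real.exp (-(dv Δ ^ 2 / (8 * s * ((N ^ 5 : ℕ) : ℝ) ^ 2))) ≤ Real.exp (-(N : ℝ) ^ 6) := by
        refine Real.exp_le_exp.2 (neg_le_neg ((nm1 hP).2.2.2.trans ?_))
        have hx : (0 : ℝ) < ((N ^ 5 : ℕ) : ℝ) := by exact_mod_cast hN5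
        rw [div_pow, div_div]
        refine div_le_div_of_nonneg_left (by positivity) (by positivity) ?_
        have : (0 : ℝ) ≤ ((N ^ 5 : ℕ) : ℝ) ^ 2 := by positivity
        nlinarith
      have a4 := Ev_exp hP
      have a5 := Real.exp_pos (-((N : ℝ) ^ 5 / 2))
      have a6 := pr_or (fun ω : Ix V s n → Cn s b => ((Sv (Cg G s) Y L ω v).card : ℝ) < kap b n * l -
        Real.sqrt (8 * l * (N : ℝ) ^ 6)) (fun ω => (n : ℝ) * (1 - kap b n / b) ^ l +
        Δ * (s * (1 / 2 : ℝ) ^ (N ^ 5)) + dv Δ ≤ unc G Y L ω v)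
      refine le_trans (pr_mono fun ω hω => ?_) (a6.trans (by linarith))
      rcases hω.2 with h5 | h5
      · left
        have : ((Sv (Cg G s) Y L ω v).card : ℝ) < l' := by exact_mod_cast h5
        linarith
      · right
        have a7 := (nm2 hP).1
        have a8 : (Δ : ℝ) * (s * (1 / 2 : ℝ) ^ (N ^ 5)) ≤ Δ * (Δ * (1 / 2 : ℝ) ^ (N ^ 5)) :=
          mul_le_mul_of_nonneg_left (mul_le_mul_of_nonneg_right hsD (by positivity)) hD0.le
        have a9 := (Ev_dl hP).2.2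
        linarith)
  refine ⟨_, _, _, Rnd_St G hG Y L col hS ω ?_ ?_, nxt G f h (fun v i => (hF.bil v i).nn) Fr hl l' hll Y L col hS hlam
    he hβ hT ω _ _ e1' e2' e3' e4'⟩
  · intro v hv
    by_contra hc
    exact hω v ⟨((Rnd_nY G Y L ω v).1 hv).1, Or.inl (not_le.1 hc)⟩
  · intro v hv
    by_contra hc
    exact hω v ⟨((Rnd_nY G Y L ω v).1 hv).1, Or.inr (not_le.1 hc)⟩

theorem las [NeZero b] (hP : Pm N Δ) (G : SimpleGraph V) (hG : Reg G Δ) (hs : 1 ≤ s) (hsΔ : s ≤ Δ)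
    [Fintype ι] (hι : (Fintype.card ι : ℝ) ≤ Real.exp (N ^ 4)) (f : V → ι → V → ℝ) (h : V → ι → V → V → ℝ)
    (Fr : V → ι → Finset (V × Fin s)) (hF : Top.Fam G N Δ s f h Fr) {l : ℕ} (hl : 1 ≤ l)
    (hb : b * N ^ 6 ≤ l) (hn : 2 * n ≤ b)
    (Y : Finset V) (L : V → Finset (Fin s)) (col : V → Option (Fin s)) (hS : St G l n Y L col)
    {lamT φ w e1 e2 lam β e' K : ℝ} (hlam : 0 ≤ lam) (hlam1 : lam ≤ 1) (he : 0 ≤ e2)
    (hβ : 1 / (b : ℝ) ≤ β) (hT : Ts f h Fr lamT φ w e1 e2 (lam + β) e' K Y L col) :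
    ∃ (L' : V → Finset (Fin s)) (col' : V → Option (Fin s)), (∀ v, col' v ≠ none) ∧
      (∀ u v c, G.Adj u v → col' u = some c → col' v ≠ some c) ∧
      Ts f h Fr lamT (φ + cc b n l * w) (qq b n l 0 * w) (e1 + e2 / b + dl Δ) (e2 + dl Δ) lam
        (e' + dl Δ) (K + (6 * Δ / b + 2 * N ^ 6)) ∅ L' col' := by
  obtain ⟨hN0, hD0⟩ := Ev_pos hP
  have hb1 : 1 ≤ b := Nat.pos_of_ne_zero (NeZero.ne b)
  have hb0 : (0 : ℝ) < b := by exact_mod_cast hb1
  obtain ⟨ω, hω, e1', e2', e3', e4'⟩ := evs (b := b) hP G hG hs hsΔ hι f h Fr hF 0 Y L col hS lam hlam hlam1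
    (fun v ω => v ∈ Y ∧ nw (Cg G s) Y L ω v = none)
    (fun v ω ω' hag => by
      show (v ∈ Y ∧ nw (Cg G s) Y L ω v = none) ↔ (v ∈ Y ∧ nw (Cg G s) Y L ω' v = none)
      rw [(nw_agr G Y L v ω ω' (Agr_sub hag (bl_mono G v (by norm_num)))).1])
    (fun v => by
      by_cases hv : v ∈ Y
      swap
      · have e0 : (fun ω : Ix V s n → Cn s b => v ∈ Y ∧ nw (Cg G s) Y L ω v = none) = fun _ => False := by
          funext ω
          exact propext ⟨fun h => hv h.1, fun h => h.elim⟩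
        rw [e0]
        unfold pr
        simp
        positivity
      have a1 := none_pr (b := b) (Cg G s) (Ev_irr G) Y L v (hS.ok.deg v hv)
      rw [hS.ok.eq v hv (notMem_empty v)] at a1
      have a2 : pr (fun ω : Ix V s n → Cn s b => v ∈ Y ∧ nw (Cg G s) Y L ω v = none) ≤
          (1 - kap b n / b) ^ l := by
        rw [← a1]
        exact pr_mono fun ω hω => hω.2
      have a3 : 1 / 2 ≤ kap b n := by
        refine le_trans ?_ (kap_lin b n hb1)
        have : (n : ℝ) / b ≤ 1 / 2 := by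
          rw [div_le_iff₀ hb0]
          have : (2 : ℝ) * n ≤ b := by exact_mod_cast hn
          linarith
        linarith
      have a4 : (1 - kap b n / b) ^ l ≤ Real.exp (-((N : ℝ) ^ 6 / 2)) := by
        have c1 : 0 ≤ 1 - kap b n / b := by
          have h3 := kap_le_one b n hb1
          rw [sub_nonneg, div_le_one hb0]
          have : (1 : ℝ) ≤ b := by exact_mod_cast hb1
          linarith
        calc (1 - kap b n / b) ^ l ≤ (Real.exp (-(kap b n / b))) ^ l :=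
              pow_le_pow_left₀ c1 (by
                have := Real.add_one_le_exp (-(kap b n / b))
                linarith) l
          _ = Real.exp (l * (-(kap b n / b))) := by rw [← Real.exp_nat_mul]
          _ ≤ _ := by
              refine Real.exp_le_exp.2 ?_
              have c2 : (b : ℝ) * N ^ 6 ≤ l := by exact_mod_cast hb
              have c3 : (N : ℝ) ^ 6 ≤ l / b := by
                rw [le_div_iff₀ hb0]
                linarith
              have c4 : (l : ℝ) * (kap b n / b) = (l / b) * kap b n := by ring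
              have c5 : (N : ℝ) ^ 6 * (1 / 2) ≤ (l / b) * kap b n :=
                mul_le_mul c3 a3 (by norm_num) (by positivity)
              linarith
      have a5 : Real.exp (-((N : ℝ) ^ 6 / 2)) ≤ Real.exp (-((N : ℝ) ^ 5 / 2)) := by
        refine Real.exp_le_exp.2 ?_
        have hN1 : (1 : ℝ) ≤ N := by exact_mod_cast le_trans (by norm_num) hP.big
        have h46 : (N : ℝ) ^ 5 ≤ (N : ℝ) ^ 6 := pow_le_pow_right₀ hN1 (by norm_num)
        linarith
      have a6 := Real.exp_pos (-((N : ℝ) ^ 5 / 2))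
      linarith)
  have hY : nY (Cg G s) Y L ω = ∅ := by
    refine eq_empty_of_forall_notMem fun v hv => ?_
    exact hω v ((Rnd_nY G Y L ω v).1 hv)
  have hSt := Rnd_St (l' := 0) (n' := 0) G hG Y L col hS ω (fun v _ => Nat.zero_le _) (fun v hv => by
    rw [hY] at hv
    exact absurd hv (notMem_empty v))
  have hTs := nxt G f h (fun v i => (hF.bil v i).nn) Fr hl 0 (Nat.zero_le _) Y L col hS hlam
    he hβ hT ω _ _ e1' e2' e3' e4'
  rw [hY] at hTs hSt
  refine ⟨_, nf (Cg G s) Y L col ω, fun v => hSt.ok.co v (notMem_empty v), fun u v c huv hu => ?_, hTs⟩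
  exact hSt.ok.prop u c hu v ((mem_nb G u v).2 huv)

end

end Pool.Agent.H84.LN
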